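import Mathlib

set_option autoImplicit false

/-! # Basic facts on the field with `q ^ 2` elements -/

namespace Pool.Agent.H566R3

variable {K : Type} [Field K] [Fintype K] {q : ℕ}

theorem two_le_q (hq : Fintype.card K = q ^ 2) : 2 ≤ q := by
  have h1 : 1 < Fintype.card K := Fintype.one_lt_card
  rw [hq] at h1
  by_contra hcon
  push Not at hcon
  interval_cases q <;> simp at h1

theorem exists_char (hq : Fintype.card K = q ^ 2) :
    ∃ (p k : ℕ), p.Prime ∧ CharP K p ∧ q = p ^ k := by
  obtain ⟨p, hp⟩ := CharP.exists K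
  obtain ⟨n, hprime, hn⟩ := FiniteField.card K p
  have h1 : q ∣ p ^ (n : ℕ) := by
    rw [← hn, hq]
    exact dvd_pow_self q (by norm_num)
  obtain ⟨k, _, hk⟩ := (Nat.dvd_prime_pow hprime).1 h1
  exact ⟨p, k, hprime, hp, hk⟩

theorem add_pow_q (hq : Fintype.card K = q ^ 2) (x y : K) : (x + y) ^ q = x ^ q + y ^ q := by
  obtain ⟨p, k, hp, hc, rfl⟩ := exists_char hq
  have := Fact.mk hp
  exact add_pow_char_pow x y p k

theorem pow_q_q (hq : Fintype.card K = q ^ 2) (x : K) : (x ^ q) ^ q = x := by
  rw [← pow_mul, ← pow_two, ← hq]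
  exact FiniteField.pow_card x

/-- The conjugation `x ↦ x ^ q` as a ring homomorphism. -/
def cj (hq : Fintype.card K = q ^ 2) : K →+* K where
  toFun x := x ^ q
  map_one' := one_pow q
  map_mul' x y := mul_pow x y q
  map_zero' := zero_pow (by have := two_le_q hq; omega)
  map_add' x y := add_pow_q hq x y

theorem cj_apply (hq : Fintype.card K = q ^ 2) (x : K) : cj hq x = x ^ q := rfl

theorem sub_pow_q (hq : Fintype.card K = q ^ 2) (x y : K) : (x - y) ^ q = x ^ q - y ^ q := by
  have := (cj hq).map_sub x y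
  simpa [cj_apply] using this

theorem neg_pow_q (hq : Fintype.card K = q ^ 2) (x : K) : (-x) ^ q = -(x ^ q) := by
  have := (cj hq).map_neg x
  simpa [cj_apply] using this

variable [DecidableEq K]

/-- the elements of trace `s` -/
def trFib (q : ℕ) (s : K) : Finset K := Finset.univ.filter fun t => t + t ^ q = s

theorem mem_trFib {s t : K} : t ∈ trFib q s ↔ t + t ^ q = s := by
  simp [trFib]

/-- The fixed field. -/
def fixF (K : Type) [Field K] [Fintype K] [DecidableEq K] (q : ℕ) : Finset K :=
  Finset.univ.filter fun t => t ^ q = t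

omit [Fintype K] in
theorem card_roots_aux (p : Polynomial K) (hp : p ≠ 0) (S : Finset K)
    (h : ∀ s ∈ S, p.eval s = 0) : S.card ≤ p.natDegree := by
  have h1 : S ⊆ p.roots.toFinset := by
    intro s hs
    rw [Multiset.mem_toFinset, Polynomial.mem_roots hp]
    exact h s hs
  exact (Finset.card_le_card h1).trans ((Multiset.toFinset_card_le _).trans (Polynomial.card_roots' p))

theorem card_trFib_le (hq : Fintype.card K = q ^ 2) (s : K) : (trFib q s).card ≤ q := by
  have h2 := two_le_q hq
  have hdeg : (Polynomial.X ^ q + (Polynomial.X - Polynomial.C s) : Polynomial K).natDegree = q := by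
    rw [Polynomial.natDegree_add_eq_left_of_natDegree_lt]
    · simp
    · rw [Polynomial.natDegree_X_sub_C, Polynomial.natDegree_X_pow]
      omega
  have h0 : (Polynomial.X ^ q + (Polynomial.X - Polynomial.C s) : Polynomial K) ≠ 0 := by
    intro h
    rw [h] at hdeg
    simp at hdeg
    omega
  refine (card_roots_aux _ h0 _ ?_).trans hdeg.le
  intro t ht
  rw [mem_trFib] at ht
  simp only [Polynomial.eval_add, Polynomial.eval_pow, Polynomial.eval_X, Polynomial.eval_sub,
    Polynomial.eval_C]
  rw [← ht]; ring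

theorem card_fixF_le (hq : Fintype.card K = q ^ 2) : (fixF K q).card ≤ q := by
  have h2 := two_le_q hq
  have hdeg : (Polynomial.X ^ q - Polynomial.X : Polynomial K).natDegree = q :=
    FiniteField.X_pow_card_sub_X_natDegree_eq K (by omega)
  have h0 : (Polynomial.X ^ q - Polynomial.X : Polynomial K) ≠ 0 :=
    FiniteField.X_pow_card_sub_X_ne_zero K (by omega)
  refine (card_roots_aux _ h0 _ ?_).trans hdeg.le
  intro t ht
  simp only [fixF, Finset.mem_filter, Finset.mem_univ, true_and] at ht
  simp [ht]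

theorem tr_mem_fixF (hq : Fintype.card K = q ^ 2) (t : K) : t + t ^ q ∈ fixF K q := by
  simp only [fixF, Finset.mem_filter, Finset.mem_univ, true_and]
  rw [add_pow_q hq, pow_q_q hq, add_comm]

theorem card_trFib (hq : Fintype.card K = q ^ 2) {s : K} (hs : s ^ q = s) :
    (trFib q s).card = q := by
  have h2 := two_le_q hq
  have hsum : ∑ s ∈ fixF K q, (trFib q s).card = q ^ 2 := by
    rw [← hq, ← Finset.card_univ]
    symm
    exact Finset.card_eq_sum_card_fiberwise (f := fun t => t + t ^ q)
      (fun t _ => by simpa using tr_mem_fixF hq t)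
  by_contra hcon
  have hlt : (trFib q s).card < q := lt_of_le_of_ne (card_trFib_le hq s) hcon
  have hsF : s ∈ fixF K q := by simpa [fixF] using hs
  have h3 : ∑ s ∈ fixF K q, (trFib q s).card < ∑ s ∈ fixF K q, q :=
    Finset.sum_lt_sum (fun i _ => card_trFib_le hq i) ⟨s, hsF, hlt⟩
  rw [hsum, Finset.sum_const, smul_eq_mul] at h3
  have h4 := card_fixF_le (K := K) hq
  nlinarith

theorem exists_tr (hq : Fintype.card K = q ^ 2) {s : K} (hs : s ^ q = s) :
    ∃ t : K, t + t ^ q = s := by
  have h2 := two_le_q hq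
  have h := card_trFib hq hs
  have : (trFib q s).Nonempty := by
    rw [← Finset.card_pos, h]; omega
  obtain ⟨t, ht⟩ := this
  exact ⟨t, mem_trFib.1 ht⟩

theorem exists_norm (hq : Fintype.card K = q ^ 2) {s : K} (hs : s ^ q = s) :
    ∃ t : K, t ^ (q + 1) = s := by
  classical
  have h2 := two_le_q hq
  rcases eq_or_ne s 0 with rfl | hs0
  · exact ⟨0, by simp⟩
  -- the multiplicative group
  let A : Finset K := Finset.univ.filter fun t => t ≠ 0
  let B : Finset K := (fixF K q).filter fun t => t ≠ 0
  have hA : A.card = q ^ 2 - 1 := by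
    have : A = Finset.univ.erase 0 := by
      ext t; simp [A]
    rw [this, Finset.card_erase_of_mem (Finset.mem_univ _), Finset.card_univ, hq]
  have hB : B.card ≤ q - 1 := by
    have : B = (fixF K q).erase 0 := by
      ext t; simp [B, and_comm]
    have h0 : (0 : K) ∈ fixF K q := by
      simp [fixF]; omega
    rw [this, Finset.card_erase_of_mem h0]
    have := card_fixF_le (K := K) hq
    omega
  have hfib : ∀ u ∈ B, ((A.filter fun t => t ^ (q + 1) = u)).card ≤ q + 1 := by
    intro u hu
    have hu0 : u ≠ 0 := by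
      simp only [B, Finset.mem_filter] at hu; exact hu.2
    have hdeg : (Polynomial.X ^ (q + 1) - Polynomial.C u : Polynomial K).natDegree = q + 1 :=
      Polynomial.natDegree_X_pow_sub_C
    have h0 : (Polynomial.X ^ (q + 1) - Polynomial.C u : Polynomial K) ≠ 0 :=
      Polynomial.X_pow_sub_C_ne_zero (by omega) u
    refine (card_roots_aux _ h0 _ ?_).trans hdeg.le
    intro t ht
    simp only [Finset.mem_filter] at ht
    simp [ht.2]
  have hmaps : ∀ t ∈ A, t ^ (q + 1) ∈ B := by
    intro t ht
    simp only [A, Finset.mem_filter, Finset.mem_univ, true_and] at ht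
    simp only [B, fixF, Finset.mem_filter, Finset.mem_univ, true_and]
    refine ⟨?_, pow_ne_zero _ ht⟩
    rw [← pow_mul, add_mul, one_mul, pow_add, ← pow_two, ← hq, FiniteField.pow_card, pow_succ,
      mul_comm]
  have hcard : A.card = ∑ u ∈ B, (A.filter fun t => t ^ (q + 1) = u).card :=
    Finset.card_eq_sum_card_fiberwise (f := fun t => t ^ (q + 1)) hmaps
  by_contra hcon
  push Not at hcon
  have hsB : s ∈ B := by
    simp only [B, fixF, Finset.mem_filter, Finset.mem_univ, true_and]
    exact ⟨hs, hs0⟩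
  have hempty : (A.filter fun t => t ^ (q + 1) = s).card = 0 := by
    rw [Finset.card_eq_zero, Finset.filter_eq_empty_iff]
    intro t _ ht
    exact hcon t ht
  have h3 : ∑ u ∈ B, (A.filter fun t => t ^ (q + 1) = u).card < ∑ u ∈ B, (q + 1) :=
    Finset.sum_lt_sum hfib ⟨s, hsB, by rw [hempty]; omega⟩
  rw [← hcard, Finset.sum_const, smul_eq_mul, hA] at h3
  have h4 : B.card * (q + 1) ≤ (q - 1) * (q + 1) := Nat.mul_le_mul_right _ hB
  have h5 : (q - 1) * (q + 1) = q ^ 2 - 1 := by
    obtain ⟨r, rfl⟩ : ∃ r, q = r + 1 := ⟨q - 1, by omega⟩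
    simp only [Nat.add_sub_cancel]
    have : (r + 1) ^ 2 = r * (r + 1 + 1) + 1 := by ring
    omega
  omega

omit [DecidableEq K] in
theorem norm_fix (hq : Fintype.card K = q ^ 2) (w : K) : (w ^ (q + 1)) ^ q = w ^ (q + 1) := by
  rw [pow_succ, mul_pow, pow_q_q hq, mul_comm]

end Pool.Agent.H566R3
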