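import Mathlib
import Pool.Agent.H566R3.Fld

set_option autoImplicit false
set_option maxHeartbeats 400000

/-! # A Bezout bound for the affine Hermitian curve -/

namespace Pool.Agent.H566R3

variable {K : Type} [Field K] [Fintype K] [DecidableEq K] {q : ℕ}

/-- monomial functions on a finite set of points -/
def Mf (S : Finset (K × K)) (i l : ℕ) : S → K := fun P => P.1.1 ^ i * P.1.2 ^ l

theorem span_all (S : Finset (K × K)) (U : Submodule K (S → K))
    (hU : ∀ i l, Mf S i l ∈ U) : U = ⊤ := by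
  rw [eq_top_iff]
  intro v _
  let φ : (Fin 2 → K) → K := fun x => if h : (x 0, x 1) ∈ S then v ⟨(x 0, x 1), h⟩ else 0
  have h1 : φ ∈ (MvPolynomial.restrictDegree (Fin 2) K (Fintype.card K - 1)).map
      (MvPolynomial.evalₗ K (Fin 2)) := by
    rw [MvPolynomial.map_restrict_dom_evalₗ]
    trivial
  obtain ⟨p, _, hp⟩ := h1
  have h2 : v = ∑ m ∈ p.support, (MvPolynomial.coeff m p) • Mf S (m 0) (m 1) := by
    funext P
    have h3 : φ ![P.1.1, P.1.2] = v P := by
      simp [φ]
    rw [← h3, ← hp]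
    simp only [MvPolynomial.evalₗ_apply, Finset.sum_apply, Pi.smul_apply, smul_eq_mul, Mf]
    rw [MvPolynomial.eval_eq']
    refine Finset.sum_congr rfl fun m _ => ?_
    rw [Fin.prod_univ_two]
    simp
  rw [h2]
  exact U.sum_mem fun m _ => U.smul_mem _ (hU _ _)

theorem hb (hq : Fintype.card K = q ^ 2) (c : K) (hc : c ≠ 0) (S : Finset (K × K))
    (hS : ∀ P ∈ S, P.1 ^ q + P.1 + c * P.2 ^ (q + 1) = 0)
    (supp : Finset (ℕ × ℕ)) (G : ℕ × ℕ → K) (i₀ l₀ : ℕ) (h0 : (i₀, l₀) ∈ supp)
    (hG : G (i₀, l₀) ≠ 0) (hi : i₀ < q)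
    (htop : ∀ m ∈ supp, m ≠ (i₀, l₀) → m.1 * (q + 1) + m.2 * q < i₀ * (q + 1) + l₀ * q)
    (hz : ∀ P ∈ S, ∑ m ∈ supp, G m * (P.1 ^ m.1 * P.2 ^ m.2) = 0) :
    S.card ≤ i₀ * (q + 1) + l₀ * q := by
  classical
  have h2 := two_le_q hq
  let L : Finset (ℕ × ℕ) := (Finset.range i₀ ×ˢ Finset.range (l₀ + q + 1)) ∪
    ((Finset.Ico i₀ q) ×ˢ Finset.range l₀)
  obtain ⟨U, hUdef⟩ : ∃ U : Submodule K (S → K),
      U = Submodule.span K (Set.range fun m : L => Mf S m.1.1 m.1.2) := ⟨_, rfl⟩
  have hLU : ∀ i l, (i, l) ∈ L → Mf S i l ∈ U := by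
    intro i l hm
    rw [hUdef]
    exact Submodule.subset_span ⟨⟨(i, l), hm⟩, rfl⟩
  -- curve relation
  have hrel : ∀ i l : ℕ, Mf S (i + q) l = -(Mf S (i + 1) l) - c • Mf S i (l + q + 1) := by
    intro i l
    funext P
    have h := hS P.1 P.2
    simp only [Mf, Pi.neg_apply, Pi.sub_apply, Pi.smul_apply, smul_eq_mul]
    have e : P.1.1 ^ (i + q) * P.1.2 ^ l + P.1.1 ^ (i + 1) * P.1.2 ^ l +
        c * (P.1.1 ^ i * P.1.2 ^ (l + q + 1)) =
        P.1.1 ^ i * P.1.2 ^ l * (P.1.1 ^ q + P.1.1 + c * P.1.2 ^ (q + 1)) := by ring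
    rw [h, mul_zero] at e
    linear_combination e
  -- relation from `G`
  have hGrel : ∀ i l : ℕ, Mf S (i₀ + i) (l₀ + l) =
      ∑ m ∈ supp.erase (i₀, l₀), (-(G (i₀, l₀))⁻¹ * G m) • Mf S (m.1 + i) (m.2 + l) := by
    intro i l
    funext P
    have h := hz P.1 P.2
    rw [← Finset.add_sum_erase _ _ h0] at h
    simp only [Mf, Finset.sum_apply, Pi.smul_apply, smul_eq_mul]
    have e : ∀ m ∈ supp.erase (i₀, l₀), (-(G (i₀, l₀))⁻¹ * G m) *
        (P.1.1 ^ (m.1 + i) * P.1.2 ^ (m.2 + l)) =
        (-(G (i₀, l₀))⁻¹ * (P.1.1 ^ i * P.1.2 ^ l)) * (G m * (P.1.1 ^ m.1 * P.1.2 ^ m.2)) := by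
      intro m _
      ring
    rw [Finset.sum_congr rfl e, ← Finset.mul_sum]
    have h' : ∑ m ∈ supp.erase (i₀, l₀), G m * (P.1.1 ^ m.1 * P.1.2 ^ m.2) =
        -(G (i₀, l₀) * (P.1.1 ^ i₀ * P.1.2 ^ l₀)) := by linear_combination h
    rw [h']
    field_simp
    ring
  have key : ∀ n : ℕ, ∀ i l : ℕ, i * (q + 1) + l * q = n → Mf S i l ∈ U := by
    intro n
    induction n using Nat.strong_induction_on with
    | _ n ih =>
      intro i
      induction i using Nat.strong_induction_on with
      | _ i ihi =>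
        intro l hil
        have hsumm : ∀ a b : ℕ, (i₀ + a) * (q + 1) + (l₀ + b) * q = n →
            Mf S (i₀ + a) (l₀ + b) ∈ U := by
          intro a b hab
          rw [hGrel]
          refine U.sum_mem fun m hm => U.smul_mem _ ?_
          rw [Finset.mem_erase] at hm
          have h3 := htop m hm.2 hm.1
          refine ih ((m.1 + a) * (q + 1) + (m.2 + b) * q) ?_ _ _ rfl
          rw [← hab]
          ring_nf at h3 ⊢
          omega
        rcases le_or_gt q i with hiq | hiq
        · obtain ⟨i', rfl⟩ : ∃ i', i = i' + q := ⟨i - q, by omega⟩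
          rw [hrel]
          refine U.sub_mem (U.neg_mem ?_) (U.smul_mem _ ?_)
          · refine ih ((i' + 1) * (q + 1) + l * q) ?_ _ _ rfl
            rw [← hil]
            have : (i' + 1) * (q + 1) < (i' + q) * (q + 1) :=
              Nat.mul_lt_mul_of_pos_right (by omega) (by omega)
            omega
          · refine ihi i' (by omega) _ ?_
            rw [← hil]; ring
        · by_cases hA : i₀ ≤ i
          · by_cases hB : l < l₀
            · refine hLU _ _ ?_
              simp only [L, Finset.mem_union, Finset.mem_product, Finset.mem_range, Finset.mem_Ico]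
              right; exact ⟨⟨hA, hiq⟩, hB⟩
            · obtain ⟨a, rfl⟩ : ∃ a, i = i₀ + a := ⟨i - i₀, by omega⟩
              obtain ⟨b, rfl⟩ : ∃ b, l = l₀ + b := ⟨l - l₀, by omega⟩
              exact hsumm a b hil
          · by_cases hB : l < l₀ + q + 1
            · refine hLU _ _ ?_
              simp only [L, Finset.mem_union, Finset.mem_product, Finset.mem_range, Finset.mem_Ico]
              left; exact ⟨by omega, hB⟩
            · obtain ⟨b, rfl⟩ : ∃ b, l = l₀ + b + q + 1 := ⟨l - l₀ - q - 1, by omega⟩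
              have h4 := hrel i (l₀ + b)
              have h5 : Mf S (i + q) (l₀ + b) ∈ U := by
                obtain ⟨a, ha⟩ : ∃ a, i + q = i₀ + a := ⟨i + q - i₀, by omega⟩
                rw [ha]
                refine hsumm a b ?_
                rw [← ha, ← hil]; ring
              have h6 : Mf S (i + 1) (l₀ + b) ∈ U := by
                refine ih ((i + 1) * (q + 1) + (l₀ + b) * q) ?_ _ _ rfl
                rw [← hil]
                nlinarith
              have h7 : c • Mf S i (l₀ + b + q + 1) ∈ U := by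
                have : c • Mf S i (l₀ + b + q + 1) =
                    -(Mf S (i + 1) (l₀ + b)) - Mf S (i + q) (l₀ + b) := by
                  rw [h4]; abel
                rw [this]
                exact U.sub_mem (U.neg_mem h6) h5
              have h8 := U.smul_mem c⁻¹ h7
              rwa [smul_smul, inv_mul_cancel₀ hc, one_smul] at h8
  have hUtop : U = ⊤ := span_all S U fun i l => key _ i l rfl
  have hfr : Module.finrank K (S → K) = S.card := by
    rw [Module.finrank_fintype_fun_eq_card, Fintype.card_coe]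
  have h3 : Module.finrank K U ≤ L.card := by
    have h := finrank_range_le_card (R := K) (fun m : L => Mf S m.1.1 m.1.2)
    rw [Fintype.card_coe] at h
    rw [hUdef]
    exact h
  rw [hUtop, finrank_top, hfr] at h3
  refine h3.trans ((Finset.card_union_le _ _).trans ?_)
  rw [Finset.card_product, Finset.card_product, Finset.card_range, Finset.card_range,
    Finset.card_range, Nat.card_Ico]
  obtain ⟨r, rfl⟩ : ∃ r, q = i₀ + r := ⟨q - i₀, by omega⟩
  rw [Nat.add_sub_cancel_left]
  apply le_of_eq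
  ring

end Pool.Agent.H566R3
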