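import Mathlib
import Pool.Agent.H566R3.Fld
import Pool.Agent.H566R3.HB

set_option autoImplicit false
set_option maxHeartbeats 400000

/-! # The local estimate at a point of a generator -/

namespace Pool.Agent.H566R3

open Finset

variable {K : Type} [Field K] [Fintype K] [DecidableEq K] {q : ℕ}

/-- value of the polynomial with coefficients `b j`, `j < N` -/
def pv (N : ℕ) (b : ℕ → K) (x : K) : K := ∑ j ∈ range N, b j * x ^ j

omit [Fintype K] [DecidableEq K] in
theorem pv_eval (N : ℕ) (b : ℕ → K) (x : K) :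
    (∑ j ∈ range N, Polynomial.C (b j) * Polynomial.X ^ j : Polynomial K).eval x = pv N b x := by
  simp [pv, Polynomial.eval_finsetSum]

omit [Fintype K] [DecidableEq K] in
theorem pv_coeff (N : ℕ) (b : ℕ → K) (j : ℕ) (hj : j < N) :
    (∑ j ∈ range N, Polynomial.C (b j) * Polynomial.X ^ j : Polynomial K).coeff j = b j := by
  simp only [Polynomial.finsetSum_coeff, Polynomial.coeff_C_mul, Polynomial.coeff_X_pow]
  simp [hj]

omit [Fintype K] [DecidableEq K] in
theorem pv_natDegree (N : ℕ) (b : ℕ → K) (d : ℕ) (hd : ∀ j, d < j → b j = 0) :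
    (∑ j ∈ range N, Polynomial.C (b j) * Polynomial.X ^ j : Polynomial K).natDegree ≤ d := by
  refine Polynomial.natDegree_sum_le_of_forall_le _ _ fun j _ => ?_
  rcases le_or_gt j d with h | h
  · exact (Polynomial.natDegree_C_mul_X_pow_le _ _).trans h
  · rw [hd j h]; simp

omit [Fintype K] in
theorem card_zero_le (N : ℕ) (b : ℕ → K) (d : ℕ) (hd : ∀ j, d < j → b j = 0)
    (hne : ∃ j, j < N ∧ b j ≠ 0) (S : Finset K) (hS : ∀ x ∈ S, pv N b x = 0) : S.card ≤ d := by
  have h0 : (∑ j ∈ range N, Polynomial.C (b j) * Polynomial.X ^ j : Polynomial K) ≠ 0 := by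
    obtain ⟨j, hj, hb⟩ := hne
    intro h
    apply hb
    rw [← pv_coeff N b j hj, h, Polynomial.coeff_zero]
  refine (card_roots_aux _ h0 S fun x hx => ?_).trans (pv_natDegree N b d hd)
  rw [pv_eval]; exact hS x hx

theorem coeff_zero_of_all (N : ℕ) (b : ℕ → K) (d : ℕ) (hd : ∀ j, d < j → b j = 0)
    (hc : d < Fintype.card K) (h : ∀ x, pv N b x = 0) (j : ℕ) (hj : j < N) : b j = 0 := by
  by_contra hb
  have := card_zero_le N b d hd ⟨j, hj, hb⟩ Finset.univ fun x _ => h x
  rw [Finset.card_univ] at this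
  omega

/-- value of a polynomial in two variables -/
def fw (N : ℕ) (b : ℕ → ℕ → K) (τ lam : K) : K := pv N (fun j => pv N (fun i => b i j) τ) lam

theorem pw (hq : Fintype.card K = q ^ 2) (T : Finset K) (hT : T.card = q) (N e : ℕ) (heq : e < q)
    (hN : e < N) (b : ℕ → ℕ → K) (hb : ∀ i j, b i j ≠ 0 → i + j ≤ e) (hne : ∃ i j, b i j ≠ 0) :
    (T.filter fun τ => ∀ lam, fw N b τ lam = 0).card ≤ e ∧
      (((T ×ˢ (Finset.univ : Finset K)).filter fun P => fw N b P.1 P.2 = 0).card : ℤ) ≤
        q * e + (T.filter fun τ => ∀ lam, fw N b τ lam = 0).card * ((q : ℤ) ^ 2 - q) := by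
  have h2 := two_le_q hq
  obtain ⟨A, hA⟩ : ∃ A, A = T.filter fun τ => ∀ lam, fw N b τ lam = 0 := ⟨_, rfl⟩
  rw [← hA]
  have heK : e < Fintype.card K := by rw [hq]; nlinarith
  -- all coefficients vanish on A
  have hA0 : ∀ τ ∈ A, ∀ j, pv N (fun i => b i j) τ = 0 := by
    intro τ hτ j
    rw [hA, mem_filter] at hτ
    rcases le_or_gt j e with hj | hj
    · refine coeff_zero_of_all N (fun j => pv N (fun i => b i j) τ) e ?_ heK hτ.2 j (by omega)
      intro j hj
      simp only [pv]
      refine sum_eq_zero fun i _ => ?_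
      by_cases hbi : b i j = 0
      · rw [hbi, zero_mul]
      · have := hb i j hbi; omega
    · simp only [pv]
      refine sum_eq_zero fun i _ => ?_
      by_cases hbi : b i j = 0
      · rw [hbi, zero_mul]
      · have := hb i j hbi; omega
  have hAj : ∀ i j, b i j ≠ 0 → A.card + j ≤ e := by
    intro i j hij
    have h1 : A.card ≤ e - j := by
      refine card_zero_le N (fun i => b i j) (e - j) ?_ ⟨i, ?_, hij⟩ A fun τ hτ => hA0 τ hτ j
      · intro i' hi'
        by_contra hcon
        have := hb i' j hcon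
        omega
      · have := hb i j hij; omega
    have := hb i j hij
    omega
  obtain ⟨i₁, j₁, h₁⟩ := hne
  have hAe : A.card ≤ e := by have := hAj i₁ j₁ h₁; omega
  refine ⟨hAe, ?_⟩
  -- count
  have hcount : ((T ×ˢ (Finset.univ : Finset K)).filter fun P => fw N b P.1 P.2 = 0).card =
      ∑ τ ∈ T, ((Finset.univ : Finset K).filter fun lam => fw N b τ lam = 0).card := by
    rw [card_filter, sum_product]
    refine sum_congr rfl fun τ _ => ?_
    rw [card_filter]
  have hterm : ∀ τ ∈ T, τ ∉ A →
      ((Finset.univ : Finset K).filter fun lam => fw N b τ lam = 0).card ≤ e - A.card := by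
    intro τ hτT hτA
    have h3 : ∃ lam, fw N b τ lam ≠ 0 := by
      by_contra hcon
      push Not at hcon
      exact hτA (by rw [hA, mem_filter]; exact ⟨hτT, hcon⟩)
    have h4 : ∃ j, j < N ∧ pv N (fun i => b i j) τ ≠ 0 := by
      by_contra hcon
      push Not at hcon
      obtain ⟨lam, hlam⟩ := h3
      apply hlam
      simp only [fw]
      rw [pv]
      refine sum_eq_zero fun j hj => ?_
      rw [hcon j (mem_range.1 hj), zero_mul]
    refine card_zero_le N (fun j => pv N (fun i => b i j) τ) (e - A.card) ?_ h4 _ ?_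
    · intro j hj
      simp only [pv]
      refine sum_eq_zero fun i _ => ?_
      by_cases hbi : b i j = 0
      · rw [hbi, zero_mul]
      · have := hAj i j hbi; omega
    · intro lam hlam
      rw [mem_filter] at hlam
      exact hlam.2
  have hAT : A ⊆ T := by rw [hA]; exact filter_subset _ _
  have hsum : ∑ τ ∈ T, ((Finset.univ : Finset K).filter fun lam => fw N b τ lam = 0).card ≤
      A.card * q ^ 2 + (q - A.card) * (e - A.card) := by
    rw [← sum_sdiff hAT, add_comm]
    refine Nat.add_le_add ?_ ?_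
    · rw [← smul_eq_mul, ← sum_const]
      refine sum_le_sum fun τ _ => ?_
      rw [← hq, ← Finset.card_univ]
      exact card_le_card (filter_subset _ _)
    · have h5 : (T \ A).card = q - A.card := by
        rw [card_sdiff_of_subset hAT, hT]
      rw [← h5, ← smul_eq_mul, ← sum_const]
      refine sum_le_sum fun τ hτ => ?_
      rw [mem_sdiff] at hτ
      exact hterm τ hτ.1 hτ.2
  rw [hcount]
  have h6 : ((∑ τ ∈ T, ((Finset.univ : Finset K).filter fun lam => fw N b τ lam = 0).card : ℕ) : ℤ) ≤
      (A.card * q ^ 2 + (q - A.card) * (e - A.card) : ℕ) := by exact_mod_cast hsum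
  refine h6.trans ?_
  push_cast
  rw [Nat.cast_sub (by omega), Nat.cast_sub hAe]
  have h7 : (A.card : ℤ) ≤ e := by exact_mod_cast hAe
  have h8 : (0 : ℤ) ≤ A.card := by positivity
  nlinarith [mul_nonneg h8 (sub_nonneg.2 h7)]

/-- value of a polynomial in three variables `τ, λ, w` -/
def fv (N : ℕ) (a : ℕ → ℕ → ℕ → K) (τ lam w : K) : K :=
  fw N (fun i j => pv N (fun l => a i j l) w) τ lam

/-- the local number of points -/
def nloc (q N : ℕ) (c : K) (a : ℕ → ℕ → ℕ → K) : ℕ :=
  ∑ w : K, ((trFib q (-(c * w ^ (q + 1))) ×ˢ (Finset.univ : Finset K)).filter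
    fun P => fv N a P.1 P.2 w = 0).card

open Classical in
/-- the number of planes contained -/
noncomputable def ploc (N : ℕ) (a : ℕ → ℕ → ℕ → K) : ℕ :=
  ((Finset.univ : Finset K).filter fun w => ∀ i j, pv N (fun l => a i j l) w = 0).card

theorem trivial_bound (hq : Fintype.card K = q ^ 2) (T : Finset K) (hT : T.card = q)
    (g : K × K → Prop) [DecidablePred g] :
    (((T ×ˢ (Finset.univ : Finset K)).filter g).card : ℤ) ≤ (q : ℤ) ^ 3 := by
  have h : ((T ×ˢ (Finset.univ : Finset K)).filter g).card ≤ q * q ^ 2 := by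
    refine (card_le_card (filter_subset _ _)).trans ?_
    rw [card_product, hT, Finset.card_univ, hq]
  have h' : (((T ×ˢ (Finset.univ : Finset K)).filter g).card : ℤ) ≤ (q * q ^ 2 : ℕ) := by
    exact_mod_cast h
  refine h'.trans (le_of_eq ?_)
  push_cast; ring

theorem card_T (hq : Fintype.card K = q ^ 2) {c : K} (hc : c ^ q = c) (w : K) :
    (trFib q (-(c * w ^ (q + 1)))).card = q := by
  apply card_trFib hq
  rw [neg_pow_q hq, mul_pow, hc, norm_fix hq]

theorem loc_good (hq : Fintype.card K = q ^ 2) {c : K} (hc : c ^ q = c) (N e κ r : ℕ)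
    (heq : e < q) (hN : q < N) (hκ : κ + e ≤ q) (a : ℕ → ℕ → ℕ → K)
    (ha : ∀ i j l, a i j l ≠ 0 → i + j ≤ e ∧ i + j + l ≤ κ + e)
    (hr : ∀ l, a 0 e l ≠ 0 → l ≤ r) (hne : ∃ l, a 0 e l ≠ 0) :
    (nloc q N c a : ℤ) ≤ q ^ 3 * e + r * (e * ((q : ℤ) ^ 2 - q)) +
      ploc N a * ((q : ℤ) ^ 2 * (q - e)) := by
  classical
  have h2 := two_le_q hq
  obtain ⟨R, hR⟩ : ∃ R, R = (Finset.univ : Finset K).filter
    fun w => pv N (fun l => a 0 e l) w = 0 := ⟨_, rfl⟩
  obtain ⟨P, hP⟩ : ∃ P, P = (Finset.univ : Finset K).filter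
    fun w => ∀ i j, pv N (fun l => a i j l) w = 0 := ⟨_, rfl⟩
  have hPc : ploc N a = P.card := by rw [hP, ploc]
  have hRr : R.card ≤ r := by
    refine card_zero_le N (fun l => a 0 e l) r ?_ ?_ R ?_
    · intro l hl
      by_contra hcon
      have := hr l hcon; omega
    · obtain ⟨l, hl⟩ := hne
      refine ⟨l, ?_, hl⟩
      have := (ha 0 e l hl).2
      omega
    · intro w hw
      rw [hR, mem_filter] at hw; exact hw.2
  have hPR : P ⊆ R := by
    intro w hw
    rw [hP, mem_filter] at hw
    rw [hR, mem_filter]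
    exact ⟨mem_univ _, hw.2 0 e⟩
  have e0 : (0 : ℤ) ≤ e := by positivity
  have q2 : (2 : ℤ) ≤ q := by exact_mod_cast h2
  have eq' : (e : ℤ) < q := by exact_mod_cast heq
  have hsupp : ∀ w i j, pv N (fun l => a i j l) w ≠ 0 → i + j ≤ e := by
    intro w i j h
    by_contra hcon
    apply h
    simp only [pv]
    refine sum_eq_zero fun l _ => ?_
    by_cases h3 : a i j l = 0
    · rw [h3, zero_mul]
    · exact absurd (ha i j l h3).1 hcon
  have hw : ∀ w : K, (((trFib q (-(c * w ^ (q + 1))) ×ˢ (Finset.univ : Finset K)).filter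
      fun P => fv N a P.1 P.2 w = 0).card : ℤ) ≤
      q * e + (if w ∈ R then e * ((q : ℤ) ^ 2 - q) else 0) +
        (if w ∈ P then (q : ℤ) ^ 2 * (q - e) else 0) := by
    intro w
    by_cases hwP : w ∈ P
    · rw [if_pos hwP, if_pos (hPR hwP)]
      refine (trivial_bound hq _ (card_T hq hc w) _).trans (le_of_eq ?_)
      ring
    · rw [if_neg hwP, add_zero]
      have hne' : ∃ i j, pv N (fun l => a i j l) w ≠ 0 := by
        by_contra hcon
        push Not at hcon
        exact hwP (by rw [hP, mem_filter]; exact ⟨mem_univ _, hcon⟩)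
      obtain ⟨h3, h4⟩ := pw hq (trFib q (-(c * w ^ (q + 1)))) (card_T hq hc w) N e heq (by omega)
        (fun i j => pv N (fun l => a i j l) w) (hsupp w) hne'
      by_cases hwR : w ∈ R
      · rw [if_pos hwR]
        refine h4.trans ?_
        have h5 : (((trFib q (-(c * w ^ (q + 1)))).filter fun τ => ∀ lam,
          fw N (fun i j => pv N (fun l => a i j l) w) τ lam = 0).card : ℤ) ≤ e := by
          exact_mod_cast h3
        have h6 : (0 : ℤ) ≤ (q : ℤ) ^ 2 - q := by nlinarith
        have := mul_le_mul_of_nonneg_right h5 h6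
        linarith
      · rw [if_neg hwR]
        have h5 : ((trFib q (-(c * w ^ (q + 1)))).filter fun τ => ∀ lam,
          fw N (fun i j => pv N (fun l => a i j l) w) τ lam = 0).card = 0 := by
          rw [card_eq_zero, filter_eq_empty_iff]
          intro τ _ hτ
          have h6 := coeff_zero_of_all N
            (fun j => pv N (fun i => pv N (fun l => a i j l) w) τ) e (by
              intro j hj
              rw [pv]
              refine sum_eq_zero fun i _ => ?_
              by_cases h7 : pv N (fun l => a i j l) w = 0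
              · rw [h7, zero_mul]
              · have := hsupp w i j h7
                omega) (by rw [hq]; nlinarith) hτ e (by omega)
          apply hwR
          rw [hR, mem_filter]
          refine ⟨mem_univ _, ?_⟩
          rw [pv, sum_eq_single 0] at h6
          · simpa using h6
          · intro i _ hi
            by_cases h7 : pv N (fun l => a i e l) w = 0
            · rw [h7, zero_mul]
            · have := hsupp w i e h7
              omega
          · intro h
            exact absurd (mem_range.2 (by omega)) h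
        rw [h5, Nat.cast_zero, zero_mul, add_zero] at h4
        rw [add_zero]
        exact h4
  have hsum : (nloc q N c a : ℤ) ≤ ∑ w : K, ((q : ℤ) * e +
      (if w ∈ R then e * ((q : ℤ) ^ 2 - q) else 0) +
        (if w ∈ P then (q : ℤ) ^ 2 * (q - e) else 0)) := by
    rw [nloc]
    push_cast
    exact sum_le_sum fun w _ => hw w
  refine hsum.trans ?_
  rw [sum_add_distrib, sum_add_distrib, sum_const, Finset.card_univ, hq, ← sum_filter,
    ← sum_filter, filter_mem_eq_inter, filter_mem_eq_inter, univ_inter, univ_inter, sum_const,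
    sum_const, hPc]
  simp only [nsmul_eq_mul]
  push_cast
  have h6 : (0 : ℤ) ≤ e * ((q : ℤ) ^ 2 - q) := by
    apply mul_nonneg e0; nlinarith
  have h7 : (R.card : ℤ) ≤ r := by exact_mod_cast hRr
  have := mul_le_mul_of_nonneg_right h7 h6
  nlinarith

end Pool.Agent.H566R3
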