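import Mathlib
import Pool.Agent.H566R3.Loc

set_option autoImplicit false
set_option maxHeartbeats 400000

/-! # The local estimate at a bad point of a generator -/

namespace Pool.Agent.H566R3

open Finset

variable {K : Type} [Field K] [Fintype K] [DecidableEq K] {q : ℕ}

theorem wt_inj {q i l i' l' : ℕ} (hi : i < q) (hi' : i' < q)
    (h : i * (q + 1) + l * q = i' * (q + 1) + l' * q) : i = i' ∧ l = l' := by
  have h1 : i + q * (i + l) = i' + q * (i' + l') := by
    ring_nf at h ⊢; omega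
  have h2 : i = i' := by
    have := congrArg (· % q) h1
    simpa [Nat.add_mul_mod_self_left, Nat.mod_eq_of_lt hi, Nat.mod_eq_of_lt hi'] using this
  subst h2
  have h3 : q * (i + l) = q * (i + l') := by omega
  have h4 := Nat.eq_of_mul_eq_mul_left (by omega) h3
  exact ⟨rfl, by omega⟩

theorem arith_bad (q e κ x m i₀ l₀ zs : ℤ) (hq : 2 ≤ q) (he : 1 ≤ e) (heq : e ≤ q)
    (hx : i₀ ≤ x) (hu : i₀ + l₀ ≤ κ + x) (hm : m ≤ l₀)
    (hS : zs + m * q ≤ i₀ * (q + 1) + l₀ * q) :
    q ^ 3 * e + m * (q * (q ^ 2 - e)) + zs * (q ^ 2 - q) ≤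
      q ^ 3 * e + κ * (q * (q ^ 2 - e)) + x * (q ^ 3 - q) := by
  have h1 : zs ≤ i₀ + q * (i₀ + l₀) - m * q := by linarith
  have h2 : (0 : ℤ) ≤ q ^ 2 - q := by nlinarith
  have h3 : zs * (q ^ 2 - q) ≤ (i₀ + q * (i₀ + l₀) - m * q) * (q ^ 2 - q) :=
    mul_le_mul_of_nonneg_right h1 h2
  have h4 : (i₀ + l₀) * (q * (q ^ 2 - q)) ≤ (κ + x) * (q * (q ^ 2 - q)) :=
    mul_le_mul_of_nonneg_right hu (by positivity)
  have h5 : 0 ≤ (κ - m) * (q * (q - e)) + (q ^ 2 - q) * (x - i₀) := by
    rcases le_or_gt m κ with hmk | hmk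
    · have a1 : 0 ≤ (κ - m) * (q * (q - e)) :=
        mul_nonneg (by linarith) (mul_nonneg (by linarith) (by linarith))
      have a2 : 0 ≤ (q ^ 2 - q) * (x - i₀) := mul_nonneg h2 (by linarith)
      linarith
    · have a1 : m - κ ≤ x - i₀ := by linarith
      have a2 : (q ^ 2 - q) * (m - κ) ≤ (q ^ 2 - q) * (x - i₀) := mul_le_mul_of_nonneg_left a1 h2
      have a3 : 0 ≤ (m - κ) * (q * (e - 1)) :=
        mul_nonneg (by linarith) (mul_nonneg (by linarith) (by linarith))
      nlinarith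
  nlinarith

theorem loc_bad (hq : Fintype.card K = q ^ 2) {c : K} (hc : c ^ q = c) (hc0 : c ≠ 0)
    (N e κ x : ℕ) (heq : e < q) (hN : q < N) (hκ : κ + e ≤ q) (hx : 1 ≤ x) (hxe : x ≤ e)
    (a : ℕ → ℕ → ℕ → K) (ha : ∀ i j l, a i j l ≠ 0 → i + j ≤ e ∧ i + j + l ≤ κ + e)
    (hne : ∃ i l, a i (e - x) l ≠ 0) :
    (nloc q N c a : ℤ) ≤ q ^ 3 * e + κ * (q * ((q : ℤ) ^ 2 - e)) + x * ((q : ℤ) ^ 3 - q) := by
  classical
  have h2 := two_le_q hq
  obtain ⟨J, hJ⟩ : ∃ J, J = e - x := ⟨_, rfl⟩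
  rw [← hJ] at hne
  have haJ : ∀ i l, a i J l ≠ 0 → i ≤ x ∧ i + l ≤ κ + x := by
    intro i l h
    have := ha i J l h
    omega
  obtain ⟨supp, hsupp⟩ : ∃ supp : Finset (ℕ × ℕ),
    supp = (range N ×ˢ range N).filter fun m => a m.1 J m.2 ≠ 0 := ⟨_, rfl⟩
  have hmem : ∀ i l, a i J l ≠ 0 → (i, l) ∈ supp := by
    intro i l h
    have := haJ i l h
    rw [hsupp, mem_filter, mem_product, mem_range, mem_range]
    exact ⟨⟨by simp only; omega, by simp only; omega⟩, h⟩
  have hsne : supp.Nonempty := by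
    obtain ⟨i, l, h⟩ := hne
    exact ⟨_, hmem i l h⟩
  obtain ⟨⟨i₀, l₀⟩, h0, htop⟩ := exists_max_image supp (fun m => m.1 * (q + 1) + m.2 * q) hsne
  have h0' : a i₀ J l₀ ≠ 0 := by
    rw [hsupp, mem_filter] at h0; exact h0.2
  have hi₀ := (haJ i₀ l₀ h0').1
  have hu := (haJ i₀ l₀ h0').2
  -- the curve
  obtain ⟨φ, hφ⟩ : ∃ φ : K → K → K,
    φ = fun τ w => pv N (fun i => pv N (fun l => a i J l) w) τ := ⟨_, rfl⟩
  have hφs : ∀ τ w, ∑ m ∈ supp, a m.1 J m.2 * (τ ^ m.1 * w ^ m.2) = φ τ w := by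
    intro τ w
    rw [hφ, hsupp, sum_filter, sum_product]
    simp only [pv]
    refine sum_congr rfl fun i _ => ?_
    rw [sum_mul]
    refine sum_congr rfl fun l _ => ?_
    by_cases h : a i J l = 0
    · simp [h]
    · rw [if_pos h]; ring
  obtain ⟨S, hS⟩ : ∃ S : Finset (K × K),
    S = (univ.filter fun P => P.1 ^ q + P.1 + c * P.2 ^ (q + 1) = 0 ∧ φ P.1 P.2 = 0) := ⟨_, rfl⟩
  have hSc : S.card ≤ i₀ * (q + 1) + l₀ * q := by
    refine hb hq c hc0 S ?_ supp (fun m => a m.1 J m.2) i₀ l₀ h0 h0' (by omega) ?_ ?_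
    · intro P hP
      rw [hS, mem_filter] at hP
      exact hP.2.1
    · intro m hm hne'
      refine lt_of_le_of_ne (htop m hm) fun heq' => hne' ?_
      have hm' : a m.1 J m.2 ≠ 0 := by
        rw [hsupp, mem_filter] at hm; exact hm.2
      have := haJ _ _ hm'
      obtain ⟨h3, h4⟩ := wt_inj (q := q) (by omega) (by omega) heq'
      exact Prod.ext h3 h4
    · intro P hP
      rw [hS, mem_filter] at hP
      have := hφs P.1 P.2
      rw [hP.2.2] at this
      exact this
  -- vertical lines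
  obtain ⟨V, hV⟩ : ∃ V : Finset K, V = univ.filter fun w => ∀ i, pv N (fun l => a i J l) w = 0 :=
    ⟨_, rfl⟩
  have hVm : V.card ≤ l₀ := by
    refine card_zero_le N (fun l => a i₀ J l) l₀ ?_ ⟨l₀, by omega, h0'⟩ V ?_
    · intro l hl
      by_contra hcon
      have := htop _ (hmem i₀ l hcon)
      simp only at this
      have h3 : l₀ * q < l * q := Nat.mul_lt_mul_of_pos_right hl (by omega)
      omega
    · intro w hw
      rw [hV, mem_filter] at hw
      exact hw.2 i₀
  -- fibres of S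
  obtain ⟨z, hz⟩ : ∃ z : K → ℕ, z = fun w =>
    ((trFib q (-(c * w ^ (q + 1)))).filter fun τ => φ τ w = 0).card := ⟨_, rfl⟩
  have hSz : S.card = ∑ w : K, z w := by
    rw [hS, card_filter, Fintype.sum_prod_type_right]
    refine sum_congr rfl fun w _ => ?_
    rw [hz]
    simp only
    rw [card_filter, trFib, sum_filter]
    refine sum_congr rfl fun τ _ => ?_
    have : (τ ^ q + τ + c * w ^ (q + 1) = 0) ↔ τ + τ ^ q = -(c * w ^ (q + 1)) := by
      constructor
      · intro h; linear_combination h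
      · intro h; linear_combination h
    by_cases h3 : τ + τ ^ q = -(c * w ^ (q + 1))
    · simp [h3, this.2 h3]
    · rw [if_neg h3, if_neg]
      exact fun h => h3 (this.1 h.1)
  have hzV : ∀ w ∈ V, z w = q := by
    intro w hw
    rw [hV, mem_filter] at hw
    rw [hz]
    simp only
    rw [filter_true_of_mem, card_T hq hc w]
    intro τ _
    rw [hφ]
    simp only
    rw [pv]
    exact sum_eq_zero fun i _ => by rw [hw.2 i, zero_mul]
  have hsuppw : ∀ w i j, pv N (fun l => a i j l) w ≠ 0 → i + j ≤ e := by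
    intro w i j h
    by_contra hcon
    apply h
    rw [pv]
    refine sum_eq_zero fun l _ => ?_
    by_cases h3 : a i j l = 0
    · rw [h3, zero_mul]
    · exact absurd (ha i j l h3).1 hcon
  have q2 : (2 : ℤ) ≤ q := by exact_mod_cast h2
  have eq' : (e : ℤ) < q := by exact_mod_cast heq
  have hw : ∀ w : K, (((trFib q (-(c * w ^ (q + 1))) ×ˢ (Finset.univ : Finset K)).filter
      fun P => fv N a P.1 P.2 w = 0).card : ℤ) ≤
      q * e + (if w ∈ V then (q : ℤ) * ((q : ℤ) ^ 2 - e) else z w * ((q : ℤ) ^ 2 - q)) := by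
    intro w
    by_cases hwV : w ∈ V
    · rw [if_pos hwV]
      refine (trivial_bound hq _ (card_T hq hc w) _).trans (le_of_eq ?_)
      ring
    · rw [if_neg hwV]
      have hne' : ∃ i j, pv N (fun l => a i j l) w ≠ 0 := by
        by_contra hcon
        push Not at hcon
        exact hwV (by rw [hV, mem_filter]; exact ⟨mem_univ _, fun i => hcon i J⟩)
      obtain ⟨_, h4⟩ := pw hq (trFib q (-(c * w ^ (q + 1)))) (card_T hq hc w) N e heq (by omega)
        (fun i j => pv N (fun l => a i j l) w) (hsuppw w) hne'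
      refine h4.trans ?_
      have h5 : ((trFib q (-(c * w ^ (q + 1)))).filter fun τ => ∀ lam,
          fw N (fun i j => pv N (fun l => a i j l) w) τ lam = 0).card ≤ z w := by
        rw [hz]
        simp only
        apply card_le_card
        intro τ hτ
        rw [mem_filter] at hτ ⊢
        refine ⟨hτ.1, ?_⟩
        have h6 := coeff_zero_of_all N
          (fun j => pv N (fun i => pv N (fun l => a i j l) w) τ) e (by
            intro j hj
            rw [pv]
            refine sum_eq_zero fun i _ => ?_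
            by_cases h7 : pv N (fun l => a i j l) w = 0
            · rw [h7, zero_mul]
            · have := hsuppw w i j h7
              omega) (by rw [hq]; nlinarith) hτ.2 J (by omega)
        rw [hφ]
        exact h6
      have h6 : (((trFib q (-(c * w ^ (q + 1)))).filter fun τ => ∀ lam,
          fw N (fun i j => pv N (fun l => a i j l) w) τ lam = 0).card : ℤ) ≤ z w := by
        exact_mod_cast h5
      have h7 : (0 : ℤ) ≤ (q : ℤ) ^ 2 - q := by nlinarith
      have := mul_le_mul_of_nonneg_right h6 h7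
      linarith
  have hsum : (nloc q N c a : ℤ) ≤ ∑ w : K, ((q : ℤ) * e +
      (if w ∈ V then (q : ℤ) * ((q : ℤ) ^ 2 - e) else z w * ((q : ℤ) ^ 2 - q))) := by
    rw [nloc]
    push_cast
    exact sum_le_sum fun w _ => hw w
  have hsplit : ∑ w : K, (if w ∈ V then (q : ℤ) * ((q : ℤ) ^ 2 - e) else z w * ((q : ℤ) ^ 2 - q)) =
      V.card * ((q : ℤ) * ((q : ℤ) ^ 2 - e)) +
        (∑ w ∈ univ.filter (fun w => w ∉ V), (z w : ℤ)) * ((q : ℤ) ^ 2 - q) := by
    rw [sum_ite, filter_mem_eq_inter, univ_inter, sum_const, nsmul_eq_mul, sum_mul]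
  have hS2 : (∑ w ∈ univ.filter (fun w => w ∉ V), (z w : ℤ)) + V.card * q ≤
      i₀ * (q + 1) + l₀ * q := by
    have h3 : (S.card : ℤ) = V.card * q + ∑ w ∈ univ.filter (fun w => w ∉ V), (z w : ℤ) := by
      rw [hSz]
      push_cast
      rw [← sum_filter_add_sum_filter_not univ (fun w => w ∈ V)]
      congr 1
      rw [filter_mem_eq_inter, univ_inter, ← nsmul_eq_mul, ← sum_const]
      refine sum_congr rfl fun w hw => ?_
      rw [hzV w hw]
    have h4 : (S.card : ℤ) ≤ i₀ * (q + 1) + l₀ * q := by exact_mod_cast hSc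
    linarith
  refine hsum.trans ?_
  rw [sum_add_distrib, hsplit, sum_const, Finset.card_univ, hq, nsmul_eq_mul]
  have key := arith_bad q e κ x V.card i₀ l₀ (∑ w ∈ univ.filter (fun w => w ∉ V), (z w : ℤ)) q2
    (by exact_mod_cast (by omega : 1 ≤ e)) eq'.le (by exact_mod_cast hi₀) (by exact_mod_cast hu)
    (by exact_mod_cast hVm) hS2
  push_cast at key ⊢
  nlinarith [key]

end Pool.Agent.H566R3
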