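import Mathlib
import Pool.Agent.H566R3.Fld

set_option autoImplicit false
set_option maxHeartbeats 400000

/-! # Restriction of forms to lines; scaling -/

namespace Pool.Agent.H566R3

open Finset MvPolynomial

section lines

variable {K : Type} [Field K] {σ : Type} [Fintype σ] [DecidableEq σ]

/-- restriction to the line `x ↦ x • y + d` -/
noncomputable def lineP (y d : σ → K) : MvPolynomial σ K →ₐ[K] Polynomial K :=
  aeval fun i => Polynomial.C (y i) * Polynomial.X + Polynomial.C (d i)

omit [Fintype σ] [DecidableEq σ] in
theorem eval_lineP (y d : σ → K) (G : MvPolynomial σ K) (x : K) :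
    (lineP y d G).eval x = eval (fun i => y i * x + d i) G := by
  have h : (Polynomial.aeval x : Polynomial K →ₐ[K] K).comp (lineP y d) =
      aeval fun i => y i * x + d i := by
    apply MvPolynomial.algHom_ext
    intro i
    simp [lineP]
  have h1 := congrArg (fun f => f G) h
  simpa [Polynomial.aeval_def, Polynomial.eval₂_id] using h1

omit [DecidableEq σ] in
theorem lineP_monomial (y d : σ → K) (s : σ →₀ ℕ) (c : K) :
    (lineP y d (monomial s c)).natDegree ≤ s.degree ∧
      (lineP y d (monomial s c)).coeff s.degree = c * ∏ i, y i ^ s i := by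
  classical
  induction s using Finsupp.induction_linear generalizing c with
  | zero => simp [lineP]
  | add s s' hs hs' =>
    have e1 : (monomial (s + s') c : MvPolynomial σ K) = monomial s c * monomial s' 1 := by
      rw [monomial_mul, mul_one]
    rw [e1, map_mul, map_add]
    obtain ⟨a1, a2⟩ := hs c
    obtain ⟨b1, b2⟩ := hs' 1
    refine ⟨Polynomial.natDegree_mul_le.trans (Nat.add_le_add a1 b1), ?_⟩
    rw [Polynomial.coeff_mul_add_eq_of_natDegree_le a1 b1, a2, b2]
    simp only [Finsupp.add_apply, pow_add, prod_mul_distrib]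
    ring
  | single i n =>
    have e1 : (monomial (Finsupp.single i n) c : MvPolynomial σ K) = C c * X i ^ n := by
      rw [C_mul_X_pow_eq_monomial]
    have e2 : lineP y d (C c * X i ^ n) =
        Polynomial.C c * (Polynomial.C (y i) * Polynomial.X + Polynomial.C (d i)) ^ n := by
      simp [lineP]
    have e3 : (Polynomial.C (y i) * Polynomial.X + Polynomial.C (d i) : Polynomial K).natDegree ≤ 1 :=
      Polynomial.natDegree_linear_le
    rw [e1, e2, Finsupp.degree_single]
    constructor
    · refine (Polynomial.natDegree_C_mul_le _ _).trans ?_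
      refine Polynomial.natDegree_pow_le.trans ?_
      calc n * _ ≤ n * 1 := Nat.mul_le_mul_left n e3
        _ = n := mul_one n
    · rw [Polynomial.coeff_C_mul]
      have := Polynomial.coeff_pow_of_natDegree_le (m := n) e3
      rw [mul_one] at this
      rw [this]
      simp only [Polynomial.coeff_add, Polynomial.coeff_C_mul, Polynomial.coeff_X_one, mul_one]
      rw [Polynomial.coeff_C_of_ne_zero one_ne_zero, add_zero]
      congr 1
      rw [prod_eq_single i]
      · simp
      · intro j _ hj
        rw [Finsupp.single_eq_of_ne hj]; simp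
      · intro h; exact absurd (mem_univ _) h

omit [DecidableEq σ] in
theorem lineP_homog (y d : σ → K) {G : MvPolynomial σ K} {n : ℕ} (hG : G.IsHomogeneous n) :
    (lineP y d G).natDegree ≤ n ∧ (lineP y d G).coeff n = eval y G := by
  have hdeg : ∀ s ∈ G.support, s.degree = n := by
    intro s hs
    have := hG (mem_support_iff.1 hs)
    rw [← this, Finsupp.weight_apply, Finsupp.sum, Finsupp.degree_apply]
    simp
  constructor
  · conv_lhs => rw [G.as_sum]
    rw [map_sum]
    refine Polynomial.natDegree_sum_le_of_forall_le _ _ fun s hs => ?_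
    exact (lineP_monomial y d s _).1.trans (hdeg s hs).le
  · conv_lhs => rw [G.as_sum]
    rw [map_sum, Polynomial.finsetSum_coeff, eval_eq']
    refine sum_congr rfl fun s hs => ?_
    rw [← hdeg s hs]
    exact (lineP_monomial y d s _).2

variable [Fintype K] [DecidableEq K]

omit [DecidableEq σ] [Fintype K] in
theorem card_line_le (y d : σ → K) {G : MvPolynomial σ K} {n : ℕ} (hG : G.IsHomogeneous n)
    (hne : ∃ x, eval (fun i => y i * x + d i) G ≠ 0) (S : Finset K)
    (hS : ∀ x ∈ S, eval (fun i => y i * x + d i) G = 0) : S.card ≤ n := by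
  have h0 : lineP y d G ≠ 0 := by
    obtain ⟨x, hx⟩ := hne
    intro h
    apply hx
    rw [← eval_lineP, h, Polynomial.eval_zero]
  exact (card_roots_aux _ h0 S fun x hx => by rw [eval_lineP]; exact hS x hx).trans
    (lineP_homog y d hG).1

omit [DecidableEq σ] [Fintype K] in
theorem card_line_lt (y d : σ → K) {G : MvPolynomial σ K} {n : ℕ} (hG : G.IsHomogeneous n)
    (hy : eval y G = 0)
    (hne : ∃ x, eval (fun i => y i * x + d i) G ≠ 0) (S : Finset K)
    (hS : ∀ x ∈ S, eval (fun i => y i * x + d i) G = 0) : S.card + 1 ≤ n ∨ (n = 0 ∧ S.card = 0) := by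
  have h0 : lineP y d G ≠ 0 := by
    obtain ⟨x, hx⟩ := hne
    intro h
    apply hx
    rw [← eval_lineP, h, Polynomial.eval_zero]
  have h1 := (lineP_homog y d hG)
  have h2 : (lineP y d G).natDegree ≠ n := by
    intro h
    apply h0
    rw [← Polynomial.leadingCoeff_eq_zero, Polynomial.leadingCoeff, h, h1.2, hy]
  have h3 := (card_roots_aux _ h0 S fun x hx => by rw [eval_lineP]; exact hS x hx)
  left
  have := h1.1
  omega

end lines

section scaling

variable {K : Type} [Field K] [Fintype K] [DecidableEq K] {σ : Type} [Fintype σ] [DecidableEq σ]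

/-- a cone: the vectors with `v i ≠ 0` are the nonzero multiples of those with `v i = 1` -/
theorem card_scale (S : Finset (σ → K)) (hS : ∀ c : K, c ≠ 0 → ∀ v ∈ S, (fun j => c * v j) ∈ S)
    (i : σ) : (S.filter fun v => v i ≠ 0).card =
      (Fintype.card K - 1) * (S.filter fun v => v i = 1).card := by
  have h1 : Fintype.card K - 1 = ((Finset.univ : Finset K).erase 0).card := by
    rw [card_erase_of_mem (mem_univ _), card_univ]
  rw [h1, ← card_product]
  symm
  refine card_bij (fun p _ => fun j => p.1 * p.2 j) ?_ ?_ ?_
  · rintro ⟨c, v⟩ hp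
    simp only [mem_product, mem_erase, mem_univ, and_true, mem_filter] at hp
    simp only [mem_filter]
    refine ⟨hS c hp.1 v hp.2.1, ?_⟩
    rw [hp.2.2, mul_one]; exact hp.1
  · rintro ⟨c, v⟩ hp ⟨c', v'⟩ hp' h
    simp only [mem_product, mem_erase, mem_univ, and_true, mem_filter] at hp hp'
    have e := congrFun h i
    simp only [hp.2.2, hp'.2.2, mul_one] at e
    subst e
    have e2 : v = v' := by
      funext j
      exact mul_left_cancel₀ hp.1 (congrFun h j)
    rw [e2]
  · intro v hv
    rw [mem_filter] at hv
    refine ⟨(v i, fun j => (v i)⁻¹ * v j), ?_, ?_⟩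
    · simp only [mem_product, mem_erase, mem_univ, and_true, mem_filter]
      exact ⟨hv.2, hS _ (inv_ne_zero hv.2) v hv.1, inv_mul_cancel₀ hv.2⟩
    · funext j
      simp only
      rw [← mul_assoc, mul_inv_cancel₀ hv.2, one_mul]

end scaling

end Pool.Agent.H566R3
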