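import Mathlib
import Pool.Agent.H566R3.Loc

set_option autoImplicit false
set_option maxHeartbeats 400000

/-! # Transformations of the polynomial and orders of vanishing -/

namespace Pool.Agent.H566R3

open Finset MvPolynomial

variable {K : Type} [Field K]

/-- exponent vector -/
noncomputable def ix (i j k m l : ℕ) : Fin 5 →₀ ℕ := Finsupp.equivFunOnFinite.symm ![i, j, k, m, l]

@[simp] theorem ix_0 (i j k m l : ℕ) : ix i j k m l 0 = i := rfl
@[simp] theorem ix_1 (i j k m l : ℕ) : ix i j k m l 1 = j := rfl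
@[simp] theorem ix_2 (i j k m l : ℕ) : ix i j k m l 2 = k := rfl
@[simp] theorem ix_3 (i j k m l : ℕ) : ix i j k m l 3 = m := rfl
@[simp] theorem ix_4 (i j k m l : ℕ) : ix i j k m l 4 = l := rfl

theorem eq_ix (s : Fin 5 →₀ ℕ) : s = ix (s 0) (s 1) (s 2) (s 3) (s 4) := by
  ext i
  fin_cases i <;> rfl

theorem ext5 {s s' : Fin 5 →₀ ℕ} (h0 : s 0 = s' 0) (h1 : s 1 = s' 1) (h2 : s 2 = s' 2)
    (h3 : s 3 = s' 3) (h4 : s 4 = s' 4) : s = s' := by
  rw [eq_ix s, eq_ix s', h0, h1, h2, h3, h4]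

theorem homog_sum {F : MvPolynomial (Fin 5) K} {D : ℕ} (hF : F.IsHomogeneous D)
    {s : Fin 5 →₀ ℕ} (hs : coeff s F ≠ 0) : s 0 + s 1 + s 2 + s 3 + s 4 = D := by
  have h := hF hs
  rw [Finsupp.weight_apply, Finsupp.sum_fintype _ _ (by simp)] at h
  simp only [Pi.one_apply, smul_eq_mul, mul_one] at h
  rw [Fin.sum_univ_five] at h
  exact h

/-- the local coefficient array -/
noncomputable def arr (F : MvPolynomial (Fin 5) K) (D : ℕ) (i j l : ℕ) : K :=
  if i + j + l ≤ D then coeff (ix i j (D - i - j - l) 0 l) F else 0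

theorem monomial_five (s : Fin 5 →₀ ℕ) (c : K) : (monomial s c : MvPolynomial (Fin 5) K) =
    C c * (X 0 ^ s 0 * X 1 ^ s 1 * X 2 ^ s 2 * X 3 ^ s 3 * X 4 ^ s 4) := by
  rw [monomial_eq, Finsupp.prod_fintype _ _ (by simp), Fin.prod_univ_five]

theorem eval_five (F : MvPolynomial (Fin 5) K) (v : Fin 5 → K) :
    eval v F = ∑ s ∈ F.support, coeff s F *
      (v 0 ^ s 0 * v 1 ^ s 1 * v 2 ^ s 2 * v 3 ^ s 3 * v 4 ^ s 4) := by
  rw [eval_eq']
  refine sum_congr rfl fun s _ => ?_
  rw [Fin.prod_univ_five]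

theorem eval_arr {F : MvPolynomial (Fin 5) K} {D N : ℕ} (hF : F.IsHomogeneous D) (hN : D < N)
    (τ lam w : K) : eval ![τ, lam, 1, 0, w] F = fv N (arr F D) τ lam w := by
  have h1 : fv N (arr F D) τ lam w = ∑ p ∈ range N ×ˢ (range N ×ˢ range N),
      arr F D p.2.1 p.1 p.2.2 * w ^ p.2.2 * τ ^ p.2.1 * lam ^ p.1 := by
    rw [sum_product]
    simp only [fv, fw, pv]
    refine sum_congr rfl fun j _ => ?_
    rw [sum_product, sum_mul]
    refine sum_congr rfl fun i _ => ?_
    rw [sum_mul, sum_mul]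
  rw [h1, eval_five]
  refine sum_bij_ne_zero (fun s _ _ => (s 1, s 0, s 4)) ?_ ?_ ?_ ?_
  · intro s hs _
    have := homog_sum hF (mem_support_iff.1 hs)
    simp only [mem_product, mem_range]
    omega
  · intro s hs hs' t ht ht' h
    have e1 := homog_sum hF (mem_support_iff.1 hs)
    have e2 := homog_sum hF (mem_support_iff.1 ht)
    have z1 : s 3 = 0 := by
      by_contra hcon
      apply hs'
      have : (![τ, lam, 1, 0, w] : Fin 5 → K) 3 = 0 := rfl
      rw [this, zero_pow hcon]; ring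
    have z2 : t 3 = 0 := by
      by_contra hcon
      apply ht'
      have : (![τ, lam, 1, 0, w] : Fin 5 → K) 3 = 0 := rfl
      rw [this, zero_pow hcon]; ring
    simp only [Prod.mk.injEq] at h
    exact ext5 h.2.1 h.1 (by omega) (by omega) h.2.2
  · rintro ⟨j, i, l⟩ hp hne
    simp only at hne
    have h2 : arr F D i j l ≠ 0 := by
      intro h; apply hne; rw [h]; ring
    have h3 : i + j + l ≤ D := by
      by_contra hcon
      exact h2 (by rw [arr, if_neg hcon])
    have h4 : coeff (ix i j (D - i - j - l) 0 l) F ≠ 0 := by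
      rw [arr, if_pos h3] at h2; exact h2
    refine ⟨ix i j (D - i - j - l) 0 l, mem_support_iff.2 h4, ?_, rfl⟩
    intro h
    apply hne
    rw [arr, if_pos h3]
    simp only [ix_0, ix_1, ix_2, ix_3, ix_4, pow_zero, mul_one] at h
    have e1 : (![τ, lam, 1, 0, w] : Fin 5 → K) 2 = 1 := rfl
    have e2 : (![τ, lam, 1, 0, w] : Fin 5 → K) 0 = τ := rfl
    have e3 : (![τ, lam, 1, 0, w] : Fin 5 → K) 1 = lam := rfl
    have e4 : (![τ, lam, 1, 0, w] : Fin 5 → K) 4 = w := rfl
    rw [e1, e2, e3, e4, one_pow, mul_one] at h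
    rw [← h]; ring
  · intro s hs hs'
    have e1 := homog_sum hF (mem_support_iff.1 hs)
    have z1 : s 3 = 0 := by
      by_contra hcon
      apply hs'
      have : (![τ, lam, 1, 0, w] : Fin 5 → K) 3 = 0 := rfl
      rw [this, zero_pow hcon]; ring
    have h3 : s 0 + s 1 + s 4 ≤ D := by omega
    have h4 : ix (s 0) (s 1) (D - s 0 - s 1 - s 4) 0 (s 4) = s :=
      ext5 rfl rfl (by simp; omega) (by simp [z1]) rfl
    simp only
    rw [arr, if_pos h3, h4, z1]
    have e1 : (![τ, lam, 1, 0, w] : Fin 5 → K) 2 = 1 := rfl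
    have e2 : (![τ, lam, 1, 0, w] : Fin 5 → K) 0 = τ := rfl
    have e3 : (![τ, lam, 1, 0, w] : Fin 5 → K) 1 = lam := rfl
    have e4 : (![τ, lam, 1, 0, w] : Fin 5 → K) 4 = w := rfl
    rw [e1, e2, e3, e4, one_pow, pow_zero]
    ring

/-- all monomials have degree at most `e` in the first two variables -/
def Deg01 (F : MvPolynomial (Fin 5) K) (e : ℕ) : Prop := ∀ s, coeff s F ≠ 0 → s 0 + s 1 ≤ e

theorem arr_supp {F : MvPolynomial (Fin 5) K} {D e : ℕ} (h : Deg01 F e) (i j l : ℕ)
    (ha : arr F D i j l ≠ 0) : i + j ≤ e ∧ i + j + l ≤ D := by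
  have h3 : i + j + l ≤ D := by
    by_contra hcon
    exact ha (by rw [arr, if_neg hcon])
  rw [arr, if_pos h3] at ha
  have := h _ ha
  simp only [ix_0, ix_1] at this
  exact ⟨this, h3⟩

theorem arr_of_coeff {F : MvPolynomial (Fin 5) K} {D : ℕ} (hF : F.IsHomogeneous D)
    {s : Fin 5 →₀ ℕ} (hs : coeff s F ≠ 0) (h3 : s 3 = 0) :
    arr F D (s 0) (s 1) (s 4) = coeff s F := by
  have e1 := homog_sum hF hs
  have h4 : ix (s 0) (s 1) (D - s 0 - s 1 - s 4) 0 (s 4) = s :=
    ext5 rfl rfl (by simp; omega) (by simp [h3]) rfl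
  rw [arr, if_pos (by omega), h4]

/-- grading with respect to the first two variables -/
noncomputable def rho : MvPolynomial (Fin 5) K →ₐ[K] Polynomial (MvPolynomial (Fin 5) K) :=
  aeval ![Polynomial.X * Polynomial.C (X 0), Polynomial.X * Polynomial.C (X 1),
    Polynomial.C (X 2), Polynomial.C (X 3), Polynomial.C (X 4)]

theorem rho_monomial (s : Fin 5 →₀ ℕ) (c : K) : rho (monomial s c : MvPolynomial (Fin 5) K) =
    Polynomial.monomial (s 0 + s 1) (monomial s c) := by
  rw [monomial_five, map_mul, map_mul, map_mul, map_mul, map_mul, map_pow, map_pow, map_pow,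
    map_pow, map_pow]
  have hC : rho (C c : MvPolynomial (Fin 5) K) = Polynomial.C (C c) := by
    rw [← MvPolynomial.algebraMap_eq, AlgHom.commutes]
    rfl
  have h0 : rho (X 0 : MvPolynomial (Fin 5) K) = Polynomial.X * Polynomial.C (X 0) := by
    simp [rho]
  have h1 : rho (X 1 : MvPolynomial (Fin 5) K) = Polynomial.X * Polynomial.C (X 1) := by
    simp [rho]
  have h2 : rho (X 2 : MvPolynomial (Fin 5) K) = Polynomial.C (X 2) := by
    simp [rho]
  have h3 : rho (X 3 : MvPolynomial (Fin 5) K) = Polynomial.C (X 3) := by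
    simp [rho]
  have h4 : rho (X 4 : MvPolynomial (Fin 5) K) = Polynomial.C (X 4) := by
    simp [rho]
  rw [hC, h0, h1, h2, h3, h4, ← Polynomial.C_mul_X_pow_eq_monomial]
  simp only [map_mul, map_pow]
  ring

theorem coeff_rho (F : MvPolynomial (Fin 5) K) (n : ℕ) (s : Fin 5 →₀ ℕ) :
    coeff s ((rho F).coeff n) = if s 0 + s 1 = n then coeff s F else 0 := by
  induction F using MvPolynomial.induction_on' with
  | monomial u c =>
    rw [rho_monomial, Polynomial.coeff_monomial]
    by_cases h : u = s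
    · subst h
      by_cases h' : u 0 + u 1 = n <;> simp [h']
    · by_cases h' : u 0 + u 1 = n
      · rw [if_pos h', coeff_monomial, if_neg h]; simp
      · rw [if_neg h', coeff_zero, coeff_monomial, if_neg h]; simp
  | add p r hp hr =>
    rw [map_add, Polynomial.coeff_add, coeff_add, hp, hr, coeff_add]
    split_ifs <;> simp

theorem deg01_iff (F : MvPolynomial (Fin 5) K) (e : ℕ) : Deg01 F e ↔ (rho F).natDegree ≤ e := by
  constructor
  · intro h
    rw [Polynomial.natDegree_le_iff_coeff_eq_zero]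
    intro n hn
    ext s
    rw [coeff_rho, coeff_zero]
    split_ifs with h1
    · by_contra hcon
      have := h s hcon
      omega
    · rfl
  · intro h s hs
    by_contra hcon
    have h1 := (Polynomial.natDegree_le_iff_coeff_eq_zero.1 h) (s 0 + s 1) (by omega)
    have h2 := coeff_rho F (s 0 + s 1) s
    rw [h1, coeff_zero, if_pos rfl] at h2
    exact hs h2.symm

/-- the elementary unitary transformation -/
noncomputable def Ut (q : ℕ) (t : K) : MvPolynomial (Fin 5) K →ₐ[K] MvPolynomial (Fin 5) K :=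
  aeval ![X 0 + C t * X 1, X 1, X 2, X 3 - C (t ^ q) * X 2, X 4]

/-- the swap -/
noncomputable def Wt : MvPolynomial (Fin 5) K →ₐ[K] MvPolynomial (Fin 5) K :=
  aeval ![X 1, X 0, X 3, X 2, X 4]

theorem rho_Ut (q : ℕ) (t : K) (F : MvPolynomial (Fin 5) K) :
    rho (Ut q t F) = Polynomial.mapAlgHom (Ut q t) (rho F) := by
  have h : (rho.comp (Ut q t) : MvPolynomial (Fin 5) K →ₐ[K] _) =
      (Polynomial.mapAlgHom (Ut q t)).comp rho := by
    apply MvPolynomial.algHom_ext
    intro i
    fin_cases i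
    · simp [rho, Ut]
      ring
    · simp [rho, Ut]
    · simp [rho, Ut]
    · simp [rho, Ut]
    · simp [rho, Ut]
  exact congrArg (fun f => f F) h

theorem rho_Wt (F : MvPolynomial (Fin 5) K) :
    rho (Wt F) = Polynomial.mapAlgHom Wt (rho F) := by
  have h : (rho.comp Wt : MvPolynomial (Fin 5) K →ₐ[K] _) =
      (Polynomial.mapAlgHom Wt).comp rho := by
    apply MvPolynomial.algHom_ext
    intro i
    fin_cases i <;> simp [rho, Wt]
  exact congrArg (fun f => f F) h

end Pool.Agent.H566R3
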