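import Mathlib
import Pool.Agent.H566R3.Top

set_option autoImplicit false
set_option maxHeartbeats 400000

/-! # Orders of vanishing -/

namespace Pool.Agent.H566R3

open Finset MvPolynomial

variable {K : Type} [Field K]

theorem Deg01.ut {F : MvPolynomial (Fin 5) K} {e : ℕ} (h : Deg01 F e) (q : ℕ) (t : K) :
    Deg01 (Ut q t F) e := by
  rw [deg01_iff] at h ⊢
  rw [rho_Ut]
  exact (Polynomial.natDegree_map_le).trans h

theorem Deg01.wt {F : MvPolynomial (Fin 5) K} {e : ℕ} (h : Deg01 F e) : Deg01 (Wt F) e := by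
  rw [deg01_iff] at h ⊢
  rw [rho_Wt]
  exact (Polynomial.natDegree_map_le).trans h

theorem homog_ut {F : MvPolynomial (Fin 5) K} {D : ℕ} (h : F.IsHomogeneous D) (q : ℕ) (t : K) :
    (Ut q t F).IsHomogeneous D := by
  have hg : ∀ i : Fin 5, ((![X 0 + C t * X 1, X 1, X 2, X 3 - C (t ^ q) * X 2, X 4] :
      Fin 5 → MvPolynomial (Fin 5) K) i).IsHomogeneous 1 := by
    have e0 : (X 0 + C t * X 1 : MvPolynomial (Fin 5) K).IsHomogeneous 1 :=
      (isHomogeneous_X K (0 : Fin 5)).add ((isHomogeneous_X K (1 : Fin 5)).C_mul t)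
    have e1 : (X 3 - C (t ^ q) * X 2 : MvPolynomial (Fin 5) K).IsHomogeneous 1 :=
      (isHomogeneous_X K (3 : Fin 5)).sub ((isHomogeneous_X K (2 : Fin 5)).C_mul (t ^ q))
    rw [Fin.forall_fin_succ, Fin.forall_fin_succ, Fin.forall_fin_succ, Fin.forall_fin_succ,
      Fin.forall_fin_one]
    exact ⟨e0, isHomogeneous_X K (1 : Fin 5), isHomogeneous_X K (2 : Fin 5), e1,
      isHomogeneous_X K (4 : Fin 5)⟩
  have := h.aeval (n := 1) _ hg
  rwa [one_mul] at this

theorem homog_wt {F : MvPolynomial (Fin 5) K} {D : ℕ} (h : F.IsHomogeneous D) :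
    (Wt F).IsHomogeneous D := by
  have hg : ∀ i : Fin 5, ((![X 1, X 0, X 3, X 2, X 4] :
      Fin 5 → MvPolynomial (Fin 5) K) i).IsHomogeneous 1 := by
    rw [Fin.forall_fin_succ, Fin.forall_fin_succ, Fin.forall_fin_succ, Fin.forall_fin_succ,
      Fin.forall_fin_one]
    exact ⟨isHomogeneous_X K (1 : Fin 5), isHomogeneous_X K (0 : Fin 5),
      isHomogeneous_X K (3 : Fin 5), isHomogeneous_X K (2 : Fin 5), isHomogeneous_X K (4 : Fin 5)⟩
  have := h.aeval (n := 1) _ hg
  rwa [one_mul] at this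

theorem eval_ut (q : ℕ) (t : K) (F : MvPolynomial (Fin 5) K) (v : Fin 5 → K) :
    eval v (Ut q t F) = eval ![v 0 + t * v 1, v 1, v 2, v 3 - t ^ q * v 2, v 4] F := by
  have h : ((aeval v : MvPolynomial (Fin 5) K →ₐ[K] K).comp (Ut q t)) =
      aeval ![v 0 + t * v 1, v 1, v 2, v 3 - t ^ q * v 2, v 4] := by
    apply MvPolynomial.algHom_ext
    intro i
    fin_cases i <;> simp [Ut]
  exact congrArg (fun f => f F) h

theorem eval_wt (F : MvPolynomial (Fin 5) K) (v : Fin 5 → K) :
    eval v (Wt F) = eval ![v 1, v 0, v 3, v 2, v 4] F := by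
  have h : ((aeval v : MvPolynomial (Fin 5) K →ₐ[K] K).comp Wt) =
      aeval ![v 1, v 0, v 3, v 2, v 4] := by
    apply MvPolynomial.algHom_ext
    intro i
    fin_cases i <;> simp [Wt]
  exact congrArg (fun f => f F) h

/-- the top part -/
noncomputable def top (F : MvPolynomial (Fin 5) K) (e : ℕ) : MvPolynomial (Fin 5) K :=
  (rho F).coeff e

theorem coeff_top (F : MvPolynomial (Fin 5) K) (e : ℕ) (s : Fin 5 →₀ ℕ) :
    coeff s (top F e) = if s 0 + s 1 = e then coeff s F else 0 := coeff_rho F e s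

theorem top_ut (q : ℕ) (t : K) (F : MvPolynomial (Fin 5) K) (e : ℕ) :
    top (Ut q t F) e = Ut q t (top F e) := by
  rw [top, rho_Ut, Polynomial.coe_mapAlgHom, Polynomial.coeff_map]
  rfl

/-- the polynomial in `t` and `w` -/
noncomputable def Th (q : ℕ) : MvPolynomial (Fin 5) K →ₐ[K] Polynomial (Polynomial K) :=
  aeval (![Polynomial.C Polynomial.X, 1, 1, -(Polynomial.C ((Polynomial.X : Polynomial K) ^ q)),
    Polynomial.X] : Fin 5 → Polynomial (Polynomial K))

theorem Th_monomial (q : ℕ) (s : Fin 5 →₀ ℕ) (c : K) :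
    Th q (monomial s c : MvPolynomial (Fin 5) K) =
    Polynomial.monomial (s 4) (Polynomial.monomial (s 0 + q * s 3) ((-1) ^ s 3 * c)) := by
  rw [monomial_five, map_mul, map_mul, map_mul, map_mul, map_mul, map_pow, map_pow, map_pow,
    map_pow, map_pow]
  have hC : Th q (C c : MvPolynomial (Fin 5) K) = Polynomial.C (Polynomial.C c) := by
    rw [← MvPolynomial.algebraMap_eq, AlgHom.commutes]
    rfl
  have h0 : Th q (X 0 : MvPolynomial (Fin 5) K) = Polynomial.C Polynomial.X := by
    simp [Th]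
  have h1 : Th q (X 1 : MvPolynomial (Fin 5) K) = 1 := by
    simp [Th]
  have h2 : Th q (X 2 : MvPolynomial (Fin 5) K) = 1 := by
    simp [Th]
  have h3 : Th q (X 3 : MvPolynomial (Fin 5) K) =
      -(Polynomial.C ((Polynomial.X : Polynomial K) ^ q)) := by
    simp [Th]
  have h4 : Th q (X 4 : MvPolynomial (Fin 5) K) = Polynomial.X := by
    simp [Th]
  rw [hC, h0, h1, h2, h3, h4, ← Polynomial.C_mul_X_pow_eq_monomial,
    ← Polynomial.C_mul_X_pow_eq_monomial, neg_pow]
  simp only [map_mul, map_pow, one_pow, mul_one, map_neg, map_one]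
  rw [pow_add, pow_mul]
  ring

/-- the coefficient of `w ^ l` -/
noncomputable def Ph (q : ℕ) (F : MvPolynomial (Fin 5) K) (e l : ℕ) : Polynomial K :=
  (Th q (top F e)).coeff l

theorem coeff_Th (q : ℕ) (G : MvPolynomial (Fin 5) K) (l n : ℕ) :
    ((Th q G).coeff l).coeff n =
      ∑ s ∈ G.support, if s 4 = l ∧ s 0 + q * s 3 = n then (-1) ^ s 3 * coeff s G else 0 := by
  conv_lhs => rw [G.as_sum]
  rw [map_sum, Polynomial.finsetSum_coeff, Polynomial.finsetSum_coeff]
  refine sum_congr rfl fun s _ => ?_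
  rw [Th_monomial, Polynomial.coeff_monomial]
  by_cases h : s 4 = l
  · rw [if_pos h, Polynomial.coeff_monomial]
    by_cases h' : s 0 + q * s 3 = n
    · rw [if_pos h', if_pos ⟨h, h'⟩]
    · rw [if_neg h', if_neg fun h'' => h' h''.2]
  · rw [if_neg h, Polynomial.coeff_zero, if_neg fun h'' => h h''.1]

theorem exists_of_coeff_Ph {q : ℕ} {F : MvPolynomial (Fin 5) K} {e l n : ℕ}
    (h : (Ph q F e l).coeff n ≠ 0) :
    ∃ s, coeff s F ≠ 0 ∧ s 0 + s 1 = e ∧ s 4 = l ∧ s 0 + q * s 3 = n := by
  rw [Ph, coeff_Th] at h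
  obtain ⟨s, hs, hne⟩ := exists_ne_zero_of_sum_ne_zero h
  have hs' := mem_support_iff.1 hs
  rw [coeff_top] at hs'
  by_cases h1 : s 0 + s 1 = e
  · rw [if_pos h1] at hs'
    by_cases h2 : s 4 = l ∧ s 0 + q * s 3 = n
    · exact ⟨s, hs', h1, h2.1, h2.2⟩
    · rw [if_neg h2] at hne; exact absurd rfl hne
  · rw [if_neg h1] at hs'; exact absurd rfl hs'

theorem coeff_Ph {q : ℕ} {F : MvPolynomial (Fin 5) K} {e D : ℕ} (hF : F.IsHomogeneous D)
    (heq : e < q) {s : Fin 5 →₀ ℕ} (h01 : s 0 + s 1 = e) (hs : s 0 + s 1 + s 2 + s 3 + s 4 = D) :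
    (Ph q F e (s 4)).coeff (s 0 + q * s 3) = (-1) ^ s 3 * coeff s F := by
  rw [Ph, coeff_Th]
  by_cases h0 : coeff s F = 0
  · rw [h0, mul_zero]
    refine sum_eq_zero fun s' hs' => ?_
    split_ifs with h
    · have hs'' := mem_support_iff.1 hs'
      rw [coeff_top] at hs''
      by_cases h1 : s' 0 + s' 1 = e
      · rw [if_pos h1] at hs''
        have h2 := homog_sum hF hs''
        have h3 : s' 0 = s 0 := by
          have := congrArg (· % q) h.2
          simpa [Nat.add_mul_mod_self_left, Nat.mod_eq_of_lt (show s' 0 < q by omega),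
            Nat.mod_eq_of_lt (show s 0 < q by omega)] using this
        have h4 : s' 3 = s 3 := by
          have : q * s' 3 = q * s 3 := by omega
          exact Nat.eq_of_mul_eq_mul_left (by omega) this
        have h5 : s' = s := ext5 h3 (by omega) (by omega) h4 h.1
        rw [h5] at hs''
        exact absurd h0 hs''
      · rw [if_neg h1] at hs''; exact absurd rfl hs''
    · rfl
  · rw [sum_eq_single s]
    · rw [if_pos ⟨rfl, rfl⟩, coeff_top, if_pos h01]
    · intro s' hs' hne
      split_ifs with h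
      · exfalso
        have hs'' := mem_support_iff.1 hs'
        rw [coeff_top] at hs''
        by_cases h1 : s' 0 + s' 1 = e
        · rw [if_pos h1] at hs''
          have h2 := homog_sum hF hs''
          have h3 : s' 0 = s 0 := by
            have := congrArg (· % q) h.2
            simpa [Nat.add_mul_mod_self_left, Nat.mod_eq_of_lt (show s' 0 < q by omega),
              Nat.mod_eq_of_lt (show s 0 < q by omega)] using this
          have h4 : s' 3 = s 3 := by
            have : q * s' 3 = q * s 3 := by omega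
            exact Nat.eq_of_mul_eq_mul_left (by omega) this
          exact hne (ext5 h3 (by omega) (by omega) h4 h.1)
        · rw [if_neg h1] at hs''; exact absurd rfl hs''
      · rfl
    · intro h
      exfalso
      rw [notMem_support_iff, coeff_top, if_pos h01] at h
      exact h0 h

end Pool.Agent.H566R3
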