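import Mathlib
import Pool.Agent.H566R3.Top2

set_option autoImplicit false
set_option maxHeartbeats 400000

/-! # Orders of vanishing, continued -/

namespace Pool.Agent.H566R3

open Finset MvPolynomial

variable {K : Type} [Field K]

theorem Th_ut [Fintype K] {q : ℕ} (hq : Fintype.card K = q ^ 2) (t : K)
    (G : MvPolynomial (Fin 5) K) :
    Th q (Ut q t G) =
      (Th q G).map (Polynomial.compRingHom (Polynomial.X + Polynomial.C t)) := by
  obtain ⟨p, k, hp, hc, hqp⟩ := exists_char hq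
  have hfact := Fact.mk hp
  have hch : CharP (Polynomial K) p := inferInstance
  have hadd : ((Polynomial.X : Polynomial K) + Polynomial.C t) ^ q =
      Polynomial.X ^ q + Polynomial.C t ^ q := by
    rw [hqp]
    exact add_pow_char_pow _ _ p k
  have h : ((Th q).comp (Ut q t) : MvPolynomial (Fin 5) K →ₐ[K] _).toRingHom =
      (Polynomial.mapRingHom (Polynomial.compRingHom (Polynomial.X + Polynomial.C t))).comp
        (Th q : MvPolynomial (Fin 5) K →ₐ[K] _).toRingHom := by
    apply MvPolynomial.ringHom_ext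
    · intro c
      simp [Th, Ut, Polynomial.algebraMap_apply]
    · intro i
      fin_cases i
      · simp [Th, Ut, Polynomial.algebraMap_apply]
      · simp [Th, Ut]
      · simp [Th, Ut]
      · simp [Th, Ut, Polynomial.algebraMap_apply]
        rw [← Polynomial.C_pow, ← Polynomial.C_pow, ← Polynomial.C_add]
        simp only [← Polynomial.C_pow, ← Polynomial.C_neg, ← Polynomial.C_sub]
        rw [hadd]
        simp only [← Polynomial.C_pow, ← Polynomial.C_neg, ← Polynomial.C_sub]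
        congr 1
        rw [Polynomial.C_pow]
        ring
      · simp [Th, Ut]
  exact congrArg (fun f => f G) h

theorem Ph_ut [Fintype K] {q : ℕ} (hq : Fintype.card K = q ^ 2) (t : K)
    (F : MvPolynomial (Fin 5) K) (e l : ℕ) :
    Ph q (Ut q t F) e l = (Ph q F e l).comp (Polynomial.X + Polynomial.C t) := by
  rw [Ph, top_ut, Th_ut hq, Polynomial.coeff_map]
  rfl

theorem dvd_Ph_zero {q : ℕ} {F : MvPolynomial (Fin 5) K} {e x : ℕ}
    (heq : e < q) (hx : x ≤ e) (h : ∀ s, coeff s F ≠ 0 → s 3 = 0 → s 1 + x ≤ e) (l : ℕ) :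
    Polynomial.X ^ x ∣ Ph q F e l := by
  rw [Polynomial.X_pow_dvd_iff]
  intro d hd
  by_contra hcon
  obtain ⟨s, hs, h1, _, h3⟩ := exists_of_coeff_Ph hcon
  rcases Nat.eq_zero_or_pos (s 3) with h0 | h0
  · have := h s hs h0
    rw [h0, mul_zero, add_zero] at h3
    omega
  · have : q ≤ q * s 3 := Nat.le_mul_of_pos_right q h0
    omega

theorem dvd_Ph [Fintype K] {q : ℕ} (hq : Fintype.card K = q ^ 2) {F : MvPolynomial (Fin 5) K}
    {e x : ℕ} (t : K) (heq : e < q) (hx : x ≤ e)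
    (h : ∀ s, coeff s (Ut q t F) ≠ 0 → s 3 = 0 → s 1 + x ≤ e) (l : ℕ) :
    (Polynomial.X - Polynomial.C t) ^ x ∣ Ph q F e l := by
  have h1 := dvd_Ph_zero heq hx h l
  rw [Ph_ut hq] at h1
  obtain ⟨r, hr⟩ := h1
  refine ⟨r.comp (Polynomial.X - Polynomial.C t), ?_⟩
  have h2 := congrArg (fun P => Polynomial.comp P (Polynomial.X - Polynomial.C t)) hr
  simp only [Polynomial.comp_assoc, Polynomial.add_comp, Polynomial.X_comp, Polynomial.C_comp,
    sub_add_cancel, Polynomial.comp_X, Polynomial.mul_comp, Polynomial.pow_comp] at h2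
  exact h2

theorem natDegree_Ph_le {q : ℕ} {F : MvPolynomial (Fin 5) K} {D κ e x : ℕ}
    (hF : F.IsHomogeneous D) (hD : D = κ + e) (heq : e < q) (hx : x ≤ e)
    (h : ∀ s, coeff s F ≠ 0 → s 2 = 0 → s 0 + x ≤ e) (l : ℕ) (hl : l ≤ κ) :
    (Ph q F e l).natDegree ≤ e + q * (κ - l) - x := by
  rw [Polynomial.natDegree_le_iff_coeff_eq_zero]
  intro n hn
  by_contra hcon
  obtain ⟨s, hs, h1, h2, h3⟩ := exists_of_coeff_Ph hcon
  have h4 := homog_sum hF hs
  rcases Nat.eq_zero_or_pos (s 2) with h0 | h0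
  · have h5 := h s hs h0
    have h6 : s 3 = κ - l := by omega
    rw [h6] at h3
    omega
  · obtain ⟨r, hr⟩ : ∃ r, κ - l = s 3 + 1 + r := ⟨κ - l - s 3 - 1, by omega⟩
    rw [hr] at hn
    have h6 : q * (s 3 + 1 + r) = q * s 3 + q + q * r := by ring
    rw [h6] at hn
    have : 0 ≤ q * r := Nat.zero_le _
    omega

theorem Ph_ne_zero {q : ℕ} {F : MvPolynomial (Fin 5) K} {D e : ℕ}
    (hF : F.IsHomogeneous D) (heq : e < q) {s : Fin 5 →₀ ℕ} (hs : coeff s F ≠ 0)
    (h01 : s 0 + s 1 = e) : Ph q F e (s 4) ≠ 0 := by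
  intro h
  have h1 := coeff_Ph hF heq h01 (homog_sum hF hs)
  rw [h, Polynomial.coeff_zero] at h1
  have h2 : ((-1 : K)) ^ s 3 ≠ 0 := pow_ne_zero _ (neg_ne_zero.2 one_ne_zero)
  exact mul_ne_zero h2 hs h1.symm

theorem Ph_eval_zero {q : ℕ} {F : MvPolynomial (Fin 5) K} {D e : ℕ}
    (hF : F.IsHomogeneous D) (heq : e < q) (l : ℕ) :
    (Ph q F e l).eval 0 = arr F D 0 e l := by
  rw [← Polynomial.coeff_zero_eq_eval_zero]
  by_cases h : 0 + e + l ≤ D
  · have h1 := coeff_Ph (s := ix 0 e (D - 0 - e - l) 0 l) hF heq (by simp) (by simp; omega)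
    simp only [ix_0, ix_3, ix_4, mul_zero, add_zero, pow_zero, one_mul] at h1
    rw [h1, arr, if_pos h]
  · rw [arr, if_neg h]
    by_contra hcon
    obtain ⟨s, hs, h1, h2, _⟩ := exists_of_coeff_Ph hcon
    have := homog_sum hF hs
    omega

theorem Ph_eval [Fintype K] {q : ℕ} (hq : Fintype.card K = q ^ 2) {F : MvPolynomial (Fin 5) K}
    {D e : ℕ} (hF : F.IsHomogeneous D) (heq : e < q) (l : ℕ) (t : K) :
    (Ph q F e l).eval t = arr (Ut q t F) D 0 e l := by
  rw [← Ph_eval_zero (homog_ut hF q t) heq, Ph_ut hq, Polynomial.eval_comp]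
  simp

theorem sum_orders [Fintype K] (x : K → ℕ) (P : Polynomial K) (hP : P ≠ 0)
    (h : ∀ t, (Polynomial.X - Polynomial.C t) ^ x t ∣ P) : ∑ t, x t ≤ P.natDegree := by
  classical
  have h1 : ∀ t, x t ≤ P.roots.count t := by
    intro t
    rw [Polynomial.count_roots]
    exact (Polynomial.le_rootMultiplicity_iff hP).2 (h t)
  refine (sum_le_sum fun t _ => h1 t).trans ?_
  rw [Multiset.sum_count_eq_card (fun a _ => mem_univ a)]
  exact Polynomial.card_roots' P

theorem Wt_monomial (s : Fin 5 →₀ ℕ) (c : K) : Wt (monomial s c : MvPolynomial (Fin 5) K) =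
    monomial (ix (s 1) (s 0) (s 3) (s 2) (s 4)) c := by
  rw [monomial_five, map_mul, map_mul, map_mul, map_mul, map_mul, map_pow, map_pow, map_pow,
    map_pow, map_pow, monomial_five]
  have hC : Wt (C c : MvPolynomial (Fin 5) K) = C c := by
    rw [← MvPolynomial.algebraMap_eq, AlgHom.commutes]
  have h0 : Wt (X 0 : MvPolynomial (Fin 5) K) = X 1 := by simp [Wt]
  have h1 : Wt (X 1 : MvPolynomial (Fin 5) K) = X 0 := by simp [Wt]
  have h2 : Wt (X 2 : MvPolynomial (Fin 5) K) = X 3 := by simp [Wt]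
  have h3 : Wt (X 3 : MvPolynomial (Fin 5) K) = X 2 := by simp [Wt]
  have h4 : Wt (X 4 : MvPolynomial (Fin 5) K) = X 4 := by simp [Wt]
  rw [hC, h0, h1, h2, h3, h4]
  simp only [ix_0, ix_1, ix_2, ix_3, ix_4]
  ring

theorem coeff_Wt (F : MvPolynomial (Fin 5) K) (s : Fin 5 →₀ ℕ) :
    coeff s (Wt F) = coeff (ix (s 1) (s 0) (s 3) (s 2) (s 4)) F := by
  induction F using MvPolynomial.induction_on' with
  | monomial u c =>
    rw [Wt_monomial, coeff_monomial, coeff_monomial]
    have : (ix (u 1) (u 0) (u 3) (u 2) (u 4) = s) ↔ (u = ix (s 1) (s 0) (s 3) (s 2) (s 4)) := by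
      constructor
      · intro h
        rw [← h]
        exact ext5 rfl rfl rfl rfl rfl
      · intro h
        rw [h]
        exact ext5 rfl rfl rfl rfl rfl
    by_cases h : u = ix (s 1) (s 0) (s 3) (s 2) (s 4)
    · rw [if_pos h, if_pos (this.2 h)]
    · rw [if_neg h, if_neg fun h' => h (this.1 h')]
  | add p r hp hr => rw [map_add, coeff_add, coeff_add, hp, hr]

end Pool.Agent.H566R3
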