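import Mathlib
import Pool.Agent.H566R3.Lines
import Pool.Agent.H566R3.Top3

set_option autoImplicit false
set_option maxHeartbeats 400000

/-! # The number of planes through a generator contained in the hypersurface -/

namespace Pool.Agent.H566R3

open Finset MvPolynomial

variable {K : Type} [Field K]

/-- no hyperplane is contained in the zero set of `F` -/
def NL (F : MvPolynomial (Fin 5) K) : Prop :=
  ∀ a : Fin 5 → K, a ≠ 0 → ∃ v : Fin 5 → K, ∑ i, a i * v i = 0 ∧ eval v F ≠ 0

/-- the plane spanned by the generator and `y` is contained in the zero set -/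
def Cont (F : MvPolynomial (Fin 5) K) (y : Fin 3 → K) : Prop :=
  ∀ a b, eval ![a, b, y 0, y 1, y 2] F = 0

theorem eval_rho (F : MvPolynomial (Fin 5) K) (u : Fin 5 → K) (x : K) :
    ((rho F).map (eval u)).eval x = eval ![x * u 0, x * u 1, u 2, u 3, u 4] F := by
  have h : ((Polynomial.evalRingHom x).comp ((Polynomial.mapRingHom (eval u)).comp
      (rho : MvPolynomial (Fin 5) K →ₐ[K] _).toRingHom)) =
      eval ![x * u 0, x * u 1, u 2, u 3, u 4] := by
    apply MvPolynomial.ringHom_ext
    · intro c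
      simp [rho, Polynomial.algebraMap_apply]
    · intro i
      fin_cases i <;> simp [rho] <;> ring
  exact congrArg (fun f => f F) h

theorem top_homog {F : MvPolynomial (Fin 5) K} {D : ℕ} (hF : F.IsHomogeneous D) (e : ℕ) :
    (top F e).IsHomogeneous D := by
  intro s hs
  rw [coeff_top] at hs
  by_cases h : s 0 + s 1 = e
  · rw [if_pos h] at hs; exact hF hs
  · rw [if_neg h] at hs; exact absurd rfl hs

variable [Fintype K] [DecidableEq K]

omit [DecidableEq K] in
theorem exists_eval_ne {σ : Type} {F : MvPolynomial σ K} {D : ℕ}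
    (hF : F.IsHomogeneous D) (h0 : F ≠ 0) (hD : D ≤ Fintype.card K) : ∃ v, eval v F ≠ 0 := by
  by_contra hcon
  push Not at hcon
  exact h0 (hF.eq_zero_of_forall_eval_eq_zero_of_le_card hcon (by
    rw [Cardinal.mk_fintype]; exact_mod_cast hD))

theorem exists_B {F : MvPolynomial (Fin 5) K} {D κ e : ℕ} (hF : F.IsHomogeneous D)
    (hD : D = κ + e) (hDq : D < Fintype.card K) (h01 : Deg01 F e)
    (htop : ∃ s, coeff s F ≠ 0 ∧ s 0 + s 1 = e) :
    ∃ B : MvPolynomial (Fin 3) K, B.IsHomogeneous κ ∧ (∃ v, eval v B ≠ 0) ∧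
      ∀ y, Cont F y → eval y B = 0 := by
  have ht0 : top F e ≠ 0 := by
    obtain ⟨s, hs, hs'⟩ := htop
    intro h
    have := coeff_top F e s
    rw [h, coeff_zero, if_pos hs'] at this
    exact hs this.symm
  obtain ⟨v, hv⟩ := exists_eval_ne (top_homog hF e) ht0 hDq.le
  obtain ⟨ψ, hψ⟩ : ∃ ψ : MvPolynomial (Fin 5) K →ₐ[K] MvPolynomial (Fin 3) K,
    ψ = aeval ![C (v 0), C (v 1), X 0, X 1, X 2] := ⟨_, rfl⟩
  have hev : ∀ (G : MvPolynomial (Fin 5) K) (y : Fin 3 → K),
      eval y (ψ G) = eval ![v 0, v 1, y 0, y 1, y 2] G := by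
    intro G y
    have h : ((aeval y : MvPolynomial (Fin 3) K →ₐ[K] K).comp ψ) =
        aeval ![v 0, v 1, y 0, y 1, y 2] := by
      apply MvPolynomial.algHom_ext
      intro i
      rw [hψ]
      fin_cases i <;> simp
    exact congrArg (fun f => f G) h
  refine ⟨ψ (top F e), ?_, ⟨![v 2, v 3, v 4], ?_⟩, ?_⟩
  · rw [(top F e).as_sum, map_sum]
    refine IsHomogeneous.sum _ _ _ fun s hs => ?_
    have hs1 := mem_support_iff.1 hs
    rw [coeff_top] at hs1
    have h1 : s 0 + s 1 = e := by
      by_contra h; rw [if_neg h] at hs1; exact hs1 rfl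
    rw [if_pos h1] at hs1
    have h2 := homog_sum hF hs1
    have h3 : ψ (monomial s (coeff s (top F e))) =
        C (coeff s (top F e) * v 0 ^ s 0 * v 1 ^ s 1) * (X 0 ^ s 2 * X 1 ^ s 3 * X 2 ^ s 4) := by
      rw [monomial_five, hψ]
      simp
      ring
    rw [h3]
    have h4 : (X 0 ^ s 2 * X 1 ^ s 3 * X 2 ^ s 4 : MvPolynomial (Fin 3) K).IsHomogeneous
        (s 2 + s 3 + s 4) :=
      ((isHomogeneous_X_pow _ _).mul (isHomogeneous_X_pow _ _)).mul (isHomogeneous_X_pow _ _)
    have h5 : s 2 + s 3 + s 4 = κ := by omega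
    rw [← h5]
    exact h4.C_mul _
  · rw [hev]
    have : (![v 0, v 1, ![v 2, v 3, v 4] 0, ![v 2, v 3, v 4] 1, ![v 2, v 3, v 4] 2] :
        Fin 5 → K) = v := by
      funext i
      fin_cases i <;> rfl
    rw [this]; exact hv
  · intro y hy
    rw [hev]
    have hp : (rho F).map (eval ![v 0, v 1, y 0, y 1, y 2]) = 0 := by
      by_contra hp0
      have h1 := card_roots_aux _ hp0 (Finset.univ : Finset K) (by
        intro x _
        rw [eval_rho]
        exact hy _ _)
      have h2 : ((rho F).map (eval ![v 0, v 1, y 0, y 1, y 2])).natDegree ≤ e :=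
        Polynomial.natDegree_map_le.trans ((deg01_iff F e).1 h01)
      rw [card_univ] at h1
      omega
    have h2 := congrArg (fun P => Polynomial.coeff P e) hp
    simp only [Polynomial.coeff_map, Polynomial.coeff_zero] at h2
    exact h2

theorem exists_ne_of_top {σ : Type} [Fintype σ] (y d : σ → K)
    {G : MvPolynomial σ K} {n : ℕ}
    (hG : G.IsHomogeneous n) (hn : n < Fintype.card K) (hy : eval y G ≠ 0) :
    ∃ x, eval (fun i => y i * x + d i) G ≠ 0 := by
  by_contra hcon
  push Not at hcon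
  have h0 : lineP y d G ≠ 0 := by
    intro h
    have := (lineP_homog y d hG).2
    rw [h, Polynomial.coeff_zero] at this
    exact hy this.symm
  have h1 := card_roots_aux _ h0 (Finset.univ : Finset K)
    (fun x _ => by rw [eval_lineP]; exact hcon x)
  have h2 := (lineP_homog y d hG).1
  rw [card_univ] at h1
  omega

omit [Fintype K] [DecidableEq K] in
theorem homog_smul {σ : Type} {G : MvPolynomial σ K} {n : ℕ} (hG : G.IsHomogeneous n) (c : K)
    (v : σ → K) : eval (fun i => c * v i) G = c ^ n * eval v G := by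
  rw [eval_eq, eval_eq, mul_sum]
  refine sum_congr rfl fun s hs => ?_
  have h := hG (mem_support_iff.1 hs)
  rw [Finsupp.weight_apply, Finsupp.sum] at h
  simp only [Pi.one_apply, smul_eq_mul, mul_one] at h
  have h2 : ∏ i ∈ s.support, (c * v i) ^ s i = c ^ n * ∏ i ∈ s.support, v i ^ s i := by
    rw [← h, ← prod_pow_eq_pow_sum, ← prod_mul_distrib]
    refine prod_congr rfl fun i _ => ?_
    rw [mul_pow]
  rw [h2]; ring

end Pool.Agent.H566R3
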