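import Mathlib
import Pool.Agent.H566R3.Planes

set_option autoImplicit false
set_option maxHeartbeats 400000

/-! # The number of planes through a generator contained in the hypersurface -/

namespace Pool.Agent.H566R3

open Finset MvPolynomial

variable {K : Type} [Field K]

theorem exists_functional {y d : Fin 3 → K} (hli : LinearIndependent K ![y, d]) :
    ∃ n : Fin 3 → K, n ≠ 0 ∧ ∀ z : Fin 3 → K, ∑ i, n i * z i = 0 → ∃ α δ : K, z = α • y + δ • d := by
  obtain ⟨W, hW⟩ : ∃ W : Submodule K (Fin 3 → K), W = Submodule.span K (Set.range ![y, d]) :=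
    ⟨_, rfl⟩
  have hfW : Module.finrank K W = 2 := by
    rw [hW, finrank_span_eq_card hli, Fintype.card_fin]
  have hf3 : Module.finrank K (Fin 3 → K) = 3 := by
    rw [Module.finrank_fintype_fun_eq_card, Fintype.card_fin]
  have hWt : W < ⊤ := by
    rw [lt_top_iff_ne_top]
    intro h
    rw [h, finrank_top, hf3] at hfW
    omega
  obtain ⟨f, hf0, hfk⟩ := Submodule.exists_le_ker_of_lt_top W hWt
  have hker : Module.finrank K (LinearMap.ker f) = 2 := by
    have h1 := LinearMap.finrank_range_add_finrank_ker f
    have h2 : LinearMap.range f = ⊤ := LinearMap.range_eq_top.2 (LinearMap.surjective hf0)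
    rw [h2, finrank_top, Module.finrank_self, hf3] at h1
    omega
  have hWk : W = LinearMap.ker f := Submodule.eq_of_le_of_finrank_eq hfk (by rw [hfW, hker])
  have hfz : ∀ z : Fin 3 → K, f z = ∑ i, f (Pi.single i 1) * z i := by
    intro z
    rw [LinearMap.pi_apply_eq_sum_univ f z]
    refine sum_congr rfl fun i _ => ?_
    rw [smul_eq_mul, mul_comm]
    congr 2
    funext j
    simp [Pi.single_apply, eq_comm]
  refine ⟨fun i => f (Pi.single i 1), ?_, ?_⟩
  · intro h
    apply hf0
    ext i
    simpa using congrFun h i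
  · intro z hz
    have h1 : z ∈ W := by
      rw [hWk, LinearMap.mem_ker, hfz]
      exact hz
    rw [hW] at h1
    have h2 : Set.range ![y, d] = {y, d} := by
      simp [Matrix.range_cons, Matrix.range_empty]
      exact Set.pair_comm _ _
    rw [h2, Submodule.mem_span_pair] at h1
    obtain ⟨α, δ, h⟩ := h1
    exact ⟨α, δ, h.symm⟩

theorem exists_third {y v : Fin 3 → K} (hli : LinearIndependent K ![y, v]) :
    ∃ u : Fin 3 → K, ∀ α β γ : K, (fun i => α * y i + β * v i + γ * u i) = (0 : Fin 3 → K) →
      α = 0 ∧ β = 0 ∧ γ = 0 := by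
  obtain ⟨n, hn0, hn⟩ := exists_functional hli
  obtain ⟨i, hi⟩ : ∃ i, n i ≠ 0 := by
    by_contra hcon
    push Not at hcon
    exact hn0 (funext hcon)
  have hyv : ∀ α β : K, (fun i => α * y i + β * v i) = (0 : Fin 3 → K) → α = 0 ∧ β = 0 := by
    intro α β h
    rw [LinearIndependent.pair_iff] at hli
    exact hli α β (by rw [← h]; rfl)
  have hex : ∃ u : Fin 3 → K, ∀ α δ : K, u ≠ α • y + δ • v := by
    by_contra hcon
    push Not at hcon
    have hf3 : Module.finrank K (Fin 3 → K) = 3 := by
      rw [Module.finrank_fintype_fun_eq_card, Fintype.card_fin]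
    have h1 : Submodule.span K (Set.range ![y, v]) = ⊤ := by
      rw [eq_top_iff]
      intro u _
      have h2 : Set.range ![y, v] = {y, v} := by
        simp [Matrix.range_cons, Matrix.range_empty]
        exact Set.pair_comm _ _
      rw [h2, Submodule.mem_span_pair]
      obtain ⟨α, δ, h⟩ := hcon u
      exact ⟨α, δ, h.symm⟩
    have h2 : Module.finrank K (Submodule.span K (Set.range ![y, v])) = 2 := by
      rw [finrank_span_eq_card hli, Fintype.card_fin]
    rw [h1, finrank_top, hf3] at h2
    omega
  obtain ⟨u, hu⟩ := hex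
  refine ⟨u, fun α β γ h => ?_⟩
  have hγ : γ = 0 := by
    by_contra hγ
    apply hu (-(γ⁻¹ * α)) (-(γ⁻¹ * β))
    funext j
    have := congrFun h j
    simp only [Pi.zero_apply] at this
    simp only [Pi.add_apply, Pi.smul_apply, smul_eq_mul]
    field_simp
    linear_combination this
  subst hγ
  simp only [zero_mul, add_zero] at h
  obtain ⟨h1, h2⟩ := hyv α β h
  exact ⟨h1, h2, rfl⟩

variable [Fintype K] [DecidableEq K]

open Classical in
theorem planes_bound {F : MvPolynomial (Fin 5) K} {D κ e : ℕ} (hF : F.IsHomogeneous D)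
    (hD : D = κ + e) (hκ : 1 ≤ κ) (hDq : D < Fintype.card K) (h01 : Deg01 F e)
    (htop : ∃ s, coeff s F ≠ 0 ∧ s 0 + s 1 = e) (hNL : NL F) :
    ((Finset.univ : Finset (Fin 3 → K)).filter fun y => y ≠ 0 ∧ Cont F y).card ≤
      (Fintype.card K - 1) * ((κ - 1) * Fintype.card K + κ * (e + 1)) := by
  obtain ⟨Q, hQ⟩ : ∃ Q, Q = Fintype.card K := ⟨_, rfl⟩
  rw [← hQ] at hDq ⊢
  have hQ1 : 1 < Q := by rw [hQ]; exact Fintype.one_lt_card
  obtain ⟨B, hB, ⟨v, hv⟩, hBC⟩ := exists_B hF hD (by rw [← hQ]; exact hDq) h01 htop
  by_cases hex : ∃ y, y ≠ 0 ∧ Cont F y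
  swap
  · have : ((Finset.univ : Finset (Fin 3 → K)).filter fun y => y ≠ 0 ∧ Cont F y) = ∅ := by
      rw [filter_eq_empty_iff]
      intro y _ hy
      exact hex ⟨y, hy⟩
    rw [this, card_empty]
    exact Nat.zero_le _
  obtain ⟨y, hy0, hyC⟩ := hex
  have hBy : eval y B = 0 := hBC y hyC
  have hli : LinearIndependent K ![y, v] := by
    rw [LinearIndependent.pair_iff' hy0]
    intro c hc
    apply hv
    rw [← hc]
    have := homog_smul hB c y
    rw [hBy, mul_zero] at this
    exact this
  obtain ⟨u, hu⟩ := exists_third hli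
  obtain ⟨φ, hφ⟩ : ∃ φ : K × K × K → (Fin 3 → K),
    φ = fun c => fun i => c.1 * y i + c.2.1 * v i + c.2.2 * u i := ⟨_, rfl⟩
  have hinj : Function.Injective φ := by
    rintro ⟨a, b, c⟩ ⟨a', b', c'⟩ h
    rw [hφ] at h
    have := hu (a - a') (b - b') (c - c') (by
      funext i
      have := congrFun h i
      simp only at this
      simp only [Pi.zero_apply]
      linear_combination this)
    rw [sub_eq_zero, sub_eq_zero, sub_eq_zero] at this
    rw [this.1, this.2.1, this.2.2]
  have hbij : Function.Bijective φ := by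
    rw [Fintype.bijective_iff_injective_and_card]
    refine ⟨hinj, ?_⟩
    simp only [Fintype.card_prod, Fintype.card_fun, Fintype.card_fin]
    ring
  -- scaling of Cont
  have hCs : ∀ c : K, ∀ z, Cont F z → c ≠ 0 → Cont F (fun i => c * z i) := by
    intro c z hz hc a b
    have h := homog_smul hF c ![c⁻¹ * a, c⁻¹ * b, z 0, z 1, z 2]
    rw [hz, mul_zero] at h
    refine (congrArg (fun v => eval v F) ?_).trans h
    funext i
    fin_cases i
    · simp [hc]
    · simp [hc]
    · rfl
    · rfl
    · rfl
  have hF0 : ∀ a b, eval ![a, b, 0, 0, 0] F = 0 := by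
    intro a b
    rw [eval_five]
    refine sum_eq_zero fun s hs => ?_
    have h1 := mem_support_iff.1 hs
    have h2 := h01 s h1
    have h3 := homog_sum hF h1
    have h4 : (![a, b, 0, 0, 0] : Fin 5 → K) 2 = 0 := rfl
    have h5 : (![a, b, 0, 0, 0] : Fin 5 → K) 3 = 0 := rfl
    have h6 : (![a, b, 0, 0, 0] : Fin 5 → K) 4 = 0 := rfl
    rw [h4, h5, h6]
    have h7 : s 2 ≠ 0 ∨ s 3 ≠ 0 ∨ s 4 ≠ 0 := by omega
    rcases h7 with h7 | h7 | h7
    · rw [zero_pow h7]; ring
    · rw [zero_pow h7]; ring
    · rw [zero_pow h7]; ring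
  -- number of points on lines
  obtain ⟨m, hm⟩ : ∃ m : K × K → ℕ, m = fun p => ((Finset.univ : Finset K).filter
    fun a => Cont F (φ (a, p.1, p.2))).card := ⟨_, rfl⟩
  have hmle : ∀ p : K × K, p ≠ (0, 0) →
      m p ≤ (κ - 1) + (if ∀ x, eval (φ (x, p.1, p.2)) B = 0 then e else 0) := by
    rintro ⟨b, c⟩ hp
    have hd : ∀ x, φ (x, b, c) = fun i => y i * x + (b * v i + c * u i) := by
      intro x; rw [hφ]; funext i; simp only; ring
    split_ifs with hall
    · -- use a second polynomial
      have hli2 : LinearIndependent K ![y, fun i => b * v i + c * u i] := by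
        rw [LinearIndependent.pair_iff' hy0]
        intro r hr
        have := hu r (-b) (-c) (by
          funext i
          have := congrFun hr i
          simp only [Pi.smul_apply, smul_eq_mul] at this
          simp only [Pi.zero_apply]
          linear_combination this)
        apply hp
        have h1 : b = 0 := by have := this.2.1; simpa using this
        have h2 : c = 0 := by have := this.2.2; simpa using this
        rw [h1, h2]
      obtain ⟨n, hn0, hn⟩ := exists_functional hli2
      obtain ⟨z, hz1, hz2⟩ := hNL ![0, 0, n 0, n 1, n 2] (by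
        intro h
        apply hn0
        funext i
        fin_cases i
        · exact congrFun h 2
        · exact congrFun h 3
        · exact congrFun h 4)
      obtain ⟨α, δ, hαδ⟩ := hn ![z 2, z 3, z 4] (by
        rw [Fin.sum_univ_five] at hz1
        rw [Fin.sum_univ_three]
        simpa using hz1)
      have hz : z = ![z 0, z 1, z 2, z 3, z 4] := by
        funext i
        fin_cases i <;> rfl
      have g2 : z 2 = α * y 0 + δ * (b * v 0 + c * u 0) := congrFun hαδ 0
      have g3 : z 3 = α * y 1 + δ * (b * v 1 + c * u 1) := congrFun hαδ 1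
      have g4 : z 4 = α * y 2 + δ * (b * v 2 + c * u 2) := congrFun hαδ 2
      have hδ : δ ≠ 0 := by
        intro hδ
        rw [hδ] at g2 g3 g4
        simp only [zero_mul, add_zero] at g2 g3 g4
        apply hz2
        rw [hz, g2, g3, g4]
        by_cases hα : α = 0
        · rw [hα]; simp only [zero_mul]; exact hF0 _ _
        · exact hCs α y hyC hα _ _
      have hcard := card_line_lt (![0, 0, y 0, y 1, y 2]) (![δ⁻¹ * z 0, δ⁻¹ * z 1,
        b * v 0 + c * u 0, b * v 1 + c * u 1, b * v 2 + c * u 2]) hF (hyC 0 0) ⟨δ⁻¹ * α, by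
          intro h
          apply hz2
          have h2 := homog_smul hF δ (fun i => (![0, 0, y 0, y 1, y 2] : Fin 5 → K) i * (δ⁻¹ * α) +
            (![δ⁻¹ * z 0, δ⁻¹ * z 1, b * v 0 + c * u 0, b * v 1 + c * u 1,
              b * v 2 + c * u 2] : Fin 5 → K) i)
          rw [h, mul_zero] at h2
          refine (congrArg (fun v => eval v F) ?_).trans h2
          funext i
          fin_cases i
          · simp [hδ]
          · simp [hδ]
          · simp only [Fin.reduceFinMk, Matrix.cons_val]
            rw [g2]; field_simp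
          · simp only [Fin.reduceFinMk, Matrix.cons_val]
            rw [g3]; field_simp
          · simp only [Fin.reduceFinMk, Matrix.cons_val]
            rw [g4]; field_simp⟩
        ((Finset.univ : Finset K).filter fun a => Cont F (φ (a, b, c))) (by
          intro x hx
          rw [mem_filter] at hx
          have := hx.2 (δ⁻¹ * z 0) (δ⁻¹ * z 1)
          rw [hd] at this
          refine (congrArg (fun v => eval v F) ?_).trans this
          funext i
          fin_cases i <;> simp)
      rw [hm]
      simp only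
      omega
    · push Not at hall
      obtain ⟨x, hx⟩ := hall
      have hcard := card_line_lt y (fun i => b * v i + c * u i) hB hBy
        ⟨x, by rw [← hd]; exact hx⟩
        ((Finset.univ : Finset K).filter fun a => Cont F (φ (a, b, c))) (by
          intro x hx
          rw [mem_filter] at hx
          rw [← hd]
          exact hBC _ hx.2)
      rw [hm]
      simp only
      omega
  -- number of special directions
  have hspec : (((Finset.univ : Finset (K × K)).erase (0, 0)).filter
      fun p => ∀ x, eval (φ (x, p.1, p.2)) B = 0).card ≤ (Q - 1) * κ := by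
    have hsub : (((Finset.univ : Finset (K × K)).erase (0, 0)).filter
        fun p => ∀ x, eval (φ (x, p.1, p.2)) B = 0) ⊆
        ((Finset.univ : Finset K).erase 0).biUnion fun c =>
          ((Finset.univ : Finset K).filter fun b =>
            eval (fun i => v i * b + c * u i) B = 0).image fun b => (b, c) := by
      rintro ⟨b, c⟩ hp
      rw [mem_filter, mem_erase] at hp
      have h0 := hp.2 0
      have hc : c ≠ 0 := by
        intro hc
        have hb : b ≠ 0 := by
          intro hb
          exact hp.1.1 (by rw [hb, hc])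
        have h1 : φ (0, b, c) = fun i => b * v i := by
          rw [hφ]; funext i; simp only [hc]; ring
        rw [h1, homog_smul hB] at h0
        exact mul_ne_zero (pow_ne_zero _ hb) hv h0
      rw [mem_biUnion]
      refine ⟨c, mem_erase.2 ⟨hc, mem_univ _⟩, ?_⟩
      rw [mem_image]
      refine ⟨b, ?_, rfl⟩
      rw [mem_filter]
      refine ⟨mem_univ _, ?_⟩
      have h1 : φ (0, b, c) = fun i => v i * b + c * u i := by
        rw [hφ]; funext i; simp only; ring
      rw [h1] at h0
      exact h0
    refine (card_le_card hsub).trans (card_biUnion_le.trans ?_)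
    have hQ' : ((Finset.univ : Finset K).erase 0).card = Q - 1 := by
      rw [card_erase_of_mem (mem_univ _), card_univ, hQ]
    rw [← hQ', ← smul_eq_mul, ← sum_const]
    refine sum_le_sum fun c _ => card_image_le.trans ?_
    refine card_line_le v (fun i => c * u i) hB
      (exists_ne_of_top v (fun i => c * u i) hB (by rw [← hQ]; omega) hv) _ ?_
    intro b hb
    rw [mem_filter] at hb
    exact hb.2
  -- total
  have htot : ((Finset.univ : Finset (Fin 3 → K)).filter fun y => y ≠ 0 ∧ Cont F y).card ≤
      (Q - 1) + ∑ p ∈ (Finset.univ : Finset (K × K)).erase (0, 0), m p := by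
    have h1 : ((Finset.univ : Finset (Fin 3 → K)).filter fun y => y ≠ 0 ∧ Cont F y) ⊆
        (((Finset.univ : Finset K).erase 0).image fun a => φ (a, 0, 0)) ∪
        ((Finset.univ : Finset (K × K)).erase (0, 0)).biUnion fun p =>
          ((Finset.univ : Finset K).filter fun a => Cont F (φ (a, p.1, p.2))).image
            fun a => φ (a, p.1, p.2) := by
      intro z hz
      rw [mem_filter] at hz
      obtain ⟨⟨a, b, c⟩, rfl⟩ := hbij.2 z
      rw [mem_union]
      by_cases h : ((b, c) : K × K) = (0, 0)
      · left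
        rw [Prod.mk.injEq] at h
        obtain ⟨rfl, rfl⟩ := h
        rw [mem_image]
        refine ⟨a, mem_erase.2 ⟨?_, mem_univ _⟩, rfl⟩
        rintro rfl
        apply hz.2.1
        rw [hφ]; funext i; simp
      · right
        rw [mem_biUnion]
        refine ⟨(b, c), mem_erase.2 ⟨h, mem_univ _⟩, ?_⟩
        rw [mem_image]
        exact ⟨a, mem_filter.2 ⟨mem_univ _, hz.2.2⟩, rfl⟩
    refine (card_le_card h1).trans ((card_union_le _ _).trans (Nat.add_le_add ?_ ?_))
    · refine card_image_le.trans ?_
      rw [card_erase_of_mem (mem_univ _), card_univ, hQ]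
    · refine card_biUnion_le.trans (sum_le_sum fun p _ => ?_)
      rw [hm]
      exact card_image_le
  have hsum : ∑ p ∈ (Finset.univ : Finset (K × K)).erase (0, 0), m p ≤
      (Q ^ 2 - 1) * (κ - 1) + (Q - 1) * κ * e := by
    refine (sum_le_sum fun p hp => hmle p (mem_erase.1 hp).1).trans ?_
    rw [sum_add_distrib, sum_const, smul_eq_mul, ← sum_filter, sum_const, smul_eq_mul,
      card_erase_of_mem (mem_univ _), card_univ, Fintype.card_prod, ← hQ, ← pow_two]
    exact Nat.add_le_add le_rfl (Nat.mul_le_mul_right e hspec)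
  refine htot.trans ((Nat.add_le_add_left hsum _).trans (le_of_eq ?_))
  obtain ⟨r, rfl⟩ : ∃ r, Q = r + 1 := ⟨Q - 1, by omega⟩
  obtain ⟨k, rfl⟩ : ∃ k, κ = k + 1 := ⟨κ - 1, by omega⟩
  have : (r + 1) ^ 2 - 1 = r * (r + 2) := by
    have : (r + 1) ^ 2 = r * (r + 2) + 1 := by ring
    omega
  rw [this]
  simp only [Nat.add_sub_cancel]
  ring

end Pool.Agent.H566R3
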