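import Mathlib
import Pool.Agent.H566R3.Loc2
import Pool.Agent.H566R3.Planes2
import Pool.Agent.H566R3.Arith

set_option autoImplicit false
set_option maxHeartbeats 400000

/-! # The main estimate for a hypersurface containing a generator -/

namespace Pool.Agent.H566R3

open Finset MvPolynomial

variable {K : Type} [Field K] [Fintype K] [DecidableEq K] {q : ℕ}

/-- the points outside the generator, one chart for every point of the generator -/
noncomputable def Tot (q : ℕ) (c : K) (D : ℕ) (F : MvPolynomial (Fin 5) K) : ℕ :=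
  ∑ t : K, nloc q (q + 1) c (arr (Ut q t F) D) + nloc q (q + 1) c (arr (Wt F) D)

/-- the total number of planes -/
noncomputable def pTot (q : ℕ) (D : ℕ) (F : MvPolynomial (Fin 5) K) : ℕ :=
  ∑ t : K, ploc (q + 1) (arr (Ut q t F) D) + ploc (q + 1) (arr (Wt F) D)

omit [DecidableEq K] in
theorem fv_zero_of (N : ℕ) (a : ℕ → ℕ → ℕ → K) (w : K)
    (h : ∀ i j, pv N (fun l => a i j l) w = 0) (τ lam : K) : fv N a τ lam w = 0 := by
  rw [fv, fw, pv]
  refine sum_eq_zero fun j _ => ?_
  rw [pv, sum_eq_zero, zero_mul]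
  intro i _
  rw [h, zero_mul]

theorem ploc_le_r {N r : ℕ} {a : ℕ → ℕ → ℕ → K} {e : ℕ} (hN : ∀ l, a 0 e l ≠ 0 → l < N)
    (hr : ∀ l, a 0 e l ≠ 0 → l ≤ r) (hne : ∃ l, a 0 e l ≠ 0) : ploc N a ≤ r := by
  classical
  rw [ploc]
  refine card_zero_le N (fun l => a 0 e l) r ?_ ?_ _ ?_
  · intro l hl
    by_contra hcon
    have := hr l hcon; omega
  · obtain ⟨l, hl⟩ := hne
    exact ⟨l, hN l hl, hl⟩
  · intro w hw
    rw [mem_filter] at hw
    exact hw.2 0 e

theorem pTot_le (hq : Fintype.card K = q ^ 2)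
    {F : MvPolynomial (Fin 5) K} {D κ e : ℕ} (hF : F.IsHomogeneous D)
    (hD : D = κ + e) (hκ : 1 ≤ κ) (hDq : D ≤ q) (h01 : Deg01 F e)
    (htop : ∃ s, coeff s F ≠ 0 ∧ s 0 + s 1 = e) (hNL : NL F) :
    pTot q D F ≤ (κ - 1) * q ^ 2 + κ * (e + 1) := by
  classical
  have h2 := two_le_q hq
  have hDc : D < Fintype.card K := by rw [hq]; nlinarith
  obtain ⟨S, hS⟩ : ∃ S : Finset (Fin 3 → K),
    S = Finset.univ.filter fun y => y ≠ 0 ∧ Cont F y := ⟨_, rfl⟩
  have hb := planes_bound hF hD hκ hDc h01 htop hNL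
  rw [← hS] at hb
  have hcone : ∀ c : K, c ≠ 0 → ∀ v ∈ S, (fun j => c * v j) ∈ S := by
    intro c hc v hv
    rw [hS, mem_filter] at hv ⊢
    refine ⟨mem_univ _, ?_, ?_⟩
    · intro h
      apply hv.2.1
      funext j
      have := congrFun h j
      simp only [Pi.zero_apply, mul_eq_zero, hc, false_or] at this
      exact this
    · intro a b
      have h := homog_smul hF c ![c⁻¹ * a, c⁻¹ * b, v 0, v 1, v 2]
      rw [hv.2.2, mul_zero] at h
      refine (congrArg (fun v => eval v F) ?_).trans h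
      funext i
      fin_cases i
      · simp [hc]
      · simp [hc]
      · rfl
      · rfl
      · rfl
  have hcone' : ∀ c : K, c ≠ 0 → ∀ v ∈ S.filter (fun v => ¬ v 0 ≠ 0),
      (fun j => c * v j) ∈ S.filter (fun v => ¬ v 0 ≠ 0) := by
    intro c hc v hv
    rw [mem_filter] at hv ⊢
    refine ⟨hcone c hc v hv.1, ?_⟩
    have := hv.2
    simp only [ne_eq, not_not] at this ⊢
    rw [this, mul_zero]
  have e1 := card_scale S hcone 0
  have e2 := card_scale (S.filter (fun v => ¬ v 0 ≠ 0)) hcone' 1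
  have e3 : (S.filter (fun v => v 0 ≠ 0)).card + ((S.filter (fun v => ¬ v 0 ≠ 0))).card = S.card :=
    card_filter_add_card_filter_not _
  have e4 : ((S.filter (fun v => ¬ v 0 ≠ 0)).filter fun v => v 1 ≠ 0).card ≤
      (S.filter (fun v => ¬ v 0 ≠ 0)).card := card_le_card (filter_subset _ _)
  -- charts
  have f1 : ∑ t : K, ploc (q + 1) (arr (Ut q t F) D) ≤ (S.filter fun v => v 0 = 1).card := by
    have : ∀ t : K, ploc (q + 1) (arr (Ut q t F) D) ≤
        ((Finset.univ : Finset K).filter fun w => Cont F ![1, -t ^ q, w]).card := by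
      intro t
      rw [ploc]
      apply card_le_card
      intro w hw
      rw [mem_filter] at hw ⊢
      refine ⟨mem_univ _, fun a b => ?_⟩
      have h := fv_zero_of (q + 1) _ w hw.2 (a - t * b) b
      rw [← eval_arr (homog_ut hF q t) (by omega), eval_ut] at h
      refine (congrArg (fun v => eval v F) ?_).trans h
      funext i
      fin_cases i <;> simp
    refine (sum_le_sum fun t _ => this t).trans ?_
    have hs : ∑ t : K, ((Finset.univ : Finset K).filter fun w => Cont F ![1, -t ^ q, w]).card =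
        ((Finset.univ : Finset (K × K)).filter fun p => Cont F ![1, -p.1 ^ q, p.2]).card := by
      rw [card_filter, Fintype.sum_prod_type]
      refine sum_congr rfl fun t _ => ?_
      rw [card_filter]
    rw [hs]
    refine card_le_card_of_injOn (fun p => ![1, -p.1 ^ q, p.2]) ?_ ?_
    · intro p hp
      simp only [coe_filter, mem_univ, true_and, Set.mem_ofPred_eq] at hp
      simp only [hS, coe_filter, mem_filter, mem_univ, true_and, Set.mem_ofPred_eq]
      refine ⟨⟨?_, hp⟩, rfl⟩
      intro h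
      exact one_ne_zero (congrFun h 0)
    · intro p _ p' _ h
      have h1 : -p.1 ^ q = -p'.1 ^ q := congrFun h 1
      have h2 : p.2 = p'.2 := congrFun h 2
      have h3 : p.1 = p'.1 := by
        have := congrArg (fun x => x ^ q) (neg_injective h1)
        simp only [pow_q_q hq] at this
        exact this
      exact Prod.ext h3 h2
  have f2 : ploc (q + 1) (arr (Wt F) D) ≤
      ((S.filter (fun v => ¬ v 0 ≠ 0)).filter fun v => v 1 = 1).card := by
    rw [ploc]
    refine card_le_card_of_injOn (fun w => ![0, 1, w]) ?_ ?_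
    · intro w hw
      simp only [coe_filter, mem_univ, true_and, Set.mem_ofPred_eq] at hw
      simp only [hS, coe_filter, mem_filter, mem_univ, true_and, Set.mem_ofPred_eq]
      refine ⟨⟨⟨?_, ?_⟩, by simp⟩, rfl⟩
      · intro h
        exact one_ne_zero (congrFun h 1)
      · intro a b
        have h := fv_zero_of (q + 1) _ w hw b a
        rw [← eval_arr (homog_wt hF) (by omega), eval_wt] at h
        refine (congrArg (fun v => eval v F) ?_).trans h
        funext i
        fin_cases i <;> simp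
    · intro w _ w' _ h
      exact congrFun h 2
  obtain ⟨Q, hQ⟩ : ∃ Q, Fintype.card K = Q + 1 := ⟨Fintype.card K - 1, by omega⟩
  have hQ0 : 0 < Q := by
    rw [hq] at hQ
    have : 4 ≤ q ^ 2 := by nlinarith
    omega
  rw [← hq]
  rw [hQ, Nat.add_sub_cancel] at e1 e2 hb
  rw [hQ]
  have : Q * pTot q D F ≤ Q * ((κ - 1) * (Q + 1) + κ * (e + 1)) := by
    refine le_trans ?_ hb
    rw [pTot, Nat.mul_add]
    calc Q * ∑ t : K, ploc (q + 1) (arr (Ut q t F) D) + Q * ploc (q + 1) (arr (Wt F) D)
        ≤ Q * (S.filter fun v => v 0 = 1).card +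
          Q * ((S.filter (fun v => ¬ v 0 ≠ 0)).filter fun v => v 1 = 1).card :=
          Nat.add_le_add (Nat.mul_le_mul_left _ f1) (Nat.mul_le_mul_left _ f2)
      _ = (S.filter fun v => v 0 ≠ 0).card +
          ((S.filter (fun v => ¬ v 0 ≠ 0)).filter fun v => v 1 ≠ 0).card := by rw [e1, e2]
      _ ≤ S.card := by omega
  exact Nat.le_of_mul_le_mul_left this hQ0

end Pool.Agent.H566R3
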