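import Mathlib
import Pool.Agent.H566R3.Engine

set_option autoImplicit false
set_option maxHeartbeats 400000

/-! # The main estimate for a hypersurface containing a generator -/

namespace Pool.Agent.H566R3

open Finset MvPolynomial

variable {K : Type} [Field K]

theorem exists_order {G : MvPolynomial (Fin 5) K} {e : ℕ} (h01 : Deg01 G e)
    (hex : ∃ s, coeff s G ≠ 0 ∧ s 3 = 0) :
    ∃ x ≤ e, (∀ s, coeff s G ≠ 0 → s 3 = 0 → s 1 + x ≤ e) ∧
      ∃ s, coeff s G ≠ 0 ∧ s 3 = 0 ∧ s 1 + x = e := by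
  classical
  have hne : (G.support.filter fun s => s 3 = 0).Nonempty := by
    obtain ⟨s, hs, h3⟩ := hex
    exact ⟨s, mem_filter.2 ⟨mem_support_iff.2 hs, h3⟩⟩
  obtain ⟨s, hs, hmax⟩ := exists_max_image _ (fun s : Fin 5 →₀ ℕ => s 1) hne
  rw [mem_filter, mem_support_iff] at hs
  have h1 := h01 s hs.1
  refine ⟨e - s 1, by omega, ?_, s, hs.1, hs.2, by omega⟩
  intro s' hs' h3'
  have := hmax s' (mem_filter.2 ⟨mem_support_iff.2 hs', h3'⟩)
  omega

theorem exists_mono {G : MvPolynomial (Fin 5) K} {v : Fin 5 → K} (hv : v 3 = 0)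
    (h : eval v G ≠ 0) : ∃ s, coeff s G ≠ 0 ∧ s 3 = 0 := by
  by_contra hcon
  push Not at hcon
  apply h
  rw [eval_five]
  refine sum_eq_zero fun s hs => ?_
  rw [hv, zero_pow (hcon s (mem_support_iff.1 hs))]
  ring

theorem NL.ut {F : MvPolynomial (Fin 5) K} (h : NL F) (q : ℕ) (t : K) :
    ∃ s, coeff s (Ut q t F) ≠ 0 ∧ s 3 = 0 := by
  obtain ⟨v, hv1, hv2⟩ := h ![0, 0, t ^ q, 1, 0] (by
    intro h
    exact one_ne_zero (congrFun h 3))
  have h3 : t ^ q * v 2 + v 3 = 0 := by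
    rw [Fin.sum_univ_five] at hv1
    simpa using hv1
  refine exists_mono (v := ![v 0 - t * v 1, v 1, v 2, 0, v 4]) rfl ?_
  rw [eval_ut]
  intro h
  apply hv2
  refine (congrArg (fun v => eval v F) ?_).trans h
  funext i
  fin_cases i
  · simp
  · simp
  · simp
  · simp only [Fin.reduceFinMk, Matrix.cons_val]
    linear_combination h3
  · simp

theorem NL.wt {F : MvPolynomial (Fin 5) K} (h : NL F) :
    ∃ s, coeff s (Wt F) ≠ 0 ∧ s 3 = 0 := by
  obtain ⟨v, hv1, hv2⟩ := h ![0, 0, 1, 0, 0] (by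
    intro h
    exact one_ne_zero (congrFun h 2))
  have h3 : v 2 = 0 := by
    rw [Fin.sum_univ_five] at hv1
    simpa using hv1
  refine exists_mono (v := ![v 1, v 0, v 3, 0, v 4]) rfl ?_
  rw [eval_wt]
  intro h
  apply hv2
  refine (congrArg (fun v => eval v F) ?_).trans h
  funext i
  fin_cases i
  · simp
  · simp
  · simp [h3]
  · simp
  · simp

variable [Fintype K] [DecidableEq K] {q : ℕ}

/-- the local bound at a point, uniform version -/
theorem loc_uniform (hq : Fintype.card K = q ^ 2) {c : K} (hc : c ^ q = c) (hc0 : c ≠ 0)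
    {G : MvPolynomial (Fin 5) K} {D κ e x r : ℕ} (hG : G.IsHomogeneous D)
    (hD : D = κ + e) (hκ : 1 ≤ κ) (hDq : D ≤ q) (h01 : Deg01 G e) (hxe : x ≤ e)
    (hx2 : ∃ s, coeff s G ≠ 0 ∧ s 3 = 0 ∧ s 1 + x = e)
    (hr : ∀ l, arr G D 0 e l ≠ 0 → l ≤ r) (hrκ : r ≤ κ) :
    (nloc q (q + 1) c (arr G D) : ℤ) ≤ q ^ 3 * e + r * (e * ((q : ℤ) ^ 2 - q)) +
        ploc (q + 1) (arr G D) * ((q : ℤ) ^ 2 * (q - e)) +
        x * ((κ - r) * (q * ((q : ℤ) ^ 2 - e)) + r * ((q : ℤ) ^ 2 * (q - e)) + ((q : ℤ) ^ 3 - q)) ∧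
    (nloc q (q + 1) c (arr G D) : ℤ) ≤ q ^ 3 * e + r * (q * ((q : ℤ) ^ 2 - e)) +
        x * ((κ - r) * (q * ((q : ℤ) ^ 2 - e)) + ((q : ℤ) ^ 3 - q)) := by
  have h2 := two_le_q hq
  have q2 : (2 : ℤ) ≤ q := by exact_mod_cast h2
  have eq1 : (e : ℤ) < q := by exact_mod_cast (by omega : e < q)
  have e0 : (0 : ℤ) ≤ e := by positivity
  have hrκ' : (r : ℤ) ≤ κ := by exact_mod_cast hrκ
  have r0 : (0 : ℤ) ≤ r := by positivity
  have p0 : (0 : ℤ) ≤ ploc (q + 1) (arr G D) := by positivity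
  have w1 : (0 : ℤ) ≤ (q : ℤ) ^ 2 * (q - e) := mul_nonneg (by positivity) (by linarith)
  have w2 : (0 : ℤ) ≤ q * ((q : ℤ) ^ 2 - e) := mul_nonneg (by positivity) (by nlinarith)
  have w3 : (0 : ℤ) ≤ (q : ℤ) ^ 3 - q := by nlinarith
  have w4 : (0 : ℤ) ≤ e * ((q : ℤ) ^ 2 - q) := mul_nonneg e0 (by nlinarith)
  have hsupp : ∀ i j l, arr G D i j l ≠ 0 → i + j ≤ e ∧ i + j + l ≤ κ + e := by
    intro i j l h
    have := arr_supp h01 i j l h
    rw [hD] at this
    exact this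
  obtain ⟨s, hs, hs3, hs1⟩ := hx2
  have harr := arr_of_coeff hG hs hs3
  rcases Nat.eq_zero_or_pos x with hx0 | hx0
  · subst hx0
    have hs0 : s 0 = 0 := by
      have := h01 s hs; omega
    have hs1' : s 1 = e := by omega
    have hne : ∃ l, arr G D 0 e l ≠ 0 := by
      refine ⟨s 4, ?_⟩
      rw [hs0, hs1'] at harr
      rw [harr]; exact hs
    have h1 := loc_good hq hc (q + 1) e κ r (by omega) (by omega) (by omega) (arr G D) hsupp hr hne
    have h3 : ploc (q + 1) (arr G D) ≤ r := by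
      refine ploc_le_r (e := e) ?_ hr hne
      intro l hl
      have := (hsupp 0 e l hl).2
      omega
    have h3' : (ploc (q + 1) (arr G D) : ℤ) ≤ r := by exact_mod_cast h3
    have h4 := mul_le_mul_of_nonneg_right h3' w1
    constructor
    · push_cast
      linarith
    · push_cast
      nlinarith
  · have h1 := loc_bad hq hc hc0 (q + 1) e κ x (by omega) (by omega) (by omega) hx0 hxe (arr G D)
      hsupp (by
        refine ⟨s 0, s 4, ?_⟩
        have : e - x = s 1 := by omega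
        rw [this, harr]
        exact hs)
    have x1 : (1 : ℤ) ≤ x := by exact_mod_cast hx0
    have y1 : (κ - r) * (q * ((q : ℤ) ^ 2 - e)) ≤ x * ((κ - r) * (q * ((q : ℤ) ^ 2 - e))) := by
      have : (0 : ℤ) ≤ (κ - r) * (q * ((q : ℤ) ^ 2 - e)) := mul_nonneg (by linarith) w2
      nlinarith
    have y2 : r * ((q : ℤ) ^ 2 * (q - e)) ≤ x * (r * ((q : ℤ) ^ 2 * (q - e))) := by
      have : (0 : ℤ) ≤ r * ((q : ℤ) ^ 2 * (q - e)) := mul_nonneg r0 w1
      nlinarith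
    have y3 : (0 : ℤ) ≤ ploc (q + 1) (arr G D) * ((q : ℤ) ^ 2 * (q - e)) := mul_nonneg p0 w1
    constructor
    · nlinarith
    · nlinarith

end Pool.Agent.H566R3
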