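import Mathlib
import Pool.Agent.H566R3.Engine2

set_option autoImplicit false
set_option maxHeartbeats 400000

/-! # The main estimate for a hypersurface containing a generator -/

namespace Pool.Agent.H566R3

open Finset MvPolynomial

variable {K : Type} [Field K] [Fintype K] [DecidableEq K] {q : ℕ}

theorem engine (hq : Fintype.card K = q ^ 2) {c : K} (hc : c ^ q = c) (hc0 : c ≠ 0)
    {F : MvPolynomial (Fin 5) K} {D κ e : ℕ} (hF : F.IsHomogeneous D)
    (hD : D = κ + e) (hκ : 1 ≤ κ) (hDq : D ≤ q) (h01 : Deg01 F e)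
    (htop : ∃ s, coeff s F ≠ 0 ∧ s 0 + s 1 = e) (hNL : NL F) :
    ((q : ℤ) ^ 2 + 1) + Tot q c D F ≤
      D * ((q : ℤ) ^ 5 + (q : ℤ) ^ 2) + (if D = q then (q : ℤ) ^ 3 + 1 else 0) := by
  classical
  have h2 := two_le_q hq
  have q2 : (2 : ℤ) ≤ q := by exact_mod_cast h2
  have heq : e < q := by omega
  have eq1 : (e : ℤ) < q := by exact_mod_cast heq
  have e0 : (0 : ℤ) ≤ e := by positivity
  choose x hx1 hx2 hx3 using fun t : K => exists_order (h01.ut q t) (hNL.ut q t)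
  obtain ⟨y, hy1, hy2, hy3⟩ := exists_order h01.wt hNL.wt
  -- the maximal power of the last variable in the top part
  have hne : (F.support.filter fun s => s 0 + s 1 = e).Nonempty := by
    obtain ⟨s, hs, h⟩ := htop
    exact ⟨s, mem_filter.2 ⟨mem_support_iff.2 hs, h⟩⟩
  obtain ⟨s₀, hs₀, hmax⟩ := exists_max_image _ (fun s : Fin 5 →₀ ℕ => s 4) hne
  rw [mem_filter, mem_support_iff] at hs₀
  obtain ⟨j, hj⟩ : ∃ j, j = s₀ 4 := ⟨_, rfl⟩
  rw [← hj] at hmax
  have hs₀h := homog_sum hF hs₀.1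
  have hjκ : j ≤ κ := by omega
  have hmax' : ∀ s, coeff s F ≠ 0 → s 0 + s 1 = e → s 4 ≤ j := fun s hs h =>
    hmax s (mem_filter.2 ⟨mem_support_iff.2 hs, h⟩)
  -- orders
  have hX : ∑ t, x t + y ≤ e + q * (κ - j) := by
    have hP : Ph q F e j ≠ 0 := by
      rw [hj]; exact Ph_ne_zero hF heq hs₀.1 hs₀.2
    have h3 := sum_orders x (Ph q F e j) hP fun t => dvd_Ph hq t heq (hx1 t) (hx2 t) j
    have h4 := natDegree_Ph_le (x := y) hF hD heq hy1 (by
      intro s hs hs2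
      have h5 := hy2 (ix (s 1) (s 0) (s 3) (s 2) (s 4)) (by
        rw [coeff_Wt]
        simp only [ix_0, ix_1, ix_2, ix_3, ix_4]
        rw [← eq_ix s]
        exact hs) (by simp [hs2])
      simpa using h5) j hjκ
    have : y ≤ e + q * (κ - j) := by
      have := Nat.zero_le (q * (κ - j))
      omega
    omega
  have hrt : ∀ t l, arr (Ut q t F) D 0 e l ≠ 0 → l ≤ j := by
    intro t l hl
    rw [← Ph_eval hq hF heq] at hl
    have h3 : Ph q F e l ≠ 0 := by
      intro h; rw [h, Polynomial.eval_zero] at hl; exact hl rfl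
    obtain ⟨n, hn⟩ : ∃ n, (Ph q F e l).coeff n ≠ 0 := by
      by_contra hcon
      push Not at hcon
      exact h3 (Polynomial.ext fun n => by rw [hcon n, Polynomial.coeff_zero])
    obtain ⟨s, hs, h4, h5, _⟩ := exists_of_coeff_Ph hn
    rw [← h5]
    exact hmax' s hs h4
  have hrw : ∀ l, arr (Wt F) D 0 e l ≠ 0 → l ≤ j := by
    intro l hl
    rw [arr] at hl
    split_ifs at hl with h3
    · rw [coeff_Wt] at hl
      have := hmax' _ hl (by simp)
      simpa using this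
    · exact absurd rfl hl
  have hut : ∀ t, _ := fun t : K => loc_uniform (r := j) (x := x t) hq hc hc0 (homog_ut hF q t) hD hκ
    hDq (h01.ut q t) (hx1 t) (hx3 t) (hrt t) hjκ
  have huw := loc_uniform (r := j) (x := y) hq hc hc0 (homog_wt hF) hD hκ
    hDq h01.wt hy1 hy3 hrw hjκ
  have hcardK : ((Finset.univ : Finset K).card : ℤ) = (q : ℤ) ^ 2 := by
    rw [card_univ, hq]; push_cast; ring
  have hpT := pTot_le hq hF hD hκ hDq h01 htop hNL
  have hpT' : (pTot q D F : ℤ) ≤ (κ - 1) * (q : ℤ) ^ 2 + κ * (e + 1) := by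
    have : (pTot q D F : ℤ) ≤ (((κ - 1) * q ^ 2 + κ * (e + 1) : ℕ) : ℤ) := by exact_mod_cast hpT
    push_cast [Nat.cast_sub hκ] at this
    exact this
  have hTot : (Tot q c D F : ℤ) = ∑ t : K, (nloc q (q + 1) c (arr (Ut q t F) D) : ℤ) +
      nloc q (q + 1) c (arr (Wt F) D) := by
    rw [Tot]; push_cast; rfl
  have hpTot : (pTot q D F : ℤ) = ∑ t : K, (ploc (q + 1) (arr (Ut q t F) D) : ℤ) +
      ploc (q + 1) (arr (Wt F) D) := by
    rw [pTot]; push_cast; rfl
  have hX' : (∑ t, (x t : ℤ)) + y ≤ e + q * (κ - j) := by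
    have : ((∑ t, x t + y : ℕ) : ℤ) ≤ ((e + q * (κ - j) : ℕ) : ℤ) := by exact_mod_cast hX
    push_cast [Nat.cast_sub hjκ] at this
    exact this
  have w1 : (0 : ℤ) ≤ (q : ℤ) ^ 2 * (q - e) := mul_nonneg (by positivity) (by linarith)
  have w2 : (0 : ℤ) ≤ q * ((q : ℤ) ^ 2 - e) := mul_nonneg (by positivity) (by nlinarith)
  have w3 : (0 : ℤ) ≤ (q : ℤ) ^ 3 - q := by nlinarith
  by_cases hcase : e = 0 ∨ j = κ
  · -- first case
    obtain ⟨α, hα⟩ : ∃ α : ℤ, α = (q : ℤ) ^ 3 * e + j * (e * ((q : ℤ) ^ 2 - q)) := ⟨_, rfl⟩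
    obtain ⟨β, hβ⟩ : ∃ β : ℤ, β = ((κ - j) * (q * ((q : ℤ) ^ 2 - e)) +
      j * ((q : ℤ) ^ 2 * (q - e)) + ((q : ℤ) ^ 3 - q)) := ⟨_, rfl⟩
    have hs : (Tot q c D F : ℤ) ≤ ((q : ℤ) ^ 2 + 1) * α + pTot q D F * ((q : ℤ) ^ 2 * (q - e)) +
        ((∑ t, (x t : ℤ)) + y) * β := by
      rw [hTot, hpTot]
      have h3 : ∑ t : K, (nloc q (q + 1) c (arr (Ut q t F) D) : ℤ) ≤
          ∑ t : K, (α + ploc (q + 1) (arr (Ut q t F) D) * ((q : ℤ) ^ 2 * (q - e)) + x t * β) := by
        refine sum_le_sum fun t _ => ?_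
        rw [hα, hβ]
        exact (hut t).1
      have h4 := huw.1
      rw [← hα, ← hβ] at h4
      rw [sum_add_distrib, sum_add_distrib, sum_const, nsmul_eq_mul, hcardK, ← sum_mul,
        ← sum_mul] at h3
      linarith
    have hA := arithA q κ e hκ (by omega) h2
    have hD' : (D : ℤ) = κ + e := by rw [hD]; push_cast; ring
    have hif : (if D = q then (q : ℤ) ^ 3 + 1 else 0) = (if κ + e = q then (q : ℤ) ^ 3 + 1 else 0) := by
      rw [hD]
    rw [hif, hD']
    have h5 := mul_le_mul_of_nonneg_right hpT' w1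
    rcases hcase with he0 | hjk
    · have hx0 : (∑ t, (x t : ℤ)) + y = 0 := by
        have h6 : ∀ t, x t = 0 := fun t => by have := hx1 t; omega
        have h7 : y = 0 := by omega
        simp [h6, h7]
      rw [hx0, zero_mul, add_zero] at hs
      have he0' : (e : ℤ) = 0 := by exact_mod_cast he0
      rw [hα] at hs
      rw [he0'] at hs h5 hA ⊢
      simp only [mul_zero, zero_mul, add_zero, sub_zero, zero_add] at hs h5 hA ⊢
      linarith
    · have hjk' : (j : ℤ) = κ := by exact_mod_cast hjk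
      rw [hjk', sub_self, mul_zero, add_zero] at hX'
      rw [hjk'] at hα hβ
      rw [sub_self, zero_mul, zero_add] at hβ
      have hβ0 : 0 ≤ β := by
        rw [hβ]
        have : (0 : ℤ) ≤ κ * ((q : ℤ) ^ 2 * (q - e)) := mul_nonneg (by positivity) w1
        linarith
      have h6 := mul_le_mul_of_nonneg_right hX' hβ0
      rw [hα] at hs
      rw [hβ] at hs h6
      linarith
  · -- second case
    push Not at hcase
    obtain ⟨i, hi⟩ : ∃ i, κ = i + j := ⟨κ - j, by omega⟩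
    have hi1 : 1 ≤ i := by omega
    have hi' : (κ : ℤ) = i + j := by rw [hi]; push_cast; ring
    obtain ⟨α, hα⟩ : ∃ α : ℤ, α = (q : ℤ) ^ 3 * e + j * (q * ((q : ℤ) ^ 2 - e)) := ⟨_, rfl⟩
    obtain ⟨β, hβ⟩ : ∃ β : ℤ, β = ((κ - j) * (q * ((q : ℤ) ^ 2 - e)) + ((q : ℤ) ^ 3 - q)) :=
      ⟨_, rfl⟩
    have hs : (Tot q c D F : ℤ) ≤ ((q : ℤ) ^ 2 + 1) * α + ((∑ t, (x t : ℤ)) + y) * β := by
      rw [hTot]
      have h3 : ∑ t : K, (nloc q (q + 1) c (arr (Ut q t F) D) : ℤ) ≤
          ∑ t : K, (α + x t * β) := by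
        refine sum_le_sum fun t _ => ?_
        rw [hα, hβ]
        exact (hut t).2
      have h4 := huw.2
      rw [← hα, ← hβ] at h4
      rw [sum_add_distrib, sum_const, nsmul_eq_mul, hcardK, ← sum_mul] at h3
      linarith
    have hB := arithB q i j e hi1 (by omega) (by omega)
    have hD' : (D : ℤ) = i + j + e := by rw [hD, hi]; push_cast; ring
    have hif : (if D = q then (q : ℤ) ^ 3 + 1 else 0) =
        (if i + j + e = q then (q : ℤ) ^ 3 + 1 else 0) := by
      rw [hD, hi]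
    rw [hif, hD']
    rw [hi', add_sub_cancel_right] at hX' hβ
    have hβ0 : 0 ≤ β := by
      rw [hβ]
      have : (0 : ℤ) ≤ i * (q * ((q : ℤ) ^ 2 - e)) := mul_nonneg (by positivity) w2
      linarith
    have h6 := mul_le_mul_of_nonneg_right hX' hβ0
    rw [hα] at hs
    rw [hβ] at hs h6
    linarith

end Pool.Agent.H566R3
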