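import Mathlib
import Pool.Agent.H566R3.Fld

set_option autoImplicit false
set_option maxHeartbeats 400000

/-! # Frames of the Hermitian form -/

namespace Pool.Agent.H566R3

open Finset

variable {K : Type} [Field K] {q : ℕ}

/-- the sesquilinear form -/
def sf (q : ℕ) (x y : Fin 5 → K) : K := ∑ i, x i * y i ^ q

theorem sf_add_left (x x' y : Fin 5 → K) : sf q (x + x') y = sf q x y + sf q x' y := by
  simp only [sf, Pi.add_apply, add_mul, sum_add_distrib]

theorem sf_smul_left (a : K) (x y : Fin 5 → K) : sf q (a • x) y = a * sf q x y := by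
  simp only [sf, Pi.smul_apply, smul_eq_mul, mul_assoc, mul_sum]

theorem sf_smul_right (a : K) (x y : Fin 5 → K) : sf q x (a • y) = a ^ q * sf q x y := by
  simp only [sf, Pi.smul_apply, smul_eq_mul, mul_pow, mul_sum]
  exact sum_congr rfl fun i _ => by ring

variable [Fintype K]

theorem sf_add_right (hq : Fintype.card K = q ^ 2) (x y y' : Fin 5 → K) :
    sf q x (y + y') = sf q x y + sf q x y' := by
  simp only [sf, Pi.add_apply, add_pow_q hq, mul_add, sum_add_distrib]

theorem sf_symm (hq : Fintype.card K = q ^ 2) (x y : Fin 5 → K) : sf q y x = sf q x y ^ q := by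
  have h : cj hq (∑ i, x i * y i ^ q) = ∑ i, cj hq (x i * y i ^ q) := map_sum _ _ _
  simp only [cj_apply] at h
  rw [sf, sf, h]
  refine sum_congr rfl fun i _ => ?_
  rw [mul_pow, pow_q_q hq, mul_comm]

theorem sf_nondeg (hq : Fintype.card K = q ^ 2) {y : Fin 5 → K} (h : ∀ x, sf q x y = 0) :
    y = 0 := by
  classical
  have h2 := two_le_q hq
  funext i
  have := h (Pi.single i 1)
  rw [sf, Finset.sum_eq_single i] at this
  · simp only [Pi.single_eq_same, one_mul] at this
    exact eq_zero_of_pow_eq_zero this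
  · intro j _ hj
    rw [Pi.single_eq_of_ne hj, zero_mul]
  · intro h; exact absurd (mem_univ _) h

theorem sf_nondeg' (hq : Fintype.card K = q ^ 2) {x : Fin 5 → K} (h : ∀ y, sf q x y = 0) :
    x = 0 := by
  apply sf_nondeg hq
  intro y
  have h2 := two_le_q hq
  rw [sf_symm hq x y, h, zero_pow (by omega)]

/-- independence of a pair, by hand -/
def Ind (R1 R2 : Fin 5 → K) : Prop := ∀ a b : K, a • R1 + b • R2 = 0 → a = 0 ∧ b = 0

/-- dual vectors -/
theorem exists_dual (hq : Fintype.card K = q ^ 2) {R1 R2 : Fin 5 → K} (hR : Ind R1 R2)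
    (u v : K) : ∃ x, sf q x R1 = u ∧ sf q x R2 = v := by
  have h2 := two_le_q hq
  obtain ⟨T, hT⟩ : ∃ T : (Fin 5 → K) →ₗ[K] (Fin 2 → K), ∀ x, T x = ![sf q x R1, sf q x R2] := by
    refine ⟨⟨⟨fun x => ![sf q x R1, sf q x R2], ?_⟩, ?_⟩, fun x => rfl⟩
    · intro x y
      funext i
      fin_cases i <;> simp [sf_add_left]
    · intro a x
      funext i
      fin_cases i <;> simp [sf_smul_left]
  have hsurj : Function.Surjective T := by
    rw [← LinearMap.range_eq_top]
    by_contra hne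
    obtain ⟨g, hg0, hg⟩ := Submodule.exists_dual_map_eq_bot_of_lt_top (lt_top_iff_ne_top.2 hne)
      inferInstance
    have hgT : ∀ x, g (T x) = 0 := by
      intro x
      have : g (T x) ∈ Submodule.map g (LinearMap.range T) :=
        Submodule.mem_map_of_mem (LinearMap.mem_range_self T x)
      rw [hg] at this
      simpa using this
    obtain ⟨α, hα⟩ : ∃ α, α = g (Pi.single 0 1) := ⟨_, rfl⟩
    obtain ⟨β, hβ⟩ : ∃ β, β = g (Pi.single 1 1) := ⟨_, rfl⟩
    have hgv : ∀ w : Fin 2 → K, g w = α * w 0 + β * w 1 := by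
      intro w
      have hw : w = w 0 • (Pi.single 0 1 : Fin 2 → K) + w 1 • (Pi.single 1 1 : Fin 2 → K) := by
        funext i
        fin_cases i <;> simp
      conv_lhs => rw [hw]
      rw [map_add, map_smul, map_smul, ← hα, ← hβ]
      simp only [smul_eq_mul]
      ring
    have h0 : α ^ q • R1 + β ^ q • R2 = 0 := by
      apply sf_nondeg hq
      intro x
      rw [sf_add_right hq, sf_smul_right, sf_smul_right, pow_q_q hq, pow_q_q hq]
      have := hgT x
      rw [hgv, hT] at this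
      simpa using this
    obtain ⟨h1, h3⟩ := hR _ _ h0
    have hα0 : α = 0 := eq_zero_of_pow_eq_zero h1
    have hβ0 : β = 0 := eq_zero_of_pow_eq_zero h3
    apply hg0
    apply LinearMap.ext
    intro w
    rw [hgv, hα0, hβ0]
    simp
  obtain ⟨x, hx⟩ := hsurj ![u, v]
  rw [hT] at hx
  exact ⟨x, congrFun hx 0, congrFun hx 1⟩

theorem sf_self_fix (hq : Fintype.card K = q ^ 2) (x : Fin 5 → K) : sf q x x ^ q = sf q x x :=
  (sf_symm hq x x).symm

/-- the form in frame coordinates -/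
def nf (q : ℕ) (c : K) (v : Fin 5 → K) : K :=
  v 0 * v 2 ^ q + v 2 * v 0 ^ q + v 1 * v 3 ^ q + v 3 * v 1 ^ q + c * v 4 ^ (q + 1)

theorem frame (hq : Fintype.card K = q ^ 2) {R1 R2 : Fin 5 → K} (hR : Ind R1 R2)
    (h11 : sf q R1 R1 = 0) (h12 : sf q R1 R2 = 0) (h22 : sf q R2 R2 = 0) :
    ∃ (φ : (Fin 5 → K) ≃ₗ[K] (Fin 5 → K)) (c : K), c ^ q = c ∧ c ≠ 0 ∧
      (∀ v, φ v = v 0 • R1 + v 1 • R2 + φ ![0, 0, v 2, v 3, v 4]) ∧
      ∀ u v, sf q (φ u) (φ v) = u 0 * v 2 ^ q + u 2 * v 0 ^ q + u 1 * v 3 ^ q + u 3 * v 1 ^ q +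
        c * (u 4 * v 4 ^ q) := by
  classical
  have h2 := two_le_q hq
  have hq0 : q ≠ 0 := by omega
  have h21 : sf q R2 R1 = 0 := by rw [sf_symm hq R1 R2, h12, zero_pow hq0]
  -- first dual vector
  obtain ⟨f0, hf01, hf02⟩ := exists_dual hq hR 1 0
  obtain ⟨α, hα⟩ := exists_tr hq (s := -sf q f0 f0) (by rw [neg_pow_q hq, sf_self_fix hq])
  obtain ⟨f1, hf1⟩ : ∃ f, f = f0 + α • R1 := ⟨_, rfl⟩
  have a1 : sf q f1 R1 = 1 := by rw [hf1, sf_add_left, sf_smul_left, hf01, h11]; ring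
  have a2 : sf q f1 R2 = 0 := by rw [hf1, sf_add_left, sf_smul_left, hf02, h12]; ring
  have a3 : sf q f1 f1 = 0 := by
    rw [hf1, sf_add_left, sf_smul_left, sf_add_right hq, sf_add_right hq, sf_smul_right,
      sf_smul_right, h11, hf01, sf_symm hq f0 R1, hf01, one_pow]
    linear_combination hα
  -- second dual vector
  obtain ⟨g0, hg01, hg02⟩ := exists_dual hq hR 0 1
  obtain ⟨g1, hg1⟩ : ∃ f, f = g0 + (-sf q g0 f1) • R1 := ⟨_, rfl⟩
  have a1' : sf q R1 f1 = 1 := by rw [sf_symm hq f1 R1, a1, one_pow]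
  have a2' : sf q R2 f1 = 0 := by rw [sf_symm hq f1 R2, a2, zero_pow hq0]
  have b1 : sf q g1 R1 = 0 := by rw [hg1, sf_add_left, sf_smul_left, hg01, h11]; ring
  have b2 : sf q g1 R2 = 1 := by rw [hg1, sf_add_left, sf_smul_left, hg02, h12]; ring
  have b3 : sf q g1 f1 = 0 := by rw [hg1, sf_add_left, sf_smul_left, a1']; ring
  obtain ⟨β, hβ⟩ := exists_tr hq (s := -sf q g1 g1) (by rw [neg_pow_q hq, sf_self_fix hq])
  obtain ⟨f2, hf2⟩ : ∃ f, f = g1 + β • R2 := ⟨_, rfl⟩
  have c1 : sf q f2 R1 = 0 := by rw [hf2, sf_add_left, sf_smul_left, b1, h21]; ring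
  have c2 : sf q f2 R2 = 1 := by rw [hf2, sf_add_left, sf_smul_left, b2, h22]; ring
  have c3 : sf q f2 f1 = 0 := by rw [hf2, sf_add_left, sf_smul_left, b3, a2']; ring
  have c4 : sf q f2 f2 = 0 := by
    rw [hf2, sf_add_left, sf_smul_left, sf_add_right hq, sf_add_right hq, sf_smul_right,
      sf_smul_right, h22, b2, sf_symm hq g1 R2, b2, one_pow]
    linear_combination hβ
  have c1' : sf q R1 f2 = 0 := by rw [sf_symm hq f2 R1, c1, zero_pow hq0]
  have c2' : sf q R2 f2 = 1 := by rw [sf_symm hq f2 R2, c2, one_pow]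
  have c3' : sf q f1 f2 = 0 := by rw [sf_symm hq f2 f1, c3, zero_pow hq0]
  -- the last vector
  obtain ⟨T, hT⟩ : ∃ T : (Fin 5 → K) →ₗ[K] (Fin 4 → K),
      ∀ x, T x = ![sf q x R1, sf q x R2, sf q x f1, sf q x f2] := by
    refine ⟨⟨⟨fun x => ![sf q x R1, sf q x R2, sf q x f1, sf q x f2], ?_⟩, ?_⟩, fun x => rfl⟩
    · intro x y
      funext i
      fin_cases i <;> simp [sf_add_left]
    · intro a x
      funext i
      fin_cases i <;> simp [sf_smul_left]
  obtain ⟨g, hgk, hg0⟩ := Submodule.exists_mem_ne_zero_of_ne_bot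
    (LinearMap.ker_ne_bot_of_finrank_lt (f := T) (by simp))
  rw [LinearMap.mem_ker, hT] at hgk
  have d1 : sf q g R1 = 0 := congrFun hgk 0
  have d2 : sf q g R2 = 0 := congrFun hgk 1
  have d3 : sf q g f1 = 0 := congrFun hgk 2
  have d4 : sf q g f2 = 0 := congrFun hgk 3
  have d1' : sf q R1 g = 0 := by rw [sf_symm hq g R1, d1, zero_pow hq0]
  have d2' : sf q R2 g = 0 := by rw [sf_symm hq g R2, d2, zero_pow hq0]
  have d3' : sf q f1 g = 0 := by rw [sf_symm hq g f1, d3, zero_pow hq0]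
  have d4' : sf q f2 g = 0 := by rw [sf_symm hq g f2, d4, zero_pow hq0]
  -- the linear map
  obtain ⟨Φ, hΦ⟩ : ∃ Φ : (Fin 5 → K) →ₗ[K] (Fin 5 → K),
      ∀ v, Φ v = v 0 • R1 + v 1 • R2 + v 2 • f1 + v 3 • f2 + v 4 • g := by
    refine ⟨⟨⟨fun v => v 0 • R1 + v 1 • R2 + v 2 • f1 + v 3 • f2 + v 4 • g, ?_⟩, ?_⟩,
      fun v => rfl⟩
    · intro x y
      simp only [Pi.add_apply, add_smul]
      abel
    · intro a x
      simp only [Pi.smul_apply, smul_eq_mul, RingHom.id_apply, smul_add, smul_smul]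
  have e1 : ∀ v, sf q (Φ v) R1 = v 2 := by
    intro v
    rw [hΦ, sf_add_left, sf_add_left, sf_add_left, sf_add_left, sf_smul_left, sf_smul_left,
      sf_smul_left, sf_smul_left, sf_smul_left, h11, h21, a1, c1, d1]
    ring
  have e2 : ∀ v, sf q (Φ v) R2 = v 3 := by
    intro v
    rw [hΦ, sf_add_left, sf_add_left, sf_add_left, sf_add_left, sf_smul_left, sf_smul_left,
      sf_smul_left, sf_smul_left, sf_smul_left, h12, h22, a2, c2, d2]
    ring
  have e3 : ∀ v, sf q (Φ v) f1 = v 0 := by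
    intro v
    rw [hΦ, sf_add_left, sf_add_left, sf_add_left, sf_add_left, sf_smul_left, sf_smul_left,
      sf_smul_left, sf_smul_left, sf_smul_left, a1', a2', a3, c3, d3]
    ring
  have e4 : ∀ v, sf q (Φ v) f2 = v 1 := by
    intro v
    rw [hΦ, sf_add_left, sf_add_left, sf_add_left, sf_add_left, sf_smul_left, sf_smul_left,
      sf_smul_left, sf_smul_left, sf_smul_left, c1', c2', c3', c4, d4]
    ring
  have e5 : ∀ v, sf q (Φ v) g = v 4 * sf q g g := by
    intro v
    rw [hΦ, sf_add_left, sf_add_left, sf_add_left, sf_add_left, sf_smul_left, sf_smul_left,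
      sf_smul_left, sf_smul_left, sf_smul_left, d1', d2', d3', d4']
    ring
  have hinj : Function.Injective Φ := by
    rw [injective_iff_map_eq_zero]
    intro v hv
    have z : ∀ y : Fin 5 → K, sf q 0 y = 0 := by
      intro y
      simp [sf]
    have x0 : v 0 = 0 := by rw [← e3 v, hv, z]
    have x1 : v 1 = 0 := by rw [← e4 v, hv, z]
    have x2 : v 2 = 0 := by rw [← e1 v, hv, z]
    have x3 : v 3 = 0 := by rw [← e2 v, hv, z]
    have x4 : v 4 = 0 := by
      have := hΦ v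
      rw [hv, x0, x1, x2, x3, zero_smul, zero_smul, zero_smul, zero_smul] at this
      simp only [zero_add, add_zero] at this
      rcases smul_eq_zero.1 this.symm with h | h
      · exact h
      · exact absurd h hg0
    funext i
    fin_cases i
    · exact x0
    · exact x1
    · exact x2
    · exact x3
    · exact x4
  have hcne : sf q g g ≠ 0 := by
    intro hc
    apply hg0
    apply sf_nondeg hq
    intro x
    obtain ⟨v, rfl⟩ := (LinearMap.injective_iff_surjective.1 hinj) x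
    rw [e5, hc, mul_zero]
  refine ⟨LinearEquiv.ofInjectiveEndo Φ hinj, sf q g g, sf_self_fix hq g, hcne, ?_, ?_⟩
  · intro v
    simp only [LinearEquiv.coe_ofInjectiveEndo]
    rw [hΦ, hΦ]
    simp only [Matrix.cons_val]
    rw [zero_smul, zero_smul]
    abel
  · intro u v
    simp only [LinearEquiv.coe_ofInjectiveEndo]
    have key : ∀ x : Fin 5 → K, sf q x (Φ v) = v 0 ^ q * sf q x R1 + v 1 ^ q * sf q x R2 +
        v 2 ^ q * sf q x f1 + v 3 ^ q * sf q x f2 + v 4 ^ q * sf q x g := by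
      intro x
      rw [hΦ v, sf_add_right hq, sf_add_right hq, sf_add_right hq, sf_add_right hq,
        sf_smul_right, sf_smul_right, sf_smul_right, sf_smul_right, sf_smul_right]
    rw [key, e1, e2, e3, e4, e5]
    ring

/-- an isotropic independent pair exists -/
theorem exists_pair (hq : Fintype.card K = q ^ 2) : ∃ R1 R2 : Fin 5 → K, Ind R1 R2 ∧
    sf q R1 R1 = 0 ∧ sf q R1 R2 = 0 ∧ sf q R2 R2 = 0 := by
  classical
  have h2 := two_le_q hq
  have hq0 : q ≠ 0 := by omega
  obtain ⟨u, hu⟩ := exists_norm hq (s := (-1 : K)) (by rw [neg_pow_q hq, one_pow])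
  have hu' : u * u ^ q = -1 := by rw [← hu, pow_succ, mul_comm]
  refine ⟨![1, u, 0, 0, 0], ![0, 0, 1, u, 0], ?_, ?_, ?_, ?_⟩
  · intro a b h
    have h0 := congrFun h 0
    have h2 := congrFun h 2
    simp at h0 h2
    exact ⟨h0, h2⟩
  · rw [sf, Fin.sum_univ_five]
    simp [hq0, hu']
  · rw [sf, Fin.sum_univ_five]
    simp [hq0]
  · rw [sf, Fin.sum_univ_five]
    simp [hq0, hu']

omit [Fintype K] in
theorem sf_eq (v : Fin 5 → K) : sf q v v = ∑ i, v i ^ (q + 1) := by
  rw [sf]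
  exact sum_congr rfl fun i _ => by rw [pow_succ, mul_comm]

end Pool.Agent.H566R3
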