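import Mathlib
import Pool.Agent.H566R3.Engine3
import Pool.Agent.H566R3.Frame

set_option autoImplicit false
set_option maxHeartbeats 400000

/-! # Counting in frame coordinates -/

namespace Pool.Agent.H566R3

open Finset MvPolynomial

variable {K : Type} [Field K] [Fintype K] [DecidableEq K] {q : ℕ}

/-- the chart at the point `t` of the generator -/
def chT (q : ℕ) (c : K) (P : (Fin 5 → K) → Prop) [DecidablePred P] (t : K) : ℕ :=
  ∑ w : K, ((trFib q (-(c * w ^ (q + 1))) ×ˢ (Finset.univ : Finset K)).filter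
    fun p => P ![p.1 + t * p.2, p.2, 1, -t ^ q, w]).card

/-- the chart at the last point of the generator -/
def chW (q : ℕ) (c : K) (P : (Fin 5 → K) → Prop) [DecidablePred P] : ℕ :=
  ∑ w : K, ((trFib q (-(c * w ^ (q + 1))) ×ˢ (Finset.univ : Finset K)).filter
    fun p => P ![p.2, p.1, 0, 1, w]).card

omit [Fintype K] [DecidableEq K] in
theorem nf_smul (c a : K) (v : Fin 5 → K) : nf q c (fun i => a * v i) = a ^ (q + 1) * nf q c v := by
  simp only [nf, mul_pow]
  ring

theorem decomp (hq : Fintype.card K = q ^ 2) {c : K} (hc0 : c ≠ 0)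
    (P : (Fin 5 → K) → Prop) [DecidablePred P]
    (hP : ∀ a : K, a ≠ 0 → ∀ v, P v → P (fun i => a * v i)) :
    ((Finset.univ : Finset (Fin 5 → K)).filter fun v => v ≠ 0 ∧ P v ∧ nf q c v = 0).card =
      ((Finset.univ : Finset (K × K)).filter fun p => p ≠ 0 ∧ P ![p.1, p.2, 0, 0, 0]).card +
      (Fintype.card K - 1) * (∑ t : K, chT q c P t + chW q c P) := by
  have h2 := two_le_q hq
  have hq0 : q ≠ 0 := by omega
  obtain ⟨S, hS⟩ : ∃ S : Finset (Fin 5 → K),
    S = Finset.univ.filter fun v => v ≠ 0 ∧ P v ∧ nf q c v = 0 := ⟨_, rfl⟩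
  rw [← hS]
  have hcone : ∀ a : K, a ≠ 0 → ∀ v ∈ S, (fun j => a * v j) ∈ S := by
    intro a ha v hv
    rw [hS, mem_filter] at hv ⊢
    refine ⟨mem_univ _, ?_, hP a ha v hv.2.2.1, ?_⟩
    · intro h
      apply hv.2.1
      funext j
      have := congrFun h j
      simp only [Pi.zero_apply, mul_eq_zero, ha, false_or] at this
      exact this
    · rw [nf_smul, hv.2.2.2, mul_zero]
  have hcone' : ∀ a : K, a ≠ 0 → ∀ v ∈ S.filter (fun v => ¬ v 2 ≠ 0),
      (fun j => a * v j) ∈ S.filter (fun v => ¬ v 2 ≠ 0) := by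
    intro c hc v hv
    rw [mem_filter] at hv ⊢
    refine ⟨hcone c hc v hv.1, ?_⟩
    have := hv.2
    simp only [ne_eq, not_not] at this ⊢
    rw [this, mul_zero]
  have e1 := card_scale S hcone 2
  have e2 := card_scale (S.filter (fun v => ¬ v 2 ≠ 0)) hcone' 3
  have e3 : (S.filter (fun v => v 2 ≠ 0)).card + ((S.filter (fun v => ¬ v 2 ≠ 0))).card = S.card :=
    card_filter_add_card_filter_not _
  have e4 : ((S.filter (fun v => ¬ v 2 ≠ 0)).filter fun v => v 3 ≠ 0).card +
      ((S.filter (fun v => ¬ v 2 ≠ 0)).filter fun v => ¬ v 3 ≠ 0).card =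
      (S.filter (fun v => ¬ v 2 ≠ 0)).card := card_filter_add_card_filter_not _
  have f1 : (S.filter fun v => v 2 = 1).card = ∑ t : K, chT q c P t := by
    have : ∑ t : K, chT q c P t = ((Finset.univ : Finset K).sigma fun t =>
        (Finset.univ : Finset K).sigma fun w =>
        ((trFib q (-(c * w ^ (q + 1))) ×ˢ (Finset.univ : Finset K)).filter
          fun p => P ![p.1 + t * p.2, p.2, 1, -t ^ q, w])).card := by
      rw [card_sigma]
      refine sum_congr rfl fun t _ => ?_
      rw [card_sigma, chT]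
    rw [this]
    symm
    refine card_bij (fun x _ => ![x.2.2.1 + x.1 * x.2.2.2, x.2.2.2, 1, -x.1 ^ q, x.2.1]) ?_ ?_ ?_
    · rintro ⟨t, w, τ, lam⟩ hx
      simp only [mem_sigma, mem_univ, mem_filter, mem_product, mem_trFib, true_and, and_true]
        at hx
      simp only [hS, mem_filter, mem_univ, true_and]
      refine ⟨⟨?_, hx.2, ?_⟩, rfl⟩
      · intro h
        exact one_ne_zero (congrFun h 2)
      · rw [nf]
        simp only [Matrix.cons_val]
        rw [add_pow_q hq, neg_pow_q hq, pow_q_q hq, mul_pow, one_pow]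
        linear_combination hx.1
    · rintro ⟨t, w, τ, lam⟩ _ ⟨t', w', τ', lam'⟩ _ h
      have h0 := congrFun h 0
      have h1 : lam = lam' := congrFun h 1
      have h3 : -t ^ q = -t' ^ q := congrFun h 3
      have h4 : w = w' := congrFun h 4
      have h5 : t = t' := by
        have := congrArg (fun x => x ^ q) (neg_injective h3)
        simp only [pow_q_q hq] at this
        exact this
      subst h1 h4 h5
      simp only [Matrix.cons_val_zero, add_left_inj] at h0
      rw [h0]
    · intro v hv
      rw [mem_filter, hS, mem_filter] at hv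
      obtain ⟨⟨_, hv0, hvP, hvn⟩, hv2⟩ := hv
      have h3 : -(-v 3 ^ q) ^ q = v 3 := by rw [neg_pow_q hq, pow_q_q hq, neg_neg]
      have hvv : v = ![(v 0 + v 3 ^ q * v 1) + (-v 3 ^ q) * v 1, v 1, 1, -(-v 3 ^ q) ^ q, v 4] := by
        funext i
        fin_cases i
        · simp
        · rfl
        · exact hv2
        · exact h3.symm
        · rfl
      refine ⟨⟨-v 3 ^ q, v 4, v 0 + v 3 ^ q * v 1, v 1⟩, ?_, hvv.symm⟩
      simp only [mem_sigma, mem_univ, mem_filter, mem_product, mem_trFib, true_and, and_true]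
      refine ⟨?_, ?_⟩
      · rw [nf, hv2] at hvn
        rw [add_pow_q hq, mul_pow, pow_q_q hq]
        linear_combination hvn
      · rw [← hvv]
        exact hvP
  have f2 : ((S.filter (fun v => ¬ v 2 ≠ 0)).filter fun v => v 3 = 1).card = chW q c P := by
    have : chW q c P = (
        (Finset.univ : Finset K).sigma fun w =>
        ((trFib q (-(c * w ^ (q + 1))) ×ˢ (Finset.univ : Finset K)).filter
          fun p => P ![p.2, p.1, 0, 1, w])).card := by
      rw [card_sigma, chW]
    rw [this]
    symm
    refine card_bij (fun x _ => ![x.2.2, x.2.1, 0, 1, x.1]) ?_ ?_ ?_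
    · rintro ⟨w, τ, lam⟩ hx
      simp only [mem_sigma, mem_univ, mem_filter, mem_product, mem_trFib, true_and, and_true]
        at hx
      simp only [hS, mem_filter, mem_univ, true_and]
      refine ⟨⟨⟨?_, hx.2, ?_⟩, by simp⟩, rfl⟩
      · intro h
        exact one_ne_zero (congrFun h 3)
      · rw [nf]
        simp only [Matrix.cons_val]
        rw [zero_pow hq0, one_pow]
        linear_combination hx.1
    · rintro ⟨w, τ, lam⟩ _ ⟨w', τ', lam'⟩ _ h
      have h0 : lam = lam' := congrFun h 0
      have h1 : τ = τ' := congrFun h 1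
      have h4 : w = w' := congrFun h 4
      subst h0 h1 h4
      rfl
    · intro v hv
      simp only [mem_filter, hS, not_not, ne_eq, mem_univ, true_and] at hv
      obtain ⟨⟨⟨hv0, hvP, hvn⟩, hv2⟩, hv3⟩ := hv
      have hvv : v = ![v 0, v 1, 0, 1, v 4] := by
        funext i
        fin_cases i
        · rfl
        · rfl
        · exact hv2
        · exact hv3
        · rfl
      refine ⟨⟨v 4, v 1, v 0⟩, ?_, hvv.symm⟩
      simp only [mem_sigma, mem_univ, mem_filter, mem_product, mem_trFib, true_and, and_true]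
      refine ⟨?_, ?_⟩
      · rw [nf, hv2, hv3, zero_pow hq0, one_pow] at hvn
        linear_combination hvn
      · rw [← hvv]
        exact hvP
  have f3 : ((S.filter (fun v => ¬ v 2 ≠ 0)).filter fun v => ¬ v 3 ≠ 0).card =
      ((Finset.univ : Finset (K × K)).filter fun p => p ≠ 0 ∧ P ![p.1, p.2, 0, 0, 0]).card := by
    symm
    refine card_bij (fun x _ => ![x.1, x.2, 0, 0, 0]) ?_ ?_ ?_
    · rintro ⟨a, b⟩ hx
      simp only [mem_filter, mem_univ, true_and] at hx
      simp only [hS, mem_filter, mem_univ, true_and]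
      refine ⟨⟨⟨?_, hx.2, ?_⟩, by simp⟩, by simp⟩
      · intro h
        apply hx.1
        have h0 : a = 0 := congrFun h 0
        have h1 : b = 0 := congrFun h 1
        rw [h0, h1]; rfl
      · rw [nf]
        simp [hq0]
    · rintro ⟨a, b⟩ _ ⟨a', b'⟩ _ h
      have h0 : a = a' := congrFun h 0
      have h1 : b = b' := congrFun h 1
      rw [h0, h1]
    · intro v hv
      simp only [mem_filter, hS, not_not, ne_eq, mem_univ, true_and] at hv
      obtain ⟨⟨⟨hv0, hvP, hvn⟩, hv2⟩, hv3⟩ := hv
      have hv4 : v 4 = 0 := by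
        rw [nf, hv2, hv3, zero_pow hq0] at hvn
        simp only [mul_zero, zero_mul, add_zero, zero_add] at hvn
        rcases mul_eq_zero.1 hvn with h | h
        · exact absurd h hc0
        · exact eq_zero_of_pow_eq_zero h
      have hvv : v = ![v 0, v 1, 0, 0, 0] := by
        funext i
        fin_cases i
        · rfl
        · rfl
        · exact hv2
        · exact hv3
        · exact hv4
      refine ⟨(v 0, v 1), ?_, hvv.symm⟩
      simp only [mem_filter, mem_univ, true_and]
      refine ⟨?_, ?_⟩
      · intro h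
        apply hv0
        rw [hvv]
        have h0 : v 0 = 0 := congrArg Prod.fst h
        have h1 : v 1 = 0 := congrArg Prod.snd h
        rw [h0, h1]
        funext i
        fin_cases i <;> rfl
      · rw [← hvv]
        exact hvP
  rw [← e3, ← e4, e1, e2, f1, f2, f3]
  ring

end Pool.Agent.H566R3
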