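import Mathlib
import Pool.Agent.H566R3.Count

set_option autoImplicit false
set_option maxHeartbeats 400000

/-! # Hypersurfaces containing no generator, and transfer to frames -/

namespace Pool.Agent.H566R3

open Finset MvPolynomial

variable {K : Type} [Field K] [Fintype K] [DecidableEq K] {q : ℕ}

/-- an independent totally isotropic pair -/
def Iso (q : ℕ) (R1 R2 : Fin 5 → K) : Prop :=
  Ind R1 R2 ∧ sf q R1 R1 = 0 ∧ sf q R1 R2 = 0 ∧ sf q R2 R2 = 0

/-- the number of points of a line on a hypersurface -/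
noncomputable def mm (F : MvPolynomial (Fin 5) K) (R1 R2 : Fin 5 → K) : ℕ :=
  ((Finset.univ : Finset K).filter fun lam => eval (R2 + lam • R1) F = 0).card +
    (if eval R1 F = 0 then 1 else 0)

theorem mm_le {F : MvPolynomial (Fin 5) K} {D : ℕ} (hF : F.IsHomogeneous D) (hD : 1 ≤ D)
    {R1 R2 : Fin 5 → K} (hne : ∃ a b : K, eval (a • R1 + b • R2) F ≠ 0)
    (hDq : D < Fintype.card K) : mm F R1 R2 ≤ D := by
  have hfun : ∀ x : K, (fun i => R1 i * x + R2 i) = R2 + x • R1 := by
    intro x
    funext i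
    simp only [Pi.add_apply, Pi.smul_apply, smul_eq_mul]
    ring
  have hex : ∃ x, eval (fun i => R1 i * x + R2 i) F ≠ 0 := by
    by_contra hcon
    push Not at hcon
    have h0 : lineP R1 R2 F = 0 := by
      by_contra h0
      have h1 := card_roots_aux _ h0 Finset.univ fun x _ => by rw [eval_lineP]; exact hcon x
      have h2 := (lineP_homog R1 R2 hF).1
      rw [card_univ] at h1
      omega
    have h3 : eval R1 F = 0 := by
      have := (lineP_homog R1 R2 hF).2
      rw [h0, Polynomial.coeff_zero] at this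
      exact this.symm
    obtain ⟨a, b, hab⟩ := hne
    apply hab
    rcases eq_or_ne b 0 with hb | hb
    · have h4 := homog_smul hF a R1
      rw [h3, mul_zero] at h4
      refine (congrArg (fun v => eval v F) ?_).trans h4
      funext i
      simp [hb]
    · have h4 := homog_smul hF b (fun i => R1 i * (b⁻¹ * a) + R2 i)
      rw [hcon, mul_zero] at h4
      refine (congrArg (fun v => eval v F) ?_).trans h4
      funext i
      simp only [Pi.add_apply, Pi.smul_apply, smul_eq_mul]
      field_simp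
  rw [mm]
  by_cases h1 : eval R1 F = 0
  · rw [if_pos h1]
    rcases card_line_lt R1 R2 hF h1 hex (Finset.univ.filter fun lam => eval (R2 + lam • R1) F = 0)
      (by
        intro x hx
        rw [mem_filter] at hx
        rw [hfun]; exact hx.2) with h | h
    · exact h
    · omega
  · rw [if_neg h1, add_zero]
    exact card_line_le R1 R2 hF hex _ (by
        intro x hx
        rw [mem_filter] at hx
        rw [hfun]; exact hx.2)

theorem line_count {F : MvPolynomial (Fin 5) K} {D : ℕ} (hF : F.IsHomogeneous D)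
    (R1 R2 : Fin 5 → K) : ((Finset.univ : Finset (K × K)).filter
      fun p => p ≠ 0 ∧ eval (p.1 • R1 + p.2 • R2) F = 0).card ≤
      (Fintype.card K - 1) * mm F R1 R2 := by
  have h1 : Fintype.card K - 1 = ((Finset.univ : Finset K).erase 0).card := by
    rw [card_erase_of_mem (mem_univ _), card_univ]
  obtain ⟨A, hA⟩ : ∃ A : Finset (K × K), A = (((Finset.univ : Finset K).erase 0) ×ˢ
    ((Finset.univ : Finset K).filter fun lam => eval (R2 + lam • R1) F = 0)).image
      fun p => (p.1 * p.2, p.1) := ⟨_, rfl⟩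
  obtain ⟨B, hB⟩ : ∃ B : Finset (K × K), B = if eval R1 F = 0 then
    ((Finset.univ : Finset K).erase 0).image (fun a => (a, (0 : K))) else ∅ := ⟨_, rfl⟩
  have hA' : A.card ≤ (Fintype.card K - 1) *
      ((Finset.univ : Finset K).filter fun lam => eval (R2 + lam • R1) F = 0).card := by
    rw [hA, h1, ← card_product]
    exact card_image_le
  have hB' : B.card ≤ (Fintype.card K - 1) * (if eval R1 F = 0 then 1 else 0) := by
    rw [hB]
    split_ifs
    · rw [mul_one, h1]
      exact card_image_le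
    · simp
  have hsub : ((Finset.univ : Finset (K × K)).filter
      fun p => p ≠ 0 ∧ eval (p.1 • R1 + p.2 • R2) F = 0) ⊆ A ∪ B := by
    rintro ⟨a, b⟩ hp
    simp only [mem_filter, mem_univ, true_and] at hp
    rw [mem_union]
    rcases eq_or_ne b 0 with hb | hb
    · right
      have ha : a ≠ 0 := by
        intro ha
        apply hp.1
        rw [ha, hb]; rfl
      have h3 : eval R1 F = 0 := by
        have h4 := homog_smul hF a R1
        have h5 : a ^ D * eval R1 F = 0 := by
          rw [← h4]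
          refine (congrArg (fun v => eval v F) ?_).trans hp.2
          funext i
          simp [hb]
        exact (mul_eq_zero.1 h5).resolve_left (pow_ne_zero _ ha)
      rw [hB, if_pos h3, mem_image]
      exact ⟨a, mem_erase.2 ⟨ha, mem_univ _⟩, by rw [hb]⟩
    · left
      rw [hA, mem_image]
      refine ⟨(b, b⁻¹ * a), ?_, ?_⟩
      · rw [mem_product, mem_filter]
        refine ⟨mem_erase.2 ⟨hb, mem_univ _⟩, mem_univ _, ?_⟩
        have h4 := homog_smul hF b (R2 + (b⁻¹ * a) • R1)
        have h5 : b ^ D * eval (R2 + (b⁻¹ * a) • R1) F = 0 := by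
          rw [← h4]
          refine (congrArg (fun v => eval v F) ?_).trans hp.2
          funext i
          simp only [Pi.add_apply, Pi.smul_apply, smul_eq_mul]
          field_simp
          ring
        exact (mul_eq_zero.1 h5).resolve_left (pow_ne_zero _ hb)
      · simp only [Prod.mk.injEq, and_true]
        field_simp
  calc _ ≤ (A ∪ B).card := card_le_card hsub
    _ ≤ A.card + B.card := card_union_le _ _
    _ ≤ _ := by
        rw [mm, Nat.mul_add]
        exact Nat.add_le_add hA' hB'

theorem transfer {c : K} (φ : (Fin 5 → K) ≃ₗ[K] (Fin 5 → K))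
    (hφ : ∀ v, sf q (φ v) (φ v) = nf q c v) (P : (Fin 5 → K) → Prop) [DecidablePred P] :
    ((Finset.univ : Finset (Fin 5 → K)).filter fun v => v ≠ 0 ∧ P v ∧ sf q v v = 0).card =
    ((Finset.univ : Finset (Fin 5 → K)).filter fun v => v ≠ 0 ∧ P (φ v) ∧ nf q c v = 0).card := by
  symm
  refine card_bij (fun v _ => φ v) ?_ ?_ ?_
  · intro v hv
    simp only [mem_filter, mem_univ, true_and] at hv ⊢
    refine ⟨?_, hv.2.1, ?_⟩
    · intro h
      exact hv.1 (φ.map_eq_zero_iff.1 h)
    · rw [hφ]; exact hv.2.2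
  · intro v _ v' _ h
    exact φ.injective h
  · intro v hv
    simp only [mem_filter, mem_univ, true_and] at hv
    refine ⟨φ.symm v, ?_, φ.apply_symm_apply v⟩
    simp only [mem_filter, mem_univ, true_and]
    refine ⟨?_, ?_, ?_⟩
    · intro h
      exact hv.1 (φ.symm.map_eq_zero_iff.1 h)
    · rw [φ.apply_symm_apply]; exact hv.2.1
    · rw [← hφ, φ.apply_symm_apply]; exact hv.2.2

omit [Fintype K] [DecidableEq K] in
theorem nf_of_sf {c : K} {φ : (Fin 5 → K) ≃ₗ[K] (Fin 5 → K)}
    (hφ : ∀ u v, sf q (φ u) (φ v) = u 0 * v 2 ^ q + u 2 * v 0 ^ q + u 1 * v 3 ^ q +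
      u 3 * v 1 ^ q + c * (u 4 * v 4 ^ q)) (v : Fin 5 → K) : sf q (φ v) (φ v) = nf q c v := by
  rw [hφ, nf, pow_succ]
  ring

theorem case0 (hq : Fintype.card K = q ^ 2) {F : MvPolynomial (Fin 5) K} {D : ℕ}
    (hF : F.IsHomogeneous D) (hD : 1 ≤ D) (hDq : D < Fintype.card K)
    (hno : ∀ R1 R2, Iso q R1 R2 → ∃ a b : K, eval (a • R1 + b • R2) F ≠ 0) :
    ((Finset.univ : Finset (Fin 5 → K)).filter
      fun v => v ≠ 0 ∧ eval v F = 0 ∧ sf q v v = 0).card ≤
      (Fintype.card K - 1) * (D * (q ^ 5 + 1)) := by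
  classical
  have h2 := two_le_q hq
  have hq0 : q ≠ 0 := by omega
  -- maximal pair
  have hne : ((Finset.univ : Finset ((Fin 5 → K) × (Fin 5 → K))).filter
      fun p => Iso q p.1 p.2).Nonempty := by
    obtain ⟨R1, R2, h⟩ := exists_pair (K := K) hq
    exact ⟨(R1, R2), mem_filter.2 ⟨mem_univ _, h⟩⟩
  obtain ⟨p, hp, hmax⟩ := exists_max_image _ (fun p : (Fin 5 → K) × (Fin 5 → K) =>
    mm F p.1 p.2) hne
  rw [mem_filter] at hp
  obtain ⟨R1, R2⟩ := p
  have hiso : Iso q R1 R2 := hp.2
  obtain ⟨k, hk⟩ : ∃ k, k = mm F R1 R2 := ⟨_, rfl⟩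
  have hkD : k ≤ D := by
    rw [hk]
    exact mm_le hF hD (hno _ _ hiso) hDq
  have hmax' : ∀ R1 R2, Iso q R1 R2 → mm F R1 R2 ≤ k := by
    intro A B hAB
    rw [hk]
    exact hmax (A, B) (mem_filter.2 ⟨mem_univ _, hAB⟩)
  obtain ⟨φ, c, hc, hc0, hφ1, hφ2⟩ := frame hq hiso.1 hiso.2.1 hiso.2.2.1 hiso.2.2.2
  have hφ3 := nf_of_sf hφ2
  have hv0 : φ ![0, 0, 0, 0, 0] = 0 := by
    have : (![0, 0, 0, 0, 0] : Fin 5 → K) = 0 := by
      funext i
      fin_cases i <;> rfl
    rw [this, map_zero]
  have hφl : ∀ a b : K, φ ![a, b, 0, 0, 0] = a • R1 + b • R2 := by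
    intro a b
    rw [hφ1]
    simp only [Matrix.cons_val]
    rw [hv0, add_zero]
  rw [transfer φ hφ3 fun v => eval v F = 0]
  rw [decomp hq hc0 (fun v => eval (φ v) F = 0) (by
    intro a ha v hv
    have h1 : φ (fun i => a * v i) = fun i => a * φ v i := by
      have : (fun i => a * v i) = a • v := rfl
      rw [this, map_smul]
      rfl
    rw [h1, homog_smul hF, hv, mul_zero])]
  have g1 : ((Finset.univ : Finset (K × K)).filter fun p => p ≠ 0 ∧
      eval (φ ![p.1, p.2, 0, 0, 0]) F = 0).card ≤ (Fintype.card K - 1) * k := by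
    rw [hk]
    refine le_trans (le_of_eq ?_) (line_count hF R1 R2)
    congr 1
    ext p
    simp only [mem_filter, mem_univ, true_and, hφl]
  -- general local bound
  have hloc : ∀ u v : Fin 5 → K, Iso q (φ u) (φ v) →
      ((Finset.univ : Finset K).filter fun lam => eval (φ (v + lam • u)) F = 0).card +
        (if eval (φ u) F = 0 then 1 else 0) ≤ k := by
    intro u v huv
    refine le_trans (le_of_eq ?_) (hmax' _ _ huv)
    rw [mm]
    congr 2
    ext lam
    simp only [mem_filter, mem_univ, true_and, map_add, map_smul]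
  have hind : ∀ u v : Fin 5 → K, Ind u v → Ind (φ u) (φ v) := by
    intro u v huv a b hab
    apply huv
    rw [← φ.map_eq_zero_iff, map_add, map_smul, map_smul]
    exact hab
  have hloct : ∀ t w τ : K, τ ∈ trFib q (-(c * w ^ (q + 1))) →
      ((Finset.univ : Finset K).filter fun lam =>
        eval (φ ![τ + t * lam, lam, 1, -t ^ q, w]) F = 0).card +
        (if eval (φ ![t, 1, 0, 0, 0]) F = 0 then 1 else 0) ≤ k := by
    intro t w τ hτ
    rw [mem_trFib] at hτ
    refine le_trans (le_of_eq ?_) (hloc ![t, 1, 0, 0, 0] ![τ, 0, 1, -t ^ q, w] ⟨?_, ?_, ?_, ?_⟩)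
    · congr 2
      ext lam
      simp only [mem_filter, mem_univ, true_and]
      have : (![τ + t * lam, lam, 1, -t ^ q, w] : Fin 5 → K) =
          ![τ, 0, 1, -t ^ q, w] + lam • ![t, 1, 0, 0, 0] := by
        funext i
        fin_cases i <;> simp [mul_comm]
      rw [this]
    · apply hind
      intro a b hab
      have h3 := congrFun hab 2
      have h4 := congrFun hab 1
      simp at h3 h4
      exact ⟨h4, h3⟩
    · rw [hφ2]; simp [hq0]
    · rw [hφ2]
      simp only [Matrix.cons_val]
      rw [neg_pow_q hq, pow_q_q hq]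
      simp [hq0]
    · rw [hφ2]
      simp only [Matrix.cons_val]
      rw [one_pow, zero_pow hq0]
      rw [pow_succ] at hτ
      linear_combination hτ
  have hlocw : ∀ w τ : K, τ ∈ trFib q (-(c * w ^ (q + 1))) →
      ((Finset.univ : Finset K).filter fun lam =>
        eval (φ ![lam, τ, 0, 1, w]) F = 0).card +
        (if eval (φ ![1, 0, 0, 0, 0]) F = 0 then 1 else 0) ≤ k := by
    intro w τ hτ
    rw [mem_trFib] at hτ
    refine le_trans (le_of_eq ?_) (hloc ![1, 0, 0, 0, 0] ![0, τ, 0, 1, w] ⟨?_, ?_, ?_, ?_⟩)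
    · congr 2
      ext lam
      simp only [mem_filter, mem_univ, true_and]
      have : (![lam, τ, 0, 1, w] : Fin 5 → K) =
          ![0, τ, 0, 1, w] + lam • ![1, 0, 0, 0, 0] := by
        funext i
        fin_cases i <;> simp
      rw [this]
    · apply hind
      intro a b hab
      have h3 := congrFun hab 3
      have h4 := congrFun hab 0
      simp at h3 h4
      exact ⟨h4, h3⟩
    · rw [hφ2]; simp [hq0]
    · rw [hφ2]
      simp [hq0]
    · rw [hφ2]
      simp only [Matrix.cons_val]
      rw [one_pow, zero_pow hq0]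
      rw [pow_succ] at hτ
      linear_combination hτ
  have hcardT : ∀ w : K, (trFib q (-(c * w ^ (q + 1)))).card = q := fun w => card_T hq hc w
  have hprod : ∀ (T : Finset K) (g : K → K → Prop) [∀ a b, Decidable (g a b)] (ε : ℕ),
      T.card = q → (∀ τ ∈ T, ((Finset.univ : Finset K).filter fun lam => g τ lam).card + ε ≤ k) →
      ((T ×ˢ (Finset.univ : Finset K)).filter fun p => g p.1 p.2).card + q * ε ≤ q * k := by
    intro T g _ ε hT hg
    have h1 : ((T ×ˢ (Finset.univ : Finset K)).filter fun p => g p.1 p.2).card =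
        ∑ τ ∈ T, ((Finset.univ : Finset K).filter fun lam => g τ lam).card := by
      rw [card_filter, sum_product]
      refine sum_congr rfl fun τ _ => ?_
      rw [card_filter]
    have h3 := sum_le_sum hg
    rw [sum_add_distrib, sum_const, sum_const, hT, smul_eq_mul, smul_eq_mul, ← h1] at h3
    exact h3
  have hT' : ∀ t : K, chT q c (fun v => eval (φ v) F = 0) t +
      q ^ 3 * (if eval (φ ![t, 1, 0, 0, 0]) F = 0 then 1 else 0) ≤ q ^ 3 * k := by
    intro t
    have h3 := sum_le_sum fun (w : K) (_ : w ∈ Finset.univ) =>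
      hprod (trFib q (-(c * w ^ (q + 1))))
      (fun τ lam => eval (φ ![τ + t * lam, lam, 1, -t ^ q, w]) F = 0) _ (hcardT w)
      (hloct t w)
    rw [sum_add_distrib, sum_const, sum_const, card_univ, hq, smul_eq_mul, smul_eq_mul] at h3
    have e1 : ∀ x : ℕ, q ^ 3 * x = q ^ 2 * (q * x) := fun x => by ring
    rw [e1, e1, chT]
    exact h3
  have hW' : chW q c (fun v => eval (φ v) F = 0) +
      q ^ 3 * (if eval (φ ![1, 0, 0, 0, 0]) F = 0 then 1 else 0) ≤ q ^ 3 * k := by
    have h3 := sum_le_sum fun (w : K) (_ : w ∈ Finset.univ) =>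
      hprod (trFib q (-(c * w ^ (q + 1))))
      (fun τ lam => eval (φ ![lam, τ, 0, 1, w]) F = 0) _ (hcardT w)
      (hlocw w)
    rw [sum_add_distrib, sum_const, sum_const, card_univ, hq, smul_eq_mul, smul_eq_mul] at h3
    have e1 : ∀ x : ℕ, q ^ 3 * x = q ^ 2 * (q * x) := fun x => by ring
    rw [e1, e1, chW]
    exact h3
  have hsum := sum_le_sum fun (t : K) (_ : t ∈ Finset.univ) => hT' t
  rw [sum_add_distrib, ← mul_sum, sum_const, card_univ, hq, smul_eq_mul] at hsum
  have hkk : k = (∑ t : K, if eval (φ ![t, 1, 0, 0, 0]) F = 0 then 1 else 0) +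
      (if eval (φ ![1, 0, 0, 0, 0]) F = 0 then 1 else 0) := by
    rw [hk, mm, card_filter]
    congr 1
    · refine sum_congr rfl fun t _ => ?_
      rw [hφl, one_smul, add_comm]
    · rw [hφl, one_smul, zero_smul, add_zero]
  have hfin : k + (∑ t : K, chT q c (fun v => eval (φ v) F = 0) t +
      chW q c (fun v => eval (φ v) F = 0)) ≤ D * (q ^ 5 + 1) := by
    have h5 : k + (∑ t : K, chT q c (fun v => eval (φ v) F = 0) t +
      chW q c (fun v => eval (φ v) F = 0)) ≤ k * (q ^ 5 + 1) := by
      have e : q ^ 2 * (q ^ 3 * k) + q ^ 3 * k = q ^ 5 * k + q ^ 3 * ((∑ t : K,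
        if eval (φ ![t, 1, 0, 0, 0]) F = 0 then 1 else 0) +
        (if eval (φ ![1, 0, 0, 0, 0]) F = 0 then 1 else 0)) := by rw [← hkk]; ring
      rw [Nat.mul_add] at e
      have e2 : k * (q ^ 5 + 1) = q ^ 5 * k + k := by ring
      rw [e2]
      omega
    exact h5.trans (Nat.mul_le_mul_right _ hkD)
  calc _ ≤ (Fintype.card K - 1) * k + (Fintype.card K - 1) *
        (∑ t : K, chT q c (fun v => eval (φ v) F = 0) t +
          chW q c (fun v => eval (φ v) F = 0)) := Nat.add_le_add_right g1 _
    _ = (Fintype.card K - 1) * (k + (∑ t : K, chT q c (fun v => eval (φ v) F = 0) t +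
          chW q c (fun v => eval (φ v) F = 0))) := by ring
    _ ≤ _ := Nat.mul_le_mul_left _ hfin

end Pool.Agent.H566R3
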