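import Mathlib
import Pool.Agent.H566R3.Case0

set_option autoImplicit false
set_option maxHeartbeats 400000

/-! # Hypersurfaces containing a generator -/

namespace Pool.Agent.H566R3

open Finset MvPolynomial

variable {K : Type} [Field K] [Fintype K] [DecidableEq K] {q : ℕ}

theorem chT_eq {G : MvPolynomial (Fin 5) K} {D : ℕ} (hG : G.IsHomogeneous D) (hDq : D ≤ q)
    (c t : K) : chT q c (fun v => eval v G = 0) t = nloc q (q + 1) c (arr (Ut q t G) D) := by
  rw [chT, nloc]
  refine sum_congr rfl fun w _ => ?_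
  congr 1
  ext p
  simp only [mem_filter]
  rw [← eval_arr (homog_ut hG q t) (by omega), eval_ut]
  simp only [Matrix.cons_val, mul_one, zero_sub]

theorem chW_eq {G : MvPolynomial (Fin 5) K} {D : ℕ} (hG : G.IsHomogeneous D) (hDq : D ≤ q)
    (c : K) : chW q c (fun v => eval v G = 0) = nloc q (q + 1) c (arr (Wt G) D) := by
  rw [chW, nloc]
  refine sum_congr rfl fun w _ => ?_
  congr 1
  ext p
  simp only [mem_filter]
  rw [← eval_arr (homog_wt hG) (by omega), eval_wt]
  simp only [Matrix.cons_val]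

omit [DecidableEq K] in
theorem top_zero_of_line {G : MvPolynomial (Fin 5) K} {D : ℕ} (hG : G.IsHomogeneous D)
    (hD : D < Fintype.card K) (hline : ∀ a b : K, eval ![a, b, 0, 0, 0] G = 0)
    (s : Fin 5 →₀ ℕ) (hs : coeff s G ≠ 0) : s 0 + s 1 < D := by
  have h5 := homog_sum hG hs
  by_contra hcon
  have hsD : s 0 + s 1 = D := by omega
  have h0 : top G D ≠ 0 := by
    intro h
    have := coeff_top G D s
    rw [h, coeff_zero, if_pos hsD] at this
    exact hs this.symm
  obtain ⟨v, hv⟩ := exists_eval_ne (top_homog hG D) h0 hD.le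
  apply hv
  have h1 : eval ![v 0, v 1, 0, 0, 0] (top G D) = eval v (top G D) := by
    rw [eval_five, eval_five]
    refine sum_congr rfl fun s hs => ?_
    rw [mem_support_iff, coeff_top] at hs
    split_ifs at hs with h
    · have h2 := homog_sum hG hs
      have e2 : s 2 = 0 := by omega
      have e3 : s 3 = 0 := by omega
      have e4 : s 4 = 0 := by omega
      simp [e2, e3, e4]
    · exact absurd rfl hs
  rw [← h1]
  have h2 : eval ![v 0, v 1, 0, 0, 0] (top G D) = eval ![v 0, v 1, 0, 0, 0] G := by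
    rw [eval_five, eval_five]
    have hsub : (top G D).support ⊆ G.support := by
      intro s hs
      rw [mem_support_iff, coeff_top] at hs
      rw [mem_support_iff]
      split_ifs at hs with h
      · exact hs
      · exact absurd rfl hs
    refine (sum_subset hsub ?_).trans ?_
    · intro s _ hs
      rw [mem_support_iff, not_not] at hs
      rw [hs, zero_mul]
    · refine sum_congr rfl fun s hs => ?_
      rw [coeff_top]
      split_ifs with h
      · rfl
      · rw [mem_support_iff] at hs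
        have h2 := homog_sum hG hs
        rw [zero_mul]
        symm
        rcases Nat.eq_zero_or_pos (s 2) with e2 | e2
        · rcases Nat.eq_zero_or_pos (s 3) with e3 | e3
          · have e4 : s 4 ≠ 0 := by omega
            simp [e4]
          · have e4 : s 3 ≠ 0 := by omega
            simp [e4]
        · have e4 : s 2 ≠ 0 := by omega
          simp [e4]
  rw [h2, hline]

theorem gen_frame (hq : Fintype.card K = q ^ 2) {c : K} (hc : c ^ q = c) (hc0 : c ≠ 0)
    {G : MvPolynomial (Fin 5) K} {D : ℕ} (hG : G.IsHomogeneous D) (hDq : D ≤ q)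
    (hNL : NL G) (hline : ∀ a b : K, eval ![a, b, 0, 0, 0] G = 0) :
    ((Finset.univ : Finset (Fin 5 → K)).filter
      fun v => v ≠ 0 ∧ eval v G = 0 ∧ nf q c v = 0).card ≤
      (Fintype.card K - 1) * (D * (q ^ 5 + q ^ 2) + if D = q then q ^ 3 + 1 else 0) := by
  classical
  have h2 := two_le_q hq
  have hDc : D < Fintype.card K := by rw [hq]; nlinarith
  obtain ⟨v, _, hv⟩ := hNL ![1, 0, 0, 0, 0] (by
    intro h
    exact one_ne_zero (congrFun h 0))
  have hG0 : G ≠ 0 := by
    rintro rfl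
    exact hv (map_zero _)
  have hsupp : G.support.Nonempty := by
    rwa [Finset.nonempty_iff_ne_empty, Ne, MvPolynomial.support_eq_empty]
  obtain ⟨s₀, hs₀, hmax⟩ := exists_max_image _ (fun s : Fin 5 →₀ ℕ => s 0 + s 1) hsupp
  rw [mem_support_iff] at hs₀
  have hlt := top_zero_of_line hG hDc hline s₀ hs₀
  obtain ⟨e, he⟩ : ∃ e, e = s₀ 0 + s₀ 1 := ⟨_, rfl⟩
  obtain ⟨κ, hκ⟩ : ∃ κ, κ = D - e := ⟨_, rfl⟩
  have hE := engine (e := e) (κ := κ) hq hc hc0 hG (by omega) (by omega) hDq
    (fun s hs => by rw [he]; exact hmax s (mem_support_iff.2 hs))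
    ⟨s₀, hs₀, he.symm⟩ hNL
  rw [decomp hq hc0 (fun v => eval v G = 0) (by
    intro a ha v hv
    rw [homog_smul hG, hv, mul_zero])]
  have hTot : ∑ t : K, chT q c (fun v => eval v G = 0) t + chW q c (fun v => eval v G = 0) =
      Tot q c D G := by
    rw [Tot, chW_eq hG hDq]
    congr 1
    exact sum_congr rfl fun t _ => chT_eq hG hDq c t
  rw [hTot]
  have h1 : ((Finset.univ : Finset (K × K)).filter fun p => p ≠ 0 ∧
      eval ![p.1, p.2, 0, 0, 0] G = 0).card = (Fintype.card K - 1) * (q ^ 2 + 1) := by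
    have : ((Finset.univ : Finset (K × K)).filter fun p => p ≠ 0 ∧
        eval ![p.1, p.2, 0, 0, 0] G = 0) = Finset.univ.erase 0 := by
      ext p
      simp [hline]
    rw [this, card_erase_of_mem (mem_univ _), card_univ, Fintype.card_prod, hq]
    obtain ⟨m, hm⟩ : ∃ m, q ^ 2 = m + 1 := ⟨q ^ 2 - 1, by
      have : 0 < q ^ 2 := by positivity
      omega⟩
    rw [hm]
    have : (m + 1) * (m + 1) - 1 = m * (m + 1 + 1) := by
      have : (m + 1) * (m + 1) = m * (m + 1 + 1) + 1 := by ring
      omega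
    rw [this, Nat.add_sub_cancel]
  rw [h1, ← Nat.mul_add]
  apply Nat.mul_le_mul_left
  have : ((q ^ 2 + 1 + Tot q c D G : ℕ) : ℤ) ≤
      ((D * (q ^ 5 + q ^ 2) + if D = q then q ^ 3 + 1 else 0 : ℕ) : ℤ) := by
    push_cast
    exact hE
  exact_mod_cast this

/-- linear substitution -/
noncomputable def linS (φ : (Fin 5 → K) ≃ₗ[K] (Fin 5 → K)) :
    MvPolynomial (Fin 5) K →ₐ[K] MvPolynomial (Fin 5) K :=
  aeval fun i => ∑ j, C (φ (fun k => if j = k then 1 else 0) i) * X j

omit [Fintype K] [DecidableEq K] in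
theorem eval_linS (φ : (Fin 5 → K) ≃ₗ[K] (Fin 5 → K)) (F : MvPolynomial (Fin 5) K)
    (v : Fin 5 → K) : eval v (linS φ F) = eval (φ v) F := by
  have h : ((aeval v : MvPolynomial (Fin 5) K →ₐ[K] K).comp (linS φ)) = aeval (φ v) := by
    apply MvPolynomial.algHom_ext
    intro i
    simp only [linS, AlgHom.comp_apply, aeval_X, map_sum, map_mul, algHom_C, Algebra.algebraMap_self,
      RingHom.id_apply]
    have h1 := congrFun (LinearMap.pi_apply_eq_sum_univ (φ : (Fin 5 → K) →ₗ[K] (Fin 5 → K)) v) i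
    simp only [LinearEquiv.coe_coe, Finset.sum_apply, Pi.smul_apply, smul_eq_mul] at h1
    rw [h1]
    exact sum_congr rfl fun j _ => mul_comm _ _
  exact congrArg (fun f => f F) h

omit [Fintype K] [DecidableEq K] in
theorem homog_linS (φ : (Fin 5 → K) ≃ₗ[K] (Fin 5 → K)) {F : MvPolynomial (Fin 5) K} {D : ℕ}
    (h : F.IsHomogeneous D) : (linS φ F).IsHomogeneous D := by
  have hg : ∀ i : Fin 5, (∑ j, C (φ (fun k => if j = k then 1 else 0) i) * X j :
      MvPolynomial (Fin 5) K).IsHomogeneous 1 := fun i =>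
    IsHomogeneous.sum _ _ _ fun j _ => (isHomogeneous_X K j).C_mul _
  have := h.aeval (n := 1) _ hg
  rw [one_mul] at this
  exact this

omit [Fintype K] [DecidableEq K] in
theorem NL_linS (φ : (Fin 5 → K) ≃ₗ[K] (Fin 5 → K)) {F : MvPolynomial (Fin 5) K}
    (h : NL F) : NL (linS φ F) := by
  intro a ha
  obtain ⟨b, hb⟩ : ∃ b : Fin 5 → K, b = fun j => ∑ i, a i *
    φ.symm (fun k => if j = k then 1 else 0) i := ⟨_, rfl⟩
  have hkey : ∀ u : Fin 5 → K, ∑ j, b j * u j = ∑ i, a i * φ.symm u i := by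
    intro u
    have h1 : ∀ i, φ.symm u i = ∑ j, u j * φ.symm (fun k => if j = k then 1 else 0) i := by
      intro i
      have h1 := congrFun (LinearMap.pi_apply_eq_sum_univ
        (φ.symm : (Fin 5 → K) →ₗ[K] (Fin 5 → K)) u) i
      simpa only [LinearEquiv.coe_coe, Finset.sum_apply, Pi.smul_apply, smul_eq_mul] using h1
    simp only [hb, h1, mul_sum, sum_mul]
    rw [sum_comm]
    exact sum_congr rfl fun i _ => sum_congr rfl fun j _ => by ring
  have hb0 : b ≠ 0 := by
    intro hb0
    apply ha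
    funext i
    classical
    have h1 := hkey (φ (Pi.single i 1))
    rw [hb0, φ.symm_apply_apply] at h1
    simpa [Pi.single_apply] using h1.symm
  obtain ⟨u, hu1, hu2⟩ := h b hb0
  refine ⟨φ.symm u, ?_, ?_⟩
  · rw [← hkey]; exact hu1
  · rw [eval_linS, φ.apply_symm_apply]; exact hu2

theorem gen_case (hq : Fintype.card K = q ^ 2) {F : MvPolynomial (Fin 5) K} {D : ℕ}
    (hF : F.IsHomogeneous D) (hDq : D ≤ q) (hNL : NL F) {R1 R2 : Fin 5 → K} (hR : Iso q R1 R2)
    (hcont : ∀ a b : K, eval (a • R1 + b • R2) F = 0) :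
    ((Finset.univ : Finset (Fin 5 → K)).filter
      fun v => v ≠ 0 ∧ eval v F = 0 ∧ sf q v v = 0).card ≤
      (Fintype.card K - 1) * (D * (q ^ 5 + q ^ 2) + if D = q then q ^ 3 + 1 else 0) := by
  obtain ⟨φ, c, hc, hc0, hφ1, hφ2⟩ := frame hq hR.1 hR.2.1 hR.2.2.1 hR.2.2.2
  have hφ3 := nf_of_sf hφ2
  rw [transfer φ hφ3 fun v => eval v F = 0]
  have h := gen_frame hq hc hc0 (homog_linS φ hF) hDq (NL_linS φ hNL) (by
    intro a b
    rw [eval_linS, hφ1]
    have hv0 : φ ![0, 0, 0, 0, 0] = 0 := by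
      have : (![0, 0, 0, 0, 0] : Fin 5 → K) = 0 := by
        funext i
        fin_cases i <;> rfl
      rw [this, map_zero]
    simp only [Matrix.cons_val]
    rw [hv0, add_zero]
    exact hcont a b)
  simp only [eval_linS] at h
  exact h

/-- the bound for hypersurfaces without linear components -/
theorem NL_bound (hq : Fintype.card K = q ^ 2) {F : MvPolynomial (Fin 5) K} {D : ℕ}
    (hF : F.IsHomogeneous D) (hD : 1 ≤ D) (hDq : D ≤ q) (hNL : NL F) :
    ((Finset.univ : Finset (Fin 5 → K)).filter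
      fun v => v ≠ 0 ∧ eval v F = 0 ∧ sf q v v = 0).card ≤
      (Fintype.card K - 1) * (D * (q ^ 5 + q ^ 2) + if D = q then q ^ 3 + 1 else 0) := by
  have h2 := two_le_q hq
  by_cases hcon : ∃ R1 R2, Iso q R1 R2 ∧ ∀ a b : K, eval (a • R1 + b • R2) F = 0
  · obtain ⟨R1, R2, hR, h⟩ := hcon
    exact gen_case hq hF hDq hNL hR h
  · push Not at hcon
    refine (case0 hq hF hD (by rw [hq]; nlinarith) hcon).trans ?_
    apply Nat.mul_le_mul_left
    refine le_trans (Nat.mul_le_mul_left _ ?_) (Nat.le_add_right _ _)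
    have : 0 < q ^ 2 := by positivity
    omega

end Pool.Agent.H566R3
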