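import Mathlib
import Pool.Agent.H566R3.Gen

set_option autoImplicit false
set_option maxHeartbeats 400000

/-! # Linear sections -/

namespace Pool.Agent.H566R3

open Finset MvPolynomial

variable {K : Type} [Field K] [Fintype K] [DecidableEq K] {q : ℕ}

/-- the linear form -/
def dt (A v : Fin 5 → K) : K := ∑ i, A i * v i

omit [Fintype K] [DecidableEq K] in
theorem dt_five (A v : Fin 5 → K) :
    dt A v = A 0 * v 0 + A 1 * v 1 + A 2 * v 2 + A 3 * v 3 + A 4 * v 4 := by
  rw [dt, Fin.sum_univ_five]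

theorem chT_single (hq : Fintype.card K = q ^ 2) {c : K} (hc : c ^ q = c)
    (P : (Fin 5 → K) → Prop) [DecidablePred P] (t w0 : K) (s : ℕ)
    (hw : ∀ w τ lam, P ![τ + t * lam, lam, 1, -t ^ q, w] → w = w0)
    (hs : ∀ τ, ((Finset.univ : Finset K).filter
      fun lam => P ![τ + t * lam, lam, 1, -t ^ q, w0]).card + s ≤ q ^ 2) :
    chT q c P t + q * s ≤ q ^ 3 := by
  rw [chT, Finset.sum_eq_single w0]
  · have h1 : ((trFib q (-(c * w0 ^ (q + 1))) ×ˢ (Finset.univ : Finset K)).filter
        fun p => P ![p.1 + t * p.2, p.2, 1, -t ^ q, w0]).card =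
        ∑ τ ∈ trFib q (-(c * w0 ^ (q + 1))), ((Finset.univ : Finset K).filter
          fun lam => P ![τ + t * lam, lam, 1, -t ^ q, w0]).card := by
      rw [card_filter, sum_product]
      refine sum_congr rfl fun τ _ => ?_
      rw [card_filter]
    have h3 := sum_le_sum fun (τ : K) (_ : τ ∈ trFib q (-(c * w0 ^ (q + 1)))) => hs τ
    rw [sum_add_distrib, sum_const, sum_const, card_T hq hc w0, smul_eq_mul, smul_eq_mul,
      ← h1] at h3
    refine h3.trans (le_of_eq (by ring))
  · intro w _ hne
    rw [card_eq_zero, filter_eq_empty_iff]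
    intro p _ hp
    exact hne (hw _ _ _ hp)
  · intro h; exact absurd (mem_univ _) h

theorem chW_single (hq : Fintype.card K = q ^ 2) {c : K} (hc : c ^ q = c)
    (P : (Fin 5 → K) → Prop) [DecidablePred P] (w0 : K) (s : ℕ)
    (hw : ∀ w τ lam, P ![lam, τ, 0, 1, w] → w = w0)
    (hs : ∀ τ, ((Finset.univ : Finset K).filter
      fun lam => P ![lam, τ, 0, 1, w0]).card + s ≤ q ^ 2) :
    chW q c P + q * s ≤ q ^ 3 := by
  rw [chW, Finset.sum_eq_single w0]
  · have h1 : ((trFib q (-(c * w0 ^ (q + 1))) ×ˢ (Finset.univ : Finset K)).filter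
        fun p => P ![p.2, p.1, 0, 1, w0]).card =
        ∑ τ ∈ trFib q (-(c * w0 ^ (q + 1))), ((Finset.univ : Finset K).filter
          fun lam => P ![lam, τ, 0, 1, w0]).card := by
      rw [card_filter, sum_product]
      refine sum_congr rfl fun τ _ => ?_
      rw [card_filter]
    have h3 := sum_le_sum fun (τ : K) (_ : τ ∈ trFib q (-(c * w0 ^ (q + 1)))) => hs τ
    rw [sum_add_distrib, sum_const, sum_const, card_T hq hc w0, smul_eq_mul, smul_eq_mul,
      ← h1] at h3
    refine h3.trans (le_of_eq (by ring))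
  · intro w _ hne
    rw [card_eq_zero, filter_eq_empty_iff]
    intro p _ hp
    exact hne (hw _ _ _ hp)
  · intro h; exact absurd (mem_univ _) h

theorem chT_triv (hq : Fintype.card K = q ^ 2) {c : K} (hc : c ^ q = c)
    (P : (Fin 5 → K) → Prop) [DecidablePred P] (t : K) : chT q c P t ≤ q ^ 5 := by
  rw [chT]
  have : ∀ w : K, ((trFib q (-(c * w ^ (q + 1))) ×ˢ (Finset.univ : Finset K)).filter
    fun p => P ![p.1 + t * p.2, p.2, 1, -t ^ q, w]).card ≤ q * q ^ 2 := by
    intro w
    refine (card_le_card (filter_subset _ _)).trans ?_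
    rw [card_product, card_T hq hc w, card_univ, hq]
  refine (sum_le_sum fun w _ => this w).trans ?_
  rw [sum_const, card_univ, hq, smul_eq_mul]
  exact le_of_eq (by ring)

theorem chW_triv (hq : Fintype.card K = q ^ 2) {c : K} (hc : c ^ q = c)
    (P : (Fin 5 → K) → Prop) [DecidablePred P] : chW q c P ≤ q ^ 5 := by
  rw [chW]
  have : ∀ w : K, ((trFib q (-(c * w ^ (q + 1))) ×ˢ (Finset.univ : Finset K)).filter
    fun p => P ![p.2, p.1, 0, 1, w]).card ≤ q * q ^ 2 := by
    intro w
    refine (card_le_card (filter_subset _ _)).trans ?_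
    rw [card_product, card_T hq hc w, card_univ, hq]
  refine (sum_le_sum fun w _ => this w).trans ?_
  rw [sum_const, card_univ, hq, smul_eq_mul]
  exact le_of_eq (by ring)

theorem chT_zero {c : K} (P : (Fin 5 → K) → Prop) [DecidablePred P] (t : K)
    (h : ∀ w τ lam, ¬ P ![τ + t * lam, lam, 1, -t ^ q, w]) : chT q c P t = 0 := by
  rw [chT]
  refine sum_eq_zero fun w _ => ?_
  rw [card_eq_zero, filter_eq_empty_iff]
  intro p _ hp
  exact h _ _ _ hp

theorem chW_zero {c : K} (P : (Fin 5 → K) → Prop) [DecidablePred P]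
    (h : ∀ w τ lam, ¬ P ![lam, τ, 0, 1, w]) : chW q c P = 0 := by
  rw [chW]
  refine sum_eq_zero fun w _ => ?_
  rw [card_eq_zero, filter_eq_empty_iff]
  intro p _ hp
  exact h _ _ _ hp

/-- tangent hyperplanes -/
theorem sec_tangent (hq : Fintype.card K = q ^ 2) {c : K} (hc : c ^ q = c)
    (P : (Fin 5 → K) → Prop) [DecidablePred P] {A : Fin 5 → K} (h0 : A 0 = 0) (h1 : A 1 = 0)
    (h4 : A 4 = 0) (hA : A ≠ 0) (hP : ∀ v, P v → dt A v = 0) :
    ∑ t : K, chT q c P t + chW q c P ≤ q ^ 5 := by
  have hd : ∀ v, P v → A 2 * v 2 + A 3 * v 3 = 0 := by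
    intro v hv
    have := hP v hv
    rw [dt_five, h0, h1, h4] at this
    linear_combination this
  by_cases h3 : A 3 = 0
  · have h2 : A 2 ≠ 0 := by
      intro h2
      apply hA
      funext i
      fin_cases i
      · exact h0
      · exact h1
      · exact h2
      · exact h3
      · exact h4
    rw [sum_eq_zero, zero_add]
    · exact chW_triv hq hc P
    · intro t _
      refine chT_zero P t fun w τ lam hp => ?_
      have := hd _ hp
      simp only [Matrix.cons_val, h3, zero_mul, add_zero, mul_one] at this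
      exact h2 this
  · rw [chW_zero P (fun w τ lam hp => by
      have := hd _ hp
      simp only [Matrix.cons_val, mul_zero, zero_add, mul_one] at this
      exact h3 this), add_zero]
    obtain ⟨t0, ht0⟩ : ∃ t0 : K, t0 = (A 2 / A 3) ^ q := ⟨_, rfl⟩
    rw [Finset.sum_eq_single t0]
    · exact chT_triv hq hc P t0
    · intro t _ hne
      refine chT_zero P t fun w τ lam hp => ?_
      have := hd _ hp
      simp only [Matrix.cons_val, mul_one] at this
      apply hne
      have h5 : t ^ q = A 2 / A 3 := by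
        field_simp
        linear_combination -this
      rw [ht0, ← h5, pow_q_q hq]
    · intro h; exact absurd (mem_univ _) h

theorem sec_gen (hq : Fintype.card K = q ^ 2) {c : K} (hc : c ^ q = c)
    (P : (Fin 5 → K) → Prop) [DecidablePred P] {A : Fin 5 → K} (h0 : A 0 = 0) (h1 : A 1 = 0)
    (h4 : A 4 ≠ 0) (hP : ∀ v, P v → dt A v = 0) :
    ∑ t : K, chT q c P t + chW q c P ≤ q ^ 5 + q ^ 3 := by
  have hd : ∀ v, P v → A 2 * v 2 + A 3 * v 3 + A 4 * v 4 = 0 := by
    intro v hv
    have := hP v hv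
    rw [dt_five, h0, h1] at this
    linear_combination this
  have hT : ∀ t, chT q c P t ≤ q ^ 3 := by
    intro t
    have := chT_single hq hc P t ((A 3 * t ^ q - A 2) / A 4) 0 (by
      intro w τ lam hp
      have := hd _ hp
      simp only [Matrix.cons_val, mul_one] at this
      field_simp
      linear_combination this) (by
      intro τ
      rw [add_zero, ← hq, ← card_univ]
      exact card_le_card (filter_subset _ _))
    simpa using this
  have hW : chW q c P ≤ q ^ 3 := by
    have := chW_single hq hc P (-A 3 / A 4) 0 (by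
      intro w τ lam hp
      have := hd _ hp
      simp only [Matrix.cons_val, mul_one, mul_zero, zero_add] at this
      field_simp
      linear_combination this) (by
      intro τ
      rw [add_zero, ← hq, ← card_univ]
      exact card_le_card (filter_subset _ _))
    simpa using this
  refine (Nat.add_le_add (sum_le_sum fun t _ => hT t) hW).trans ?_
  rw [sum_const, card_univ, hq, smul_eq_mul]
  exact le_of_eq (by ring)

theorem card_univ_save (hq : Fintype.card K = q ^ 2) (g : K → Prop) [DecidablePred g]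
    (h : ∃ lam, ¬ g lam) : ((Finset.univ : Finset K).filter g).card + 1 ≤ q ^ 2 := by
  obtain ⟨l, hl⟩ := h
  rw [← hq, ← card_univ]
  apply card_lt_card
  rw [Finset.ssubset_iff_of_subset (filter_subset _ _)]
  exact ⟨l, mem_univ _, by simp [hl]⟩

theorem sec_two (hq : Fintype.card K = q ^ 2) {c : K} (hc : c ^ q = c)
    (P : (Fin 5 → K) → Prop) [DecidablePred P] {A B : Fin 5 → K} (h0 : A 0 = 0) (h1 : A 1 = 0)
    (h4 : A 4 ≠ 0) (hP : ∀ v, P v → dt A v = 0) (hP2 : ∀ v, P v → dt B v ≠ 0) :
    ∑ t : K, chT q c P t + chW q c P ≤ q ^ 5 := by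
  have h2 := two_le_q hq
  have hd : ∀ v, P v → A 2 * v 2 + A 3 * v 3 + A 4 * v 4 = 0 := by
    intro v hv
    have := hP v hv
    rw [dt_five, h0, h1] at this
    linear_combination this
  have hd2 : ∀ v, P v → B 0 * v 0 + B 1 * v 1 + B 2 * v 2 + B 3 * v 3 + B 4 * v 4 ≠ 0 := by
    intro v hv
    have := hP2 v hv
    rwa [dt_five] at this
  have hTw : ∀ t w τ lam, P ![τ + t * lam, lam, 1, -t ^ q, w] → w = (A 3 * t ^ q - A 2) / A 4 := by
    intro t w τ lam hp
    have := hd _ hp
    simp only [Matrix.cons_val, mul_one] at this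
    field_simp
    linear_combination this
  have hWw : ∀ w τ lam, P ![lam, τ, 0, 1, w] → w = -A 3 / A 4 := by
    intro w τ lam hp
    have := hd _ hp
    simp only [Matrix.cons_val, mul_one, mul_zero, zero_add] at this
    field_simp
    linear_combination this
  have htriv : ∀ (g : K → Prop) [DecidablePred g],
      ((Finset.univ : Finset K).filter g).card + 0 ≤ q ^ 2 := by
    intro g _
    rw [add_zero, ← hq, ← card_univ]
    exact card_le_card (filter_subset _ _)
  have hT0 : ∀ t, chT q c P t ≤ q ^ 3 := by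
    intro t
    have := chT_single hq hc P t _ 0 (hTw t) (fun τ => htriv _)
    simpa using this
  have hW0 : chW q c P ≤ q ^ 3 := by
    have := chW_single hq hc P _ 0 hWw (fun τ => htriv _)
    simpa using this
  have hTs : ∀ t, B 0 * t + B 1 ≠ 0 → chT q c P t + q ≤ q ^ 3 := by
    intro t ht
    have := chT_single hq hc P t _ 1 (hTw t) (fun τ => card_univ_save hq _ (by
      obtain ⟨w0, hw0⟩ : ∃ w0, w0 = (A 3 * t ^ q - A 2) / A 4 := ⟨_, rfl⟩
      rw [← hw0]
      refine ⟨-(B 0 * τ + B 2 - B 3 * t ^ q + B 4 * w0) / (B 0 * t + B 1), fun hp => ?_⟩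
      apply hd2 _ hp
      simp only [Matrix.cons_val, mul_one]
      field_simp
      ring))
    simpa using this
  have hWs : B 0 ≠ 0 → chW q c P + q ≤ q ^ 3 := by
    intro ht
    have := chW_single hq hc P _ 1 hWw (fun τ => card_univ_save hq _ (by
      obtain ⟨w0, hw0⟩ : ∃ w0, w0 = -A 3 / A 4 := ⟨_, rfl⟩
      rw [← hw0]
      refine ⟨-(B 1 * τ + B 3 + B 4 * w0) / B 0, fun hp => ?_⟩
      apply hd2 _ hp
      simp only [Matrix.cons_val, mul_one, mul_zero]
      field_simp
      ring))
    simpa using this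
  have hq5 : q ^ 2 * q ^ 3 = q ^ 5 := by ring
  have hq3 : q ^ 2 * q = q ^ 3 := by ring
  by_cases hB0 : B 0 = 0
  · by_cases hB1 : B 1 = 0
    · obtain ⟨b2, hb2⟩ : ∃ b2, b2 = B 2 - B 4 * A 2 / A 4 := ⟨_, rfl⟩
      obtain ⟨b3, hb3⟩ : ∃ b3, b3 = B 3 - B 4 * A 3 / A 4 := ⟨_, rfl⟩
      have hd3 : ∀ v, P v → b2 * v 2 + b3 * v 3 ≠ 0 := by
        intro v hv h5
        apply hd2 v hv
        rw [hB0, hB1]
        have h6 := hd v hv
        rw [hb2, hb3] at h5
        field_simp at h5
        have h7 : A 4 * (0 * v 0 + 0 * v 1 + B 2 * v 2 + B 3 * v 3 + B 4 * v 4) = 0 := by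
          linear_combination h5 + B 4 * h6
        exact (mul_eq_zero.1 h7).resolve_left h4
      by_cases h33 : b3 = 0
      · rw [chW_zero P (fun w τ lam hp => by
          apply hd3 _ hp
          simp only [Matrix.cons_val, h33]
          ring), add_zero]
        refine (sum_le_sum fun t _ => hT0 t).trans ?_
        rw [sum_const, card_univ, hq, smul_eq_mul, hq5]
      · obtain ⟨t0, ht0⟩ : ∃ t0 : K, t0 = (b2 / b3) ^ q := ⟨_, rfl⟩
        have hz : chT q c P t0 = 0 := by
          refine chT_zero P t0 fun w τ lam hp => ?_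
          apply hd3 _ hp
          simp only [Matrix.cons_val]
          rw [ht0, pow_q_q hq]
          field_simp
          ring
        rw [← Finset.add_sum_erase _ _ (mem_univ t0), hz, zero_add]
        have h5 : ∑ t ∈ Finset.univ.erase t0, chT q c P t ≤ (q ^ 2 - 1) * q ^ 3 := by
          refine (sum_le_sum fun t _ => hT0 t).trans ?_
          rw [sum_const, card_erase_of_mem (mem_univ _), card_univ, hq, smul_eq_mul]
        have h6 : (q ^ 2 - 1) * q ^ 3 + q ^ 3 = q ^ 5 := by
          obtain ⟨m, hm⟩ : ∃ m, q ^ 2 = m + 1 := ⟨q ^ 2 - 1, by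
            have : 0 < q ^ 2 := by positivity
            omega⟩
          rw [← hq5, hm, Nat.add_sub_cancel]
          ring
        omega
    · have h5 := sum_le_sum fun (t : K) (_ : t ∈ Finset.univ) => hTs t (by
        rw [hB0, zero_mul, zero_add]; exact hB1)
      rw [sum_add_distrib, sum_const, sum_const, card_univ, hq, smul_eq_mul, smul_eq_mul,
        hq5, hq3] at h5
      omega
  · have hWs' := hWs hB0
    obtain ⟨t0, ht0⟩ : ∃ t0 : K, t0 = -B 1 / B 0 := ⟨_, rfl⟩
    rw [← Finset.add_sum_erase _ _ (mem_univ t0)]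
    have h5 := sum_le_sum fun (t : K) (ht : t ∈ Finset.univ.erase t0) => hTs t (by
      intro h6
      apply (mem_erase.1 ht).1
      rw [ht0]
      field_simp
      linear_combination h6)
    rw [sum_add_distrib, sum_const, sum_const, card_erase_of_mem (mem_univ _), card_univ, hq,
      smul_eq_mul, smul_eq_mul] at h5
    have h7 := hT0 t0
    obtain ⟨m, hm⟩ : ∃ m, q ^ 2 = m + 1 := ⟨q ^ 2 - 1, by
      have : 0 < q ^ 2 := by positivity
      omega⟩
    rw [← hq5, hm]
    rw [hm, Nat.add_sub_cancel] at h5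
    have h8 : m * q + q = q ^ 3 := by rw [← hq3, hm]; ring
    have h9 : (m + 1) * q ^ 3 = m * q ^ 3 + q ^ 3 := by ring
    omega

end Pool.Agent.H566R3
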