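import Mathlib
import Pool.Agent.H566R3.Lin

set_option autoImplicit false
set_option maxHeartbeats 400000

/-! # Linear factors -/

namespace Pool.Agent.H566R3

open Finset MvPolynomial

variable {K : Type} [Field K] [Fintype K] [DecidableEq K] {q : ℕ}

/-- the linear form as a polynomial -/
noncomputable def lf (A : Fin 5 → K) : MvPolynomial (Fin 5) K := ∑ i, C (A i) * X i

omit [Fintype K] [DecidableEq K] in
theorem eval_lf (A v : Fin 5 → K) : eval v (lf A) = dt A v := by
  simp [lf, dt]

omit [Fintype K] [DecidableEq K] in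
theorem homog_lf (A : Fin 5 → K) : (lf A).IsHomogeneous 1 :=
  IsHomogeneous.sum _ _ _ fun j _ => (isHomogeneous_X K j).C_mul _

omit [DecidableEq K] in
theorem factor {F : MvPolynomial (Fin 5) K} {D : ℕ} (hF : F.IsHomogeneous (D + 1))
    (hD : D + 1 ≤ Fintype.card K) {A : Fin 5 → K} (hA : A ≠ 0)
    (h : ∀ v, dt A v = 0 → eval v F = 0) :
    ∃ F' : MvPolynomial (Fin 5) K, F = lf A * F' ∧ F'.IsHomogeneous D := by
  classical
  obtain ⟨i, hi⟩ : ∃ i, A i ≠ 0 := by
    by_contra hcon
    push Not at hcon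
    exact hA (funext hcon)
  obtain ⟨ψ, hψ⟩ : ∃ ψ : MvPolynomial (Fin 5) K →ₐ[K] MvPolynomial (Fin 5) K,
    ψ = aeval fun j => X j - (if j = i then C (A i)⁻¹ else 0) * lf A := ⟨_, rfl⟩
  have hlin : ∀ j, (X j - (if j = i then C (A i)⁻¹ else 0) * lf A :
      MvPolynomial (Fin 5) K).IsHomogeneous 1 := by
    intro j
    split_ifs with hj
    · exact (isHomogeneous_X K j).sub ((homog_lf A).C_mul _)
    · rw [zero_mul, sub_zero]
      exact isHomogeneous_X K j
  have hψF : (ψ F).IsHomogeneous (D + 1) := by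
    have := hF.aeval (n := 1) _ hlin
    rw [one_mul] at this
    rw [hψ]
    exact this
  have hψ0 : ψ F = 0 := by
    by_contra hne
    obtain ⟨v, hv⟩ := exists_eval_ne hψF hne hD
    apply hv
    obtain ⟨v', hv'⟩ : ∃ v' : Fin 5 → K, v' = fun j => v j - (if j = i then (A i)⁻¹ else 0) * dt A v :=
      ⟨_, rfl⟩
    have h1 : ((aeval v : MvPolynomial (Fin 5) K →ₐ[K] K).comp ψ) = aeval v' := by
      apply MvPolynomial.algHom_ext
      intro j
      rw [hψ, hv']
      simp only [AlgHom.comp_apply, aeval_X, map_sub, map_mul]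
      have h2 : (aeval v : MvPolynomial (Fin 5) K →ₐ[K] K) (lf A) = dt A v := eval_lf A v
      rw [h2]
      congr 2
      split_ifs
      · simp
      · simp
    have h2 : eval v (ψ F) = eval v' F := congrArg (fun f => f F) h1
    rw [h2]
    apply h
    rw [hv', dt]
    simp only [mul_sub, sum_sub_distrib]
    have h3 : ∑ x, A x * ((if x = i then (A i)⁻¹ else 0) * dt A v) = dt A v := by
      rw [Finset.sum_eq_single i]
      · rw [if_pos rfl, ← mul_assoc, mul_inv_cancel₀ hi, one_mul]
      · intro j _ hj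
        rw [if_neg hj, zero_mul, mul_zero]
      · intro h; exact absurd (mem_univ _) h
    rw [h3]
    exact sub_self _
  have hdvd : lf A ∣ F := by
    rw [← Ideal.mem_span_singleton, ← Ideal.Quotient.eq_zero_iff_mem]
    have h1 : ((Ideal.Quotient.mkₐ K (Ideal.span {lf A})).comp ψ) =
        Ideal.Quotient.mkₐ K (Ideal.span {lf A}) := by
      apply MvPolynomial.algHom_ext
      intro j
      rw [hψ]
      simp only [AlgHom.comp_apply, aeval_X, map_sub, map_mul]
      have h2 : (Ideal.Quotient.mkₐ K (Ideal.span {lf A})) (lf A) = 0 :=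
        Ideal.Quotient.eq_zero_iff_mem.2 (Ideal.mem_span_singleton_self _)
      rw [h2, mul_zero, sub_zero]
    have h2 := congrArg (fun f => f F) h1
    simp only [AlgHom.comp_apply, hψ0, map_zero] at h2
    exact h2.symm
  obtain ⟨F', hF'⟩ := hdvd
  refine ⟨homogeneousComponent D F', ?_, homogeneousComponent_isHomogeneous _ _⟩
  have h1 : homogeneousComponent (D + 1) F = F := homogeneousComponent_eq_self hF
  have h2 : F = ∑ j ∈ range (F'.totalDegree + 1), lf A * homogeneousComponent j F' := by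
    rw [← mul_sum, sum_homogeneousComponent, ← hF']
  have h3 : ∀ j, homogeneousComponent (D + 1) (lf A * homogeneousComponent j F') =
      if j = D then lf A * homogeneousComponent D F' else 0 := by
    intro j
    have h4 : (lf A * homogeneousComponent j F').IsHomogeneous (j + 1) := by
      rw [add_comm]
      exact (homog_lf A).mul (homogeneousComponent_isHomogeneous _ _)
    rw [homogeneousComponent_of_mem (n := j + 1) h4]
    split_ifs with h5 h6 h6
    · rw [h6]
    · omega
    · omega
    · rfl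
  have h4 : F = ∑ j ∈ range (F'.totalDegree + 1),
      if j = D then lf A * homogeneousComponent D F' else 0 := by
    conv_lhs => rw [← h1, h2]
    rw [map_sum]
    exact sum_congr rfl fun j _ => h3 j
  rw [Finset.sum_ite_eq'] at h4
  split_ifs at h4 with h5
  · exact h4
  · rw [h4]
    have : homogeneousComponent D F' = 0 := by
      apply homogeneousComponent_eq_zero
      rw [mem_range] at h5
      omega
    rw [this, mul_zero]

omit [Fintype K] [DecidableEq K] in
/-- transposed functional -/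
theorem exists_pull (φ : (Fin 5 → K) ≃ₗ[K] (Fin 5 → K)) (a : Fin 5 → K) :
    ∃ A : Fin 5 → K, (∀ v, dt A v = dt a (φ v)) ∧ (a ≠ 0 → A ≠ 0) := by
  obtain ⟨b, hb⟩ : ∃ b : Fin 5 → K, b = fun j => ∑ i, a i *
    φ (fun k => if j = k then 1 else 0) i := ⟨_, rfl⟩
  have hkey : ∀ u : Fin 5 → K, dt b u = dt a (φ u) := by
    intro u
    have h1 : ∀ i, φ u i = ∑ j, u j * φ (fun k => if j = k then 1 else 0) i := by
      intro i
      have h1 := congrFun (LinearMap.pi_apply_eq_sum_univ
        (φ : (Fin 5 → K) →ₗ[K] (Fin 5 → K)) u) i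
      simpa only [LinearEquiv.coe_coe, Finset.sum_apply, Pi.smul_apply, smul_eq_mul] using h1
    simp only [dt, hb, h1, mul_sum, sum_mul]
    rw [sum_comm]
    exact sum_congr rfl fun i _ => sum_congr rfl fun j _ => by ring
  refine ⟨b, hkey, ?_⟩
  intro ha hb0
  apply ha
  funext i
  classical
  have h1 := hkey (φ.symm (Pi.single i 1))
  rw [hb0, φ.apply_symm_apply] at h1
  simpa [dt, Pi.single_apply] using h1.symm

omit [Fintype K] [DecidableEq K] in
theorem dt_smul (a : K) (A v : Fin 5 → K) : dt A (fun i => a * v i) = a * dt A v := by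
  simp only [dt, mul_sum]
  exact sum_congr rfl fun i _ => by ring

/-- points of a hyperplane section -/
theorem H1 (hq : Fintype.card K = q ^ 2) {a : Fin 5 → K} (ha : a ≠ 0) :
    ((Finset.univ : Finset (Fin 5 → K)).filter
      fun v => v ≠ 0 ∧ dt a v = 0 ∧ sf q v v = 0).card ≤
      (Fintype.card K - 1) * (q ^ 5 + q ^ 3 + q ^ 2 + 1) := by
  have h2 := two_le_q hq
  by_cases hcon : ∃ R1 R2, Iso q R1 R2 ∧ ∀ x y : K, dt a (x • R1 + y • R2) = 0
  · obtain ⟨R1, R2, hR, hline⟩ := hcon
    obtain ⟨φ, c, hc, hc0, hφ1, hφ2⟩ := frame hq hR.1 hR.2.1 hR.2.2.1 hR.2.2.2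
    have hφ3 := nf_of_sf hφ2
    have hv0 : φ ![0, 0, 0, 0, 0] = 0 := by
      have : (![0, 0, 0, 0, 0] : Fin 5 → K) = 0 := by
        funext i
        fin_cases i <;> rfl
      rw [this, map_zero]
    have hφl : ∀ a b : K, φ ![a, b, 0, 0, 0] = a • R1 + b • R2 := by
      intro a b
      rw [hφ1]
      simp only [Matrix.cons_val]
      rw [hv0, add_zero]
    obtain ⟨A, hA, hA0⟩ := exists_pull φ a
    have hA0' := hA0 ha
    have z0 : A 0 = 0 := by
      have := hA ![1, 0, 0, 0, 0]
      rw [hφl, hline, dt_five] at this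
      simpa using this
    have z1 : A 1 = 0 := by
      have := hA ![0, 1, 0, 0, 0]
      rw [hφl, hline, dt_five] at this
      simpa using this
    rw [transfer φ hφ3 fun v => dt a v = 0]
    simp only [← hA]
    rw [decomp hq hc0 (fun v => dt A v = 0) (by
      intro a ha v hv
      rw [dt_smul, hv, mul_zero])]
    have g1 : ((Finset.univ : Finset (K × K)).filter fun p => p ≠ 0 ∧
        dt A ![p.1, p.2, 0, 0, 0] = 0).card ≤ (Fintype.card K - 1) * (q ^ 2 + 1) := by
      refine (card_le_card (t := Finset.univ.erase 0) ?_).trans ?_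
      · intro p hp
        rw [mem_filter] at hp
        exact mem_erase.2 ⟨hp.2.1, mem_univ _⟩
      · rw [card_erase_of_mem (mem_univ _), card_univ, Fintype.card_prod, hq]
        obtain ⟨m, hm⟩ : ∃ m, q ^ 2 = m + 1 := ⟨q ^ 2 - 1, by
          have : 0 < q ^ 2 := by positivity
          omega⟩
        rw [hm]
        have : (m + 1) * (m + 1) - 1 = m * (m + 1 + 1) := by
          have : (m + 1) * (m + 1) = m * (m + 1 + 1) + 1 := by ring
          omega
        rw [this, Nat.add_sub_cancel]
    have g2 : ∑ t : K, chT q c (fun v => dt A v = 0) t + chW q c (fun v => dt A v = 0) ≤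
        q ^ 5 + q ^ 3 := by
      by_cases h4 : A 4 = 0
      · exact (sec_tangent hq hc _ z0 z1 h4 hA0' fun v hv => hv).trans (Nat.le_add_right _ _)
      · exact sec_gen hq hc _ z0 z1 h4 fun v hv => hv
    refine (Nat.add_le_add g1 (Nat.mul_le_mul_left _ g2)).trans ?_
    rw [← Nat.mul_add]
    exact Nat.mul_le_mul_left _ (by omega)
  · push Not at hcon
    have h := case0 hq (homog_lf a) le_rfl (by rw [hq]; nlinarith) (by
      intro R1 R2 hR
      obtain ⟨x, y, hxy⟩ := hcon R1 R2 hR
      exact ⟨x, y, by rw [eval_lf]; exact hxy⟩)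
    simp only [eval_lf] at h
    refine h.trans (Nat.mul_le_mul_left _ ?_)
    rw [one_mul]
    omega

/-- points of a hyperplane section outside another hyperplane -/
theorem H2 (hq : Fintype.card K = q ^ 2) {a : Fin 5 → K} (ha : a ≠ 0) (b : Fin 5 → K) :
    ((Finset.univ : Finset (Fin 5 → K)).filter
      fun v => v ≠ 0 ∧ (dt a v = 0 ∧ dt b v ≠ 0) ∧ sf q v v = 0).card ≤
      (Fintype.card K - 1) * (q ^ 5 + q ^ 2) := by
  have h2 := two_le_q hq
  by_cases hcon : ∃ R1 R2, Iso q R1 R2 ∧ ∀ x y : K, dt a (x • R1 + y • R2) = 0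
  · obtain ⟨R1, R2, hR, hline⟩ := hcon
    obtain ⟨φ, c, hc, hc0, hφ1, hφ2⟩ := frame hq hR.1 hR.2.1 hR.2.2.1 hR.2.2.2
    have hφ3 := nf_of_sf hφ2
    have hv0 : φ ![0, 0, 0, 0, 0] = 0 := by
      have : (![0, 0, 0, 0, 0] : Fin 5 → K) = 0 := by
        funext i
        fin_cases i <;> rfl
      rw [this, map_zero]
    have hφl : ∀ a b : K, φ ![a, b, 0, 0, 0] = a • R1 + b • R2 := by
      intro a b
      rw [hφ1]
      simp only [Matrix.cons_val]
      rw [hv0, add_zero]
    obtain ⟨A, hA, hA0⟩ := exists_pull φ a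
    obtain ⟨B, hB, -⟩ := exists_pull φ b
    have hA0' := hA0 ha
    have z0 : A 0 = 0 := by
      have := hA ![1, 0, 0, 0, 0]
      rw [hφl, hline, dt_five] at this
      simpa using this
    have z1 : A 1 = 0 := by
      have := hA ![0, 1, 0, 0, 0]
      rw [hφl, hline, dt_five] at this
      simpa using this
    rw [transfer φ hφ3 fun v => dt a v = 0 ∧ dt b v ≠ 0]
    simp only [← hA, ← hB]
    rw [decomp hq hc0 (fun v => dt A v = 0 ∧ dt B v ≠ 0) (by
      intro a ha v hv
      rw [dt_smul, dt_smul, hv.1, mul_zero]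
      exact ⟨rfl, mul_ne_zero ha hv.2⟩)]
    have g1 : ((Finset.univ : Finset (K × K)).filter fun p => p ≠ 0 ∧
        (dt A ![p.1, p.2, 0, 0, 0] = 0 ∧ dt B ![p.1, p.2, 0, 0, 0] ≠ 0)).card ≤
        (Fintype.card K - 1) * q ^ 2 := by
      by_cases hB0 : B 0 = 0 ∧ B 1 = 0
      · refine le_of_eq_of_le ?_ (Nat.zero_le _)
        rw [card_eq_zero, filter_eq_empty_iff]
        intro p _ hp
        apply hp.2.2
        rw [dt_five, hB0.1, hB0.2]
        simp
      · have e1 : ((Finset.univ : Finset (K × K)).filter fun p => p ≠ 0 ∧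
            (dt A ![p.1, p.2, 0, 0, 0] = 0 ∧ dt B ![p.1, p.2, 0, 0, 0] ≠ 0)).card +
            ((Finset.univ : Finset K).image fun x => (x * B 1, x * -B 0)).card ≤
            (Finset.univ : Finset (K × K)).card := by
          rw [← card_union_of_disjoint]
          · exact card_le_card (subset_univ _)
          · rw [disjoint_left]
            intro p hp hp2
            rw [mem_filter] at hp
            rw [mem_image] at hp2
            obtain ⟨x, _, rfl⟩ := hp2
            apply hp.2.2.2
            rw [dt_five]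
            simp only [Matrix.cons_val]
            ring
        have e2 : ((Finset.univ : Finset K).image fun x => (x * B 1, x * -B 0)).card =
            q ^ 2 := by
          rw [card_image_of_injective, card_univ, hq]
          intro x y hxy
          simp only [Prod.mk.injEq, mul_neg, neg_inj] at hxy
          rcases not_and_or.1 hB0 with h | h
          · exact mul_right_cancel₀ h hxy.2
          · exact mul_right_cancel₀ h hxy.1
        rw [e2, card_univ, Fintype.card_prod, hq] at e1
        rw [hq]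
        obtain ⟨m, hm⟩ : ∃ m, q ^ 2 = m + 1 := ⟨q ^ 2 - 1, by
          have : 0 < q ^ 2 := by positivity
          omega⟩
        rw [hm] at e1 ⊢
        rw [Nat.add_sub_cancel]
        have : (m + 1) * (m + 1) = m * (m + 1) + (m + 1) := by ring
        omega
    have g2 : ∑ t : K, chT q c (fun v => dt A v = 0 ∧ dt B v ≠ 0) t +
        chW q c (fun v => dt A v = 0 ∧ dt B v ≠ 0) ≤ q ^ 5 := by
      by_cases h4 : A 4 = 0
      · exact (sec_tangent hq hc _ z0 z1 h4 hA0' fun v hv => hv.1)
      · exact sec_two hq hc _ z0 z1 h4 (fun v hv => hv.1) (fun v hv => hv.2)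
    refine (Nat.add_le_add g1 (Nat.mul_le_mul_left _ g2)).trans ?_
    rw [← Nat.mul_add]
    exact Nat.mul_le_mul_left _ (by omega)
  · push Not at hcon
    have h := case0 hq (homog_lf a) le_rfl (by rw [hq]; nlinarith) (by
      intro R1 R2 hR
      obtain ⟨x, y, hxy⟩ := hcon R1 R2 hR
      exact ⟨x, y, by rw [eval_lf]; exact hxy⟩)
    simp only [eval_lf] at h
    refine le_trans (card_le_card ?_) (h.trans (Nat.mul_le_mul_left _ ?_))
    · intro v hv
      rw [mem_filter] at hv ⊢
      exact ⟨mem_univ _, hv.2.1, hv.2.2.1.1, hv.2.2.2⟩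
    · rw [one_mul]
      have : 0 < q ^ 2 := by positivity
      omega

/-- the bound outside a hyperplane, degree less than `q` -/
theorem star (hq : Fintype.card K = q ^ 2) (b : Fin 5 → K) (D : ℕ) :
    ∀ F : MvPolynomial (Fin 5) K, F.IsHomogeneous D → F ≠ 0 → D < q →
    ((Finset.univ : Finset (Fin 5 → K)).filter
      fun v => v ≠ 0 ∧ (eval v F = 0 ∧ dt b v ≠ 0) ∧ sf q v v = 0).card ≤
      (Fintype.card K - 1) * (D * (q ^ 5 + q ^ 2)) := by
  have h2 := two_le_q hq
  induction D with
  | zero =>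
    intro F hF h0 _
    refine le_of_eq_of_le ?_ (Nat.zero_le _)
    rw [card_eq_zero, filter_eq_empty_iff]
    intro v _ hv
    obtain ⟨w, hw⟩ := exists_eval_ne hF h0 (Nat.zero_le _)
    apply hw
    have h3 := hv.2.1.1
    have h4 := homog_smul hF 0 v
    have h5 := homog_smul hF 0 w
    rw [pow_zero, one_mul] at h4 h5
    have h6 : (fun i => (0 : K) * v i) = fun i => (0 : K) * w i := by
      funext i
      rw [zero_mul, zero_mul]
    rw [h6] at h4
    rw [← h5, h4, h3]
  | succ D ih =>
    intro F hF h0 hDq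
    by_cases hNL : NL F
    · have h := NL_bound hq hF (by omega) hDq.le hNL
      rw [if_neg (by omega), add_zero] at h
      refine le_trans (card_le_card ?_) h
      intro v hv
      rw [mem_filter] at hv ⊢
      exact ⟨mem_univ _, hv.2.1, hv.2.2.1.1, hv.2.2.2⟩
    · rw [NL] at hNL
      push Not at hNL
      obtain ⟨a, ha, hav⟩ := hNL
      obtain ⟨F', hF', hF'h⟩ := factor hF (by rw [hq]; nlinarith) ha hav
      have hF'0 : F' ≠ 0 := by
        rintro rfl
        exact h0 (by rw [hF', mul_zero])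
      have h3 := ih F' hF'h hF'0 (by omega)
      have h4 := H2 hq ha b
      refine le_trans (card_le_card (t :=
        ((Finset.univ : Finset (Fin 5 → K)).filter
          fun v => v ≠ 0 ∧ (dt a v = 0 ∧ dt b v ≠ 0) ∧ sf q v v = 0) ∪
        ((Finset.univ : Finset (Fin 5 → K)).filter
          fun v => v ≠ 0 ∧ (eval v F' = 0 ∧ dt b v ≠ 0) ∧ sf q v v = 0)) ?_) ?_
      · intro v hv
        rw [mem_filter, hF', map_mul, eval_lf, mul_eq_zero] at hv
        rw [mem_union, mem_filter, mem_filter]
        rcases hv.2.2.1.1 with h | h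
        · left
          exact ⟨mem_univ _, hv.2.1, ⟨h, hv.2.2.1.2⟩, hv.2.2.2⟩
        · right
          exact ⟨mem_univ _, hv.2.1, ⟨h, hv.2.2.1.2⟩, hv.2.2.2⟩
      · refine (card_union_le _ _).trans ((Nat.add_le_add h4 h3).trans ?_)
        rw [← Nat.mul_add]
        exact Nat.mul_le_mul_left _ (le_of_eq (by ring))

/-- the main bound -/
theorem main_bound (hq : Fintype.card K = q ^ 2) {F : MvPolynomial (Fin 5) K} {D : ℕ}
    (hF : F.IsHomogeneous D) (h0 : F ≠ 0) (hD : 1 ≤ D) (hDq : D ≤ q) :
    ((Finset.univ : Finset (Fin 5 → K)).filter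
      fun v => v ≠ 0 ∧ eval v F = 0 ∧ sf q v v = 0).card ≤
      (q ^ 2 - 1) * (D * (q ^ 5 + q ^ 2) + q ^ 3 + 1) := by
  have h2 := two_le_q hq
  have hqq : q ^ 2 - 1 = Fintype.card K - 1 := by rw [hq]
  rw [hqq]
  by_cases hNL : NL F
  · refine (NL_bound hq hF hD hDq hNL).trans (Nat.mul_le_mul_left _ ?_)
    split_ifs
    · omega
    · omega
  · rw [NL] at hNL
    push Not at hNL
    obtain ⟨a, ha, hav⟩ := hNL
    obtain ⟨E, rfl⟩ : ∃ E, D = E + 1 := ⟨D - 1, by omega⟩
    obtain ⟨F', hF', hF'h⟩ := factor hF (by rw [hq]; nlinarith) ha hav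
    have hF'0 : F' ≠ 0 := by
      rintro rfl
      exact h0 (by rw [hF', mul_zero])
    have h3 := star hq a E F' hF'h hF'0 (by omega)
    have h4 := H1 hq ha
    refine le_trans (card_le_card (t :=
      ((Finset.univ : Finset (Fin 5 → K)).filter
        fun v => v ≠ 0 ∧ dt a v = 0 ∧ sf q v v = 0) ∪
      ((Finset.univ : Finset (Fin 5 → K)).filter
        fun v => v ≠ 0 ∧ (eval v F' = 0 ∧ dt a v ≠ 0) ∧ sf q v v = 0)) ?_) ?_
    · intro v hv
      rw [mem_filter, hF', map_mul, eval_lf, mul_eq_zero] at hv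
      rw [mem_union, mem_filter, mem_filter]
      by_cases h : dt a v = 0
      · left
        exact ⟨mem_univ _, hv.2.1, h, hv.2.2.2⟩
      · right
        exact ⟨mem_univ _, hv.2.1, ⟨hv.2.2.1.resolve_left h, h⟩, hv.2.2.2⟩
    · refine (card_union_le _ _).trans ((Nat.add_le_add h4 h3).trans ?_)
      rw [← Nat.mul_add]
      exact Nat.mul_le_mul_left _ (le_of_eq (by ring))

end Pool.Agent.H566R3
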